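import Pool.Agent.Lib.MP_4e7804_co.Tl.Spec
import Pool.Agent.Lib.MP_4e7804_co.Lo.Generic

/-! MP_4e7804_co, Tl/Low: the lower bound, assembly. -/

set_option autoImplicit false

open Finset

namespace Pool.Agent.Lib.MP_4e7804_co.Tl

theorem LowN.fam (hB : StmtFamB) (hS : StmtFamS) (b c h : ℕ) (hh : 1 ≤ h) :
    ∃ A B : ℕ → ℕ → ℤ, Cols h A B ∧ Real b c h A B := by
  induction h, hh using Nat.le_induction with
  | base => exact hB b c
  | succ h hh ih =>
    obtain ⟨A, B, h1, h2⟩ := ih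
    exact hS b c h A B h1 h2

theorem LowN.newton {n : ℕ} (F : MvPolynomial (Fin n) ℂ) :
    newton F = convexHull ℝ (Mx F : Set (Fin n → ℝ)) := by
  rw [Pool.Agent.Lib.MP_4e7804_co.newton, Mx, Finset.coe_image]

theorem tLow (hSep : StmtSep) (hReg : StmtReg) (hVtx : StmtVtx) (hExF : StmtExF)
    (hClos : StmtClos) (hCont : StmtCont) (hFamB : StmtFamB) (hFamS : StmtFamS) (hPts : StmtPts)
    (hInj : StmtInj) (hCard : StmtCard) : StmtLow := by
  intro b c h hh hb hc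
  obtain ⟨A, B, hcol, hreal⟩ := LowN.fam hFamB hFamS b c h hh
  obtain ⟨v1, v2, v3, v4⟩ := hVtx b c h A B hcol hb hc
  obtain ⟨cf, hcf⟩ := exists_generic (conf b c h A B) v3
  have hne : ∀ i, ∀ a ∈ sets b c h A B i, cf i a ≠ 0 := fun i a ha =>
    hcf.ne_zero i a (v4 i a ha)
  obtain ⟨F, hF⟩ := hExF b c h A B hcol hb hc cf hne
  refine ⟨numVertices (newton F), ⟨conf b c h A B, cf, F, v1, v2, hcf, hF, rfl⟩, ?_⟩
  rw [← hCard b c h, LowN.newton F]
  have hM : (Mx F).Nonempty := by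
    unfold Mx
    rw [Finset.image_nonempty, Finset.nonempty_iff_ne_empty]
    intro h0
    exact hF.1.ne_zero (MvPolynomial.support_eq_empty.1 h0)
  obtain ⟨c1, c2, c3, c4, c5⟩ := hCont b c h A B
  have key : ∀ D D' : Option (ℕ × ℕ × Finset ℕ × Finset ℕ),
      ∀ z ∈ UU b c h A B D, ∀ z' ∈ UU b c h A B D', ∀ i < b, ∀ j < c, SRel b c D i j →
        ¬ SRel b c D' i j → ∃ θ : ℝ, 0 ≤ θ ∧ θ ≤ 1 ∧ (1 - θ) • z + θ • z' ∈ trp (Mx F) := by
    intro D D' z hz z' hz' i hi j hj h1 h2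
    obtain ⟨θ, t0, t1, t2, t3⟩ := hSep b c h A B hcol hb hc z hz.1 z' hz'.1 i hi j hj
      ((hz.2 i hi j hj).1 h1) ((hz'.2 i hi j hj).2 h2)
    exact ⟨θ, t0, t1, hClos b c h A B hcol hb hc cf F hne hF _ t2 t3⟩
  refine hReg _ (Mx F) hM _ (data b c h) (UU b c h A B)
    (fun D hD => ⟨c5 D, hPts b c h A B hcol hreal hb hc D hD⟩) ?_
  intro D hD D' hD' hDD z hz z' hz'
  have hex : ∃ i < b, ∃ j < c, ¬ (SRel b c D i j ↔ SRel b c D' i j) := by
    by_contra hcon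
    push Not at hcon
    exact hDD (hInj b c h hb hc D hD D' hD' fun i hi j hj => hcon i hi j hj)
  obtain ⟨i, hi, j, hj, hij⟩ := hex
  by_cases h1 : SRel b c D i j
  · have h2 : ¬ SRel b c D' i j := fun h2 => hij ⟨fun _ => h2, fun _ => h1⟩
    exact key D D' z hz z' hz' i hi j hj h1 h2
  · have h2 : SRel b c D' i j := by
      by_contra h2
      exact hij ⟨fun h => absurd h h1, fun h => absurd h h2⟩
    obtain ⟨θ, t0, t1, t2⟩ := key D' D z' hz' z hz i hi j hj h2 h1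
    refine ⟨1 - θ, by linarith, by linarith, ?_⟩
    have : (1 - (1 - θ)) • z + (1 - θ) • z' = (1 - θ) • z' + θ • z := by
      rw [sub_sub_cancel]
      exact add_comm _ _
    rw [this]
    exact t2

end Pool.Agent.Lib.MP_4e7804_co.Tl
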