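import Pool.Agent.Lib.MP_4e7804_co.Tl.Spec

/-!
# A common break is a tie
-/

set_option autoImplicit false

open Finset

namespace Pool.Agent.Lib.MP_4e7804_co.Tl

theorem tBrk (hMon : StmtMon) (hLab : StmtLab) (hSg : StmtSg) : StmtBrk := by
  intro b c h A B x o z₁ z₂ hC hD hb hc i hi j hj hEq
  obtain ⟨mu, mv, su, sv⟩ := hMon b h A B x o hC hD
  obtain ⟨s1, -, s2, -⟩ := hSg b c h A B x o hb hc
  obtain ⟨s1a, s1b, s1c⟩ := s1 z₁
  obtain ⟨s2a, s2b, s2c⟩ := s2 z₂
  refine ⟨?_, ?_⟩
  · by_cases h1 : i + 1 < b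
    · by_cases h2 : uu h A x i ≤ sg b h A x z₁
      · have ht : FF b h A x z₁ i = uu h A x i := by
          rw [FF, if_pos h1, min_eq_left h2]
        right
        refine ⟨i, h1, ht, ?_⟩
        rw [ht]
        obtain ⟨k, hk, hk'⟩ := s1c _ h2
        refine le_trans ?_ hk'
        exact (hLab (uu h A x) (fun k => pF b h A x k (uu h A x i)) (uu h A x i) mu
          (fun k => su k _)).1 b i hi (fun k hk => (mu hk).le) (fun k hk _ => mu.monotone hk) k hk
      · have ht : FF b h A x z₁ i = sg b h A x z₁ := by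
          rw [FF, if_pos h1, min_eq_right (not_le.1 h2).le]
        left
        rw [ht]
        exact ⟨s1a, s1b⟩
    · have ht : FF b h A x z₁ i = sg b h A x z₁ := by
        rw [FF, if_neg h1]
      left
      rw [ht]
      exact ⟨s1a, s1b⟩
  · rw [hEq]
    by_cases h1 : j = 0
    · have ht : GG c h B x o z₂ j = ta c h B x o z₂ := by
        rw [GG, if_pos h1]
      left
      rw [ht]
      exact ⟨s2a, s2b⟩
    · by_cases h2 : ta c h B x o z₂ ≤ vv h B x o (j - 1)
      · have ht : GG c h B x o z₂ j = vv h B x o (j - 1) := by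
          rw [GG, if_neg h1, max_eq_right h2]
        right
        refine ⟨j - 1, by omega, ht, ?_⟩
        rw [ht]
        obtain ⟨k, hk, hk'⟩ := s2c _ h2
        refine le_trans ?_ hk'
        exact (hLab (vv h B x o) (fun k => qG h B x o k (vv h B x o (j - 1))) (vv h B x o (j - 1))
          mv (fun k => sv k _)).1 c (j - 1) (by omega) (fun k hk => (mv hk).le)
          (fun k hk _ => mv.monotone hk) k hk
      · have ht : GG c h B x o z₂ j = ta c h B x o z₂ := by
          rw [GG, if_neg h1, max_eq_left (not_le.1 h2).le]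
        left
        rw [ht]
        exact ⟨s2a, s2b⟩

end Pool.Agent.Lib.MP_4e7804_co.Tl
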