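import Pool.Agent.Lib.MP_4e7804_co.Tl.Spec

/-!
# The number of data
-/

set_option autoImplicit false

open Finset

namespace Pool.Agent.Lib.MP_4e7804_co.Tl

namespace CardN

theorem hockey (b k : ℕ) : ∑ s ∈ range b, s.choose k = b.choose (k + 1) := by
  induction b with
  | zero => simp
  | succ b ih => rw [sum_range_succ, ih, Nat.choose_succ_succ, add_comm]

theorem hockey' (b k : ℕ) : ∑ s ∈ range b, (b - 1 - s).choose k = b.choose (k + 1) := by
  rw [← hockey]
  exact sum_range_reflect (fun s => s.choose k) b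

theorem card_k (s m k b' c' : ℕ) :
    (((powersetCard k (Ico s b')) ×ˢ (powersetCard k (range c'))).image
      fun q => ((s, m, q.1, q.2) : ℕ × ℕ × Finset ℕ × Finset ℕ)).card =
      (b' - s).choose k * c'.choose k := by
  rw [card_image_of_injective, card_product, card_powersetCard, card_powersetCard, Nat.card_Ico,
    card_range]
  rintro ⟨a, b⟩ ⟨a', b'⟩ h
  simp only [Prod.mk.injEq, true_and] at h
  exact Prod.ext h.1 h.2

theorem card_all (b c h : ℕ) :
    ((range b).biUnion fun s => (range c).biUnion fun m => (range (h + 1)).biUnion fun k =>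
    ((powersetCard k (Ico s (b - 1))) ×ˢ (powersetCard k (range (c - 1 - m)))).image
      fun q => ((s, m, q.1, q.2) : ℕ × ℕ × Finset ℕ × Finset ℕ)).card =
    ∑ s ∈ range b, ∑ m ∈ range c, ∑ k ∈ range (h + 1),
      (b - 1 - s).choose k * (c - 1 - m).choose k := by
  rw [card_biUnion]
  · refine sum_congr rfl fun s _ => ?_
    rw [card_biUnion]
    · refine sum_congr rfl fun m _ => ?_
      rw [card_biUnion]
      · exact sum_congr rfl fun k _ => card_k _ _ _ _ _
      · intro k _ k' _ hkk
        rw [Function.onFun, disjoint_left]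
        rintro ⟨a1, a2, a3, a4⟩ h1 h2
        simp only [mem_image, mem_product, mem_powersetCard, Prod.exists, Prod.mk.injEq] at h1 h2
        obtain ⟨I, J, ⟨⟨-, h3⟩, -⟩, -, -, rfl, -⟩ := h1
        obtain ⟨I', J', ⟨⟨-, h4⟩, -⟩, -, -, rfl, -⟩ := h2
        exact hkk (h3.symm.trans h4)
    · intro m _ m' _ hmm
      rw [Function.onFun, disjoint_left]
      rintro ⟨a1, a2, a3, a4⟩ h1 h2
      simp only [mem_biUnion, mem_image, Prod.exists, Prod.mk.injEq] at h1 h2
      obtain ⟨k, -, I, J, -, -, h3, -⟩ := h1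
      obtain ⟨k', -, I', J', -, -, h4, -⟩ := h2
      exact hmm (h3.trans h4.symm)
  · intro s _ s' _ hss
    rw [Function.onFun, disjoint_left]
    rintro ⟨a1, a2, a3, a4⟩ h1 h2
    simp only [mem_biUnion, mem_image, Prod.exists, Prod.mk.injEq] at h1 h2
    obtain ⟨m, -, k, -, I, J, -, h3, -⟩ := h1
    obtain ⟨m', -, k', -, I', J', -, h4, -⟩ := h2
    exact hss (h3.trans h4.symm)

end CardN

open CardN in
theorem tCard : StmtCard := by
  intro b c h
  rw [data, card_insertNone, card_all, sum_range_succ' _ (h + 1), Nat.choose_zero_right,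
    Nat.choose_zero_right, mul_one]
  congr 1
  have h1 : ∀ s, ∑ m ∈ range c, ∑ k ∈ range (h + 1),
      (b - 1 - s).choose k * (c - 1 - m).choose k =
      ∑ k ∈ range (h + 1), (b - 1 - s).choose k * c.choose (k + 1) := by
    intro s
    rw [sum_comm]
    refine sum_congr rfl fun k _ => ?_
    rw [← mul_sum, hockey']
  simp only [h1]
  rw [sum_comm]
  refine sum_congr rfl fun k _ => ?_
  rw [← sum_mul, hockey']

end Pool.Agent.Lib.MP_4e7804_co.Tl
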