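import Pool.Agent.Lib.MP_4e7804_co.Tl.Spec

/-!
# Ties are in the tropical hypersurface
-/

set_option autoImplicit false

open Filter Topology

namespace Pool.Agent.Lib.MP_4e7804_co.Tl

namespace ClosN

theorem closed_trp {n : ℕ} (M : Finset (Fin n → ℝ)) : IsClosed (trp M) := by
  have h : trp M = ⋂ a ∈ M, ⋃ b ∈ (M : Set (Fin n → ℝ)),
      {z : Fin n → ℝ | b ≠ a ∧ b ⬝ᵥ z ≤ a ⬝ᵥ z} := by
    ext z
    constructor
    · intro hz
      refine Set.mem_iInter₂.2 fun a ha => ?_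
      obtain ⟨b, hb, hba⟩ := hz a ha
      exact Set.mem_iUnion₂.2 ⟨b, hb, hba⟩
    · intro hz a ha
      obtain ⟨b, hb, hba⟩ := Set.mem_iUnion₂.1 (Set.mem_iInter₂.1 hz a ha)
      exact ⟨b, hb, hba⟩
  rw [h]
  refine isClosed_biInter fun a _ => ?_
  refine M.finite_toSet.isClosed_biUnion fun b _ => ?_
  have hc : ∀ b : Fin n → ℝ, Continuous fun z : Fin n → ℝ => b ⬝ᵥ z := by
    intro b
    unfold dotProduct
    fun_prop
  by_cases hba : b ≠ a
  · have h2 : {z : Fin n → ℝ | b ≠ a ∧ b ⬝ᵥ z ≤ a ⬝ᵥ z} = {z | b ⬝ᵥ z ≤ a ⬝ᵥ z} := by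
      ext z
      simp [hba]
    rw [h2]
    exact isClosed_le (hc b) (hc a)
  · have h2 : {z : Fin n → ℝ | b ≠ a ∧ b ⬝ᵥ z ≤ a ⬝ᵥ z} = ∅ := by
      ext z
      simp [hba]
    rw [h2]
    exact isClosed_empty

end ClosN

theorem tClos (hNice : StmtNice) (hApx : StmtApx) (hDot : StmtDot) : StmtClos := by
  intro b c h A B hC hb hc cf F hcf hF z hz ht
  obtain ⟨t, ht⟩ := ht
  obtain ⟨xn, on, tn, z₁n, z₂n, hdom, hnice, hx, ho, h1, h2⟩ := hApx b c h A B hC hb hc (xz h z)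
    (oz h z) (z (Fin.last _)) (z 0) t hz ht
  have hmem : ∀ n, pnt h (fun r => (xn n r : ℝ)) (on n) (z₁n n) (z₂n n) ∈ trp (Mx F) := fun n =>
    hNice b c h A B hC hb hc cf F hcf hF (xn n) (on n) (tn n) (z₁n n) (z₂n n) (hdom n) (hnice n)
  have he := (hDot b h A B).2.2 z
  suffices hlim : Tendsto (fun n => pnt h (fun r => (xn n r : ℝ)) (on n) (z₁n n) (z₂n n)) atTop
      (𝓝 (pnt h (xz h z) (oz h z) (z (Fin.last _)) (z 0))) by
    rw [he] at hlim
    exact (ClosN.closed_trp (Mx F)).mem_of_tendsto hlim (Eventually.of_forall hmem)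
  rw [tendsto_pi_nhds]
  intro k
  unfold pnt
  by_cases hk0 : k.val = 0
  · rw [if_pos hk0]
    refine h2.congr fun n => ?_
    rw [if_pos hk0]
  · rw [if_neg hk0]
    by_cases hk1 : k.val ≤ h
    · rw [if_pos hk1]
      refine (hx (k.val - 1) (by omega)).congr fun n => ?_
      rw [if_neg hk0, if_pos hk1]
    · rw [if_neg hk1]
      by_cases hk2 : k.val = h + 1
      · rw [if_pos hk2]
        refine ho.congr fun n => ?_
        rw [if_neg hk0, if_neg hk1, if_pos hk2]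
      · rw [if_neg hk2]
        refine h1.congr fun n => ?_
        rw [if_neg hk0, if_neg hk1, if_neg hk2]

end Pool.Agent.Lib.MP_4e7804_co.Tl
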