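import Pool.Agent.Lib.MP_4e7804_co.Tl.Spec

/-!
# Tl/Cont: continuity in the weight
-/

set_option autoImplicit false

open Filter Topology Finset

namespace Pool.Agent.Lib.MP_4e7804_co.Tl

namespace ContN

lemma cont_xz (h r : ℕ) : Continuous fun z : Fin (h + 2 + 1) → ℝ => xz h z r := by
  unfold xz
  by_cases hr : r < h
  · simp only [dif_pos hr]
    exact continuous_apply _
  · simp only [dif_neg hr]
    exact continuous_const

lemma cont_oz (h : ℕ) : Continuous fun z : Fin (h + 2 + 1) → ℝ => oz h z := by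
  unfold oz
  exact continuous_apply _

lemma cont_uu (h : ℕ) (A : ℕ → ℕ → ℤ) (i : ℕ) :
    Continuous fun z : Fin (h + 2 + 1) → ℝ => uu h A (xz h z) i := by
  unfold uu
  exact continuous_finsetSum _ fun r _ => continuous_const.mul (cont_xz h r)

lemma cont_vv (h : ℕ) (B : ℕ → ℕ → ℤ) (j : ℕ) :
    Continuous fun z : Fin (h + 2 + 1) → ℝ => vv h B (xz h z) (oz h z) j := by
  unfold vv
  exact (cont_oz h).add (continuous_finsetSum _ fun r _ => continuous_const.mul (cont_xz h r))

lemma cont_sg (b h : ℕ) (A : ℕ → ℕ → ℤ) :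
    Continuous fun z : Fin (h + 2 + 1) → ℝ => sg b h A (xz h z) (z (Fin.last _)) := by
  unfold sg
  by_cases hb : (range b).Nonempty
  · simp only [dif_pos hb]
    apply Continuous.finset_sup'_apply
    intro i _
    exact ((continuous_apply _).sub (continuous_finsetSum _ fun k _ => cont_uu h A k)).div_const _
  · simp only [dif_neg hb]
    exact continuous_const

lemma cont_ta (c h : ℕ) (B : ℕ → ℕ → ℤ) :
    Continuous fun z : Fin (h + 2 + 1) → ℝ => ta c h B (xz h z) (oz h z) (z 0) := by
  unfold ta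
  by_cases hc : (range c).Nonempty
  · simp only [dif_pos hc]
    apply Continuous.finset_inf'_apply
    intro i _
    exact ((continuous_finsetSum _ fun k _ => cont_vv h B k).sub (continuous_apply _)).div_const _
  · simp only [dif_neg hc]
    exact continuous_const

lemma cont_FF (b h : ℕ) (A : ℕ → ℕ → ℤ) (i : ℕ) :
    Continuous fun z : Fin (h + 2 + 1) → ℝ => FF b h A (xz h z) (z (Fin.last _)) i := by
  unfold FF
  by_cases hi : i + 1 < b
  · simp only [if_pos hi]
    exact (cont_uu h A i).min (cont_sg b h A)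
  · simp only [if_neg hi]
    exact cont_sg b h A

lemma cont_GG (c h : ℕ) (B : ℕ → ℕ → ℤ) (j : ℕ) :
    Continuous fun z : Fin (h + 2 + 1) → ℝ => GG c h B (xz h z) (oz h z) (z 0) j := by
  unfold GG
  by_cases hj : j = 0
  · simp only [if_pos hj]
    exact cont_ta c h B
  · simp only [if_neg hj]
    exact (cont_ta c h B).max (cont_vv h B (j - 1))

lemma open_Dp (h : ℕ) : IsOpen (Dp h) := by
  have h1 : Dp h = ⋂ r ∈ range h, {z | 0 < xz h z r} := by
    ext z
    simp [Dp]
  rw [h1]
  exact isOpen_biInter_finset fun r _ => isOpen_lt continuous_const (cont_xz h r)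

lemma xz_comb (h : ℕ) (s t : ℝ) (z z' : Fin (h + 2 + 1) → ℝ) (r : ℕ) :
    xz h (s • z + t • z') r = s * xz h z r + t * xz h z' r := by
  unfold xz
  by_cases hr : r < h
  · simp only [dif_pos hr, Pi.add_apply, Pi.smul_apply, smul_eq_mul]
  · simp only [dif_neg hr, mul_zero, add_zero]

lemma convex_Dp (h : ℕ) : Convex ℝ (Dp h) := by
  intro z hz z' hz' s t hs ht hst r hr
  rw [xz_comb]
  have h1 := hz r hr
  have h2 := hz' r hr
  rcases hs.eq_or_lt with h0 | h0
  · have : t = 1 := by linarith
    rw [← h0, this]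
    simpa using h2
  · have h3 : 0 < s * xz h z r := mul_pos h0 h1
    have h4 : 0 ≤ t * xz h z' r := mul_nonneg ht h2.le
    linarith

lemma open_UU (b c h : ℕ) (A B : ℕ → ℕ → ℤ) (D : Option (ℕ × ℕ × Finset ℕ × Finset ℕ)) :
    IsOpen (UU b c h A B D) := by
  have h1 : UU b c h A B D = Dp h ∩ ⋂ i ∈ range b, ⋂ j ∈ range c,
      {z | (SRel b c D i j →
        FF b h A (xz h z) (z (Fin.last _)) i < GG c h B (xz h z) (oz h z) (z 0) j) ∧
      (¬ SRel b c D i j →
        GG c h B (xz h z) (oz h z) (z 0) j < FF b h A (xz h z) (z (Fin.last _)) i)} := by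
    ext z
    simp [UU]
  rw [h1]
  refine (open_Dp h).inter (isOpen_biInter_finset fun i _ => isOpen_biInter_finset fun j _ => ?_)
  by_cases hS : SRel b c D i j
  · simp only [hS, forall_const, not_true_eq_false, IsEmpty.forall_iff, and_true]
    exact isOpen_lt (cont_FF b h A i) (cont_GG c h B j)
  · simp only [hS, forall_const, not_false_eq_true, IsEmpty.forall_iff, true_and]
    exact isOpen_lt (cont_GG c h B j) (cont_FF b h A i)

end ContN

/-- **Cont** Continuity in the weight. -/
theorem tCont : StmtCont := by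
  intro b c h A B
  exact ⟨ContN.cont_FF b h A, ContN.cont_GG c h B, ContN.open_Dp h, ContN.convex_Dp h,
    ContN.open_UU b c h A B⟩

end Pool.Agent.Lib.MP_4e7804_co.Tl
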