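import Pool.Agent.Lib.MP_4e7804_co.Tl.Spec

/-! MP_4e7804_co, Tl/Dot: values of the vertices. -/

set_option autoImplicit false

open Finset

namespace Pool.Agent.Lib.MP_4e7804_co.Tl

namespace DotN

theorem split (h : ℕ) (f : Fin (h + 2) → ℚ) (g : ℕ → ℚ) (a b : ℚ)
    (h1 : ∀ l : Fin (h + 2), l.val < h → f l = g l.val) (h2 : f ⟨h, by omega⟩ = a)
    (h3 : f (Fin.last (h + 1)) = b) : ∑ l, f l = ∑ r ∈ range h, g r + a + b := by
  rw [Fin.sum_univ_castSucc, Fin.sum_univ_castSucc, h3]
  congr 1
  have e1 : f (Fin.castSucc (Fin.last h)) = a := h2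
  rw [e1]
  congr 1
  rw [← Fin.sum_univ_eq_sum_range]
  apply sum_congr rfl
  intro l _
  exact h1 _ l.isLt

theorem comm (h : ℕ) (A : ℕ → ℕ → ℤ) (x : ℕ → ℝ) (i : ℕ) :
    ∑ k ∈ range i, ∑ r ∈ range h, (A r k : ℝ) * x r =
      ∑ r ∈ range h, x r * ∑ k ∈ range i, (A r k : ℝ) := by
  rw [sum_comm]
  apply sum_congr rfl
  intro r _
  rw [mul_sum]
  apply sum_congr rfl
  intro k _
  ring

end DotN

open DotN in
theorem tDot : StmtDot := by
  intro b h A B
  refine ⟨?_, ?_, ?_⟩
  · intro x o t i
    have h1 : dot (ww h x o t) (pp b h A i) =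
        ∑ r ∈ range h, x r * (∑ k ∈ range i, (A r k : ℚ)) + 0 + t * ((b : ℚ) - i) := by
      unfold dot
      apply split
      · intro l hl
        simp only [ww, pp, if_pos hl]
        push_cast
        rfl
      · simp [ww, pp]
      · simp [ww, pp]
    rw [h1]
    unfold pF uu
    rw [comm]
    push_cast
    ring
  · intro x o t j
    have h1 : dot (ww h x o t) (qq h B j) =
        ∑ r ∈ range h, x r * (∑ k ∈ range j, (B r k : ℚ)) + o * j + t * (-((j : ℚ) + 1)) := by
      unfold dot
      apply split
      · intro l hl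
        simp only [ww, qq, if_pos hl]
        push_cast
        rfl
      · simp [ww, qq]
      · simp [ww, qq]
    rw [h1]
    unfold qG vv
    rw [sum_add_distrib, comm]
    simp only [sum_const, card_range, nsmul_eq_mul]
    push_cast
    ring
  · intro z
    funext k
    unfold pnt
    split_ifs with h1 h2 h3
    · congr 1
      exact Fin.ext h1.symm
    · unfold xz
      rw [dif_pos (by omega)]
      congr 1
      apply Fin.ext
      simp only
      omega
    · unfold oz
      congr 1
      apply Fin.ext
      simp only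
      omega
    · congr 1
      apply Fin.ext
      simp only [Fin.val_last]
      have := k.isLt
      omega

end Pool.Agent.Lib.MP_4e7804_co.Tl
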