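import Pool.Agent.Lib.MP_4e7804_co.Tl.Spec
import Pool.Agent.Lib.MP_4e7804_co.Lo.Implicit
import Pool.Agent.Lib.MP_4e7804_co.Lo.Indep
import Pool.Agent.Lib.MP_4e7804_co.Lo.Hull

/-! MP_4e7804_co, module Tl/ExF: existence of the implicit equation. -/

set_option autoImplicit false

open Finset

namespace Pool.Agent.Lib.MP_4e7804_co.Tl.ExFN

/-- The point number `j`. -/
def pt (b h : ℕ) (A : ℕ → ℕ → ℤ) (j : Fin (h + 2)) : Fin (h + 2) → ℤ :=
  if j = Fin.last (h + 1) then pp b h A (b - 1) else Pi.single j 1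

lemma sets_succ (b c h : ℕ) (A B : ℕ → ℕ → ℤ) (j : Fin (h + 2)) :
    sets b c h A B j.succ = if j = Fin.last (h + 1) then setP b h A else {Pi.single j 1} := by
  unfold sets
  rw [Fin.cons_succ]

lemma pt_mem (b c h : ℕ) (hb : 1 ≤ b) (A B : ℕ → ℕ → ℤ) (j : Fin (h + 2)) :
    pt b h A j ∈ sets b c h A B j.succ := by
  rw [sets_succ, pt]
  split_ifs with hj
  · exact mem_image_of_mem _ (mem_range.2 (by omega))
  · exact mem_singleton_self _

lemma dot_pp (b h : ℕ) (A : ℕ → ℕ → ℤ) (i : ℕ) :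
    dot (ww h (fun _ => 0) 0 1) (pp b h A i) = (b : ℚ) - i := by
  unfold dot
  rw [Fin.sum_univ_castSucc]
  have h0 : ∑ l : Fin (h + 1), ww h (fun _ => 0) 0 1 l.castSucc * (pp b h A i l.castSucc : ℚ) = 0 := by
    refine sum_eq_zero (fun l _ => ?_)
    have : ww h (fun _ => 0) 0 1 l.castSucc = 0 := by
      unfold ww
      have hl := l.2
      simp only [Fin.val_castSucc]
      split_ifs with h1 h2
      · rfl
      · rfl
      · omega
    rw [this, zero_mul]
  rw [h0, zero_add]
  have h1 : ww h (fun _ => 0) 0 1 (Fin.last (h + 1)) = 1 := by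
    unfold ww
    simp
  have h2 : pp b h A i (Fin.last (h + 1)) = (b : ℤ) - i := by
    unfold pp
    simp
  rw [h1, h2]
  push_cast
  ring

lemma pt_min (b c h : ℕ) (hb : 1 ≤ b) (A B : ℕ → ℕ → ℤ) (j : Fin (h + 2)) :
    ∀ a' ∈ sets b c h A B j.succ, a' ≠ pt b h A j →
      dot (ww h (fun _ => 0) 0 1) (pt b h A j) < dot (ww h (fun _ => 0) 0 1) a' := by
  intro a' ha' hne
  rw [sets_succ] at ha'
  unfold pt at hne ⊢
  split_ifs at ha' hne ⊢ with hj
  · obtain ⟨i, hi, rfl⟩ := mem_image.1 ha'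
    rw [mem_range] at hi
    rw [dot_pp, dot_pp]
    have hi2 : i ≠ b - 1 := fun h' => hne (by rw [h'])
    have h3 : i < b - 1 := by omega
    have h4 : (i : ℚ) < ((b - 1 : ℕ) : ℚ) := by exact_mod_cast h3
    linarith
  · exact absurd (mem_singleton.1 ha') hne

lemma li (b h : ℕ) (hb : 1 ≤ b) (A : ℕ → ℕ → ℤ) :
    LinearIndependent ℝ (fun j => toReal (pt b h A j)) := by
  set M : Matrix (Fin (h + 2)) (Fin (h + 2)) ℝ := Matrix.of fun j l => toReal (pt b h A j) l with hM
  have hdet : M.det = 1 := by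
    rw [Matrix.det_of_lowerTriangular]
    · refine prod_eq_one (fun j _ => ?_)
      rw [hM, Matrix.of_apply]
      unfold toReal pt
      split_ifs with hj
      · subst hj
        unfold pp
        simp only [Fin.val_last]
        rw [if_neg (by omega), if_neg (by omega)]
        push_cast [Nat.cast_sub hb]
        ring
      · simp
    · intro j l hjl
      have hjl' : j < l := hjl
      rw [hM, Matrix.of_apply]
      unfold toReal pt
      have hj : j ≠ Fin.last (h + 1) := fun h' => by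
        rw [h'] at hjl'
        exact absurd (Fin.le_last l) (not_le.2 hjl')
      rw [if_neg hj, Pi.single_eq_of_ne (ne_of_gt hjl')]
      simp
  have h1 := Matrix.linearIndependent_rows_of_det_ne_zero (A := M) (by rw [hdet]; exact one_ne_zero)
  exact h1

end Pool.Agent.Lib.MP_4e7804_co.Tl.ExFN

open Pool.Agent.Lib.MP_4e7804_co Pool.Agent.Lib.MP_4e7804_co.Tl Pool.Agent.Lib.MP_4e7804_co.Tl.ExFN in
theorem Pool.Agent.Lib.MP_4e7804_co.Tl.tExF : StmtExF := by
  intro b c h A B _ hb _ cf hcf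
  have hfin : ∀ i, (latticePoints (conf b c h A B i)).Finite := fun i =>
    latticePoints_hull_finite (sets b c h A B i)
  refine exists_implicit (conf b c h A B) hfin cf fun G hG => ?_
  refine indep_of_min (conf b c h A B) hfin cf
    (Fin.cons 0 (fun j : Fin (h + 2) => pt b h A j)) (ww h (fun _ => 0) 0 1) Fin.succ ?_ ?_ ?_ ?_
    G hG
  · intro j
    rw [Fin.cons_succ]
    exact subset_latticePoints_hull (sets b c h A B j.succ) (pt_mem b c h hb A B j)
  · intro j
    rw [Fin.cons_succ]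
    exact hcf _ _ (pt_mem b c h hb A B j)
  · intro j p hp hpa
    rw [Fin.cons_succ] at hpa ⊢
    exact dot_lt_of_unique (sets b c h A B j.succ) _ _ (pt_mem b c h hb A B j)
      (pt_min b c h hb A B j) p hp hpa
  · simp only [Fin.cons_succ]
    exact li b h hb A
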