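import Pool.Agent.Lib.MP_4e7804_co.Tl.Spec

/-!
# The family with one column
-/

set_option autoImplicit false

open Finset

namespace Pool.Agent.Lib.MP_4e7804_co.Tl

namespace FamBN

/-- the columns of `P` -/
def Ab (c : ℕ) : ℕ → ℕ → ℤ := fun r i => if r = 0 then ((c : ℤ) + 1) * i else 0

/-- the columns of `Q` -/
def Bb : ℕ → ℕ → ℤ := fun r j => if r = 0 then (j : ℤ) else 0

/-- the weight -/
noncomputable def xb : ℕ → ℝ := fun r => if r = 0 then 1 else 0

theorem cols (c : ℕ) : Cols 1 (Ab c) Bb where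
  one_le := le_rfl
  A_mono r i := by
    unfold Ab
    by_cases hr : r = 0
    · rw [if_pos hr, if_pos hr]
      push_cast
      nlinarith
    · rw [if_neg hr, if_neg hr]
  B_mono r j := by
    unfold Bb
    by_cases hr : r = 0
    · rw [if_pos hr, if_pos hr]
      push_cast
      linarith
    · rw [if_neg hr, if_neg hr]
  A_zero i := by
    unfold Ab
    rw [if_pos rfl, if_pos rfl]
    push_cast
    nlinarith
  B_zero j := by
    unfold Bb
    rw [if_pos rfl, if_pos rfl]
    push_cast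
    linarith

theorem dom : Dom xb := by
  unfold Dom xb
  refine ⟨by norm_num, fun r => ?_⟩
  by_cases hr : r = 0
  · rw [if_pos hr]
    norm_num
  · rw [if_neg hr]

theorem uu_eq (c i : ℕ) : uu 1 (Ab c) xb i = ((c : ℝ) + 1) * i := by
  unfold uu Ab xb
  simp

theorem vv_eq (o : ℝ) (j : ℕ) : vv 1 Bb xb o j = o + j := by
  unfold vv Bb xb
  simp

theorem filt (i0 i : ℕ) : (({i0} : Finset ℕ).filter (· ≤ i)).card = if i0 ≤ i then 1 else 0 := by
  rw [Finset.filter_singleton]
  by_cases h : i0 ≤ i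
  · rw [if_pos h, if_pos h, Finset.card_singleton]
  · rw [if_neg h, if_neg h, Finset.card_empty]

theorem rel_iff (i0 j0 i j : ℕ) : Rel {i0} {j0} i j ↔ (i < i0 ∨ (i = i0 ∧ j0 < j)) := by
  unfold Rel
  rw [filt, filt]
  by_cases h1 : i0 ≤ i <;> by_cases h2 : j0 ≤ j <;>
    simp only [h1, h2, if_true, if_false, Finset.mem_singleton] <;>
    norm_num <;> omega

end FamBN

open FamBN in
theorem tFamB : StmtFamB := by
  intro b c
  refine ⟨Ab c, Bb, cols c, ?_⟩
  intro I hI J hJ hIJ hcard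
  have hc0 : (0 : ℝ) ≤ c := Nat.cast_nonneg c
  rcases Nat.lt_or_ge 0 I.card with h1 | h1
  · have hI1 : I.card = 1 := le_antisymm hcard h1
    have hJ1 : J.card = 1 := by rw [← hIJ, hI1]
    obtain ⟨i0, rfl⟩ := Finset.card_eq_one.1 hI1
    obtain ⟨j0, rfl⟩ := Finset.card_eq_one.1 hJ1
    have hj0 : j0 + 1 < c := by
      have := Finset.mem_range.1 (hJ (Finset.mem_singleton_self j0))
      omega
    have hj0' : (j0 : ℝ) + 1 < c := by exact_mod_cast hj0
    refine ⟨xb, ((c : ℝ) + 1) * i0 - j0 - 1 / 2, dom, fun i _ j hj => ?_⟩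
    have hj1 : j + 1 < c := by omega
    have hj' : (j : ℝ) + 1 < c := by exact_mod_cast hj1
    have hjn : (0 : ℝ) ≤ j := Nat.cast_nonneg j
    have hj0n : (0 : ℝ) ≤ j0 := Nat.cast_nonneg j0
    rw [rel_iff, uu_eq, vv_eq]
    constructor
    · rintro (h2 | ⟨rfl, h2⟩)
      · have h3 : (i : ℝ) + 1 ≤ i0 := by exact_mod_cast h2
        nlinarith
      · have h3 : (j0 : ℝ) + 1 ≤ j := by exact_mod_cast h2
        linarith
    · intro h2
      rw [not_or, not_lt] at h2
      rcases Nat.lt_or_ge i0 i with h4 | h4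
      · have h3 : (i0 : ℝ) + 1 ≤ i := by exact_mod_cast h4
        nlinarith
      · have h5 : i = i0 := le_antisymm h4 h2.1
        subst h5
        have h6 : j ≤ j0 := by
          by_contra h7
          exact h2.2 ⟨rfl, not_le.1 h7⟩
        have h3 : (j : ℝ) ≤ j0 := by exact_mod_cast h6
        linarith
  · have hI0 : I = ∅ := Finset.card_eq_zero.1 (by omega)
    have hJ0 : J = ∅ := Finset.card_eq_zero.1 (by omega)
    subst hI0 hJ0
    refine ⟨xb, ((c : ℝ) + 1) * b + 1, dom, fun i hi j hj => ?_⟩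
    have hrel : Rel ∅ ∅ i j := by
      unfold Rel
      simp
    have hi1 : i < b := by omega
    have hi' : (i : ℝ) ≤ b := by exact_mod_cast hi1.le
    have hjn : (0 : ℝ) ≤ j := Nat.cast_nonneg j
    rw [uu_eq, vv_eq]
    refine ⟨fun _ => ?_, fun h2 => absurd hrel h2⟩
    nlinarith

end Pool.Agent.Lib.MP_4e7804_co.Tl
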