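import Pool.Agent.Lib.MP_4e7804_co.Tl.Spec

/-! MP_4e7804_co, Tl/FamS: one more column. -/

set_option autoImplicit false

open Filter Topology Finset

namespace Pool.Agent.Lib.MP_4e7804_co.Tl

namespace FamSN

/-- the moved amounts -/
noncomputable def g (ρ : ℝ) (i₀ : ℕ) (K : ℕ) (i : ℕ) : ℝ := (K : ℝ) ^ i * (ρ / (K : ℝ) ^ i₀)

theorem g_eq (ρ : ℝ) (i₀ K : ℕ) (hK : 1 ≤ K) : g ρ i₀ K i₀ = ρ := by
  have : (K : ℝ) ^ i₀ ≠ 0 := by positivity
  unfold g
  field_simp

theorem g_zero (ρ : ℝ) (i₀ i : ℕ) (h : i < i₀) :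
    Tendsto (fun K : ℕ => g ρ i₀ K i) atTop (𝓝 0) := by
  obtain ⟨m, rfl⟩ : ∃ m, i₀ = i + (m + 1) := ⟨i₀ - i - 1, by omega⟩
  have h1 : Tendsto (fun K : ℕ => ρ / (K : ℝ) ^ (m + 1)) atTop (𝓝 0) := by
    apply Tendsto.div_atTop tendsto_const_nhds
    exact (tendsto_pow_atTop (by omega)).comp tendsto_natCast_atTop_atTop
  refine h1.congr' ?_
  filter_upwards [eventually_ge_atTop 1] with K hK
  have : (K : ℝ) ≠ 0 := by positivity
  unfold g
  field_simp
  ring

theorem g_top (ρ : ℝ) (hρ : 0 < ρ) (i₀ i : ℕ) (h : i₀ < i) :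
    Tendsto (fun K : ℕ => g ρ i₀ K i) atTop atTop := by
  obtain ⟨m, rfl⟩ : ∃ m, i = i₀ + (m + 1) := ⟨i - i₀ - 1, by omega⟩
  have h1 : Tendsto (fun K : ℕ => (K : ℝ) ^ (m + 1) * ρ) atTop atTop := by
    apply Tendsto.atTop_mul_const hρ
    exact (tendsto_pow_atTop (by omega)).comp tendsto_natCast_atTop_atTop
  refine h1.congr' ?_
  filter_upwards [eventually_ge_atTop 1] with K hK
  have : (K : ℝ) ≠ 0 := by positivity
  unfold g
  field_simp
  ring

/-- the new columns of `P` -/
def nA (h : ℕ) (A : ℕ → ℕ → ℤ) (K : ℕ) : ℕ → ℕ → ℤ :=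
  Function.update A h (fun i => if Even h then (K : ℤ) ^ i else 0)

/-- the new columns of `Q` -/
def nB (h : ℕ) (B : ℕ → ℕ → ℤ) (K : ℕ) : ℕ → ℕ → ℤ :=
  Function.update B h (fun i => if Even h then 0 else (K : ℤ) ^ i)

theorem cols (h : ℕ) (A B : ℕ → ℕ → ℤ) (hc : Cols h A B) (K : ℕ) (hK : 1 ≤ K) :
    Cols (h + 1) (nA h A K) (nB h B K) := by
  have hK' : (1 : ℤ) ≤ K := by exact_mod_cast hK
  have h0 : (0 : ℕ) ≠ h := by
    have := hc.one_le
    omega
  refine ⟨by omega, ?_, ?_, ?_, ?_⟩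
  · intro r i
    unfold nA
    by_cases hr : r = h
    · subst hr
      simp only [Function.update_self]
      split_ifs
      · exact pow_le_pow_right₀ hK' (by omega)
      · exact le_refl _
    · rw [Function.update_of_ne hr]
      exact hc.A_mono r i
  · intro r i
    unfold nB
    by_cases hr : r = h
    · subst hr
      simp only [Function.update_self]
      split_ifs
      · exact le_refl _
      · exact pow_le_pow_right₀ hK' (by omega)
    · rw [Function.update_of_ne hr]
      exact hc.B_mono r i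
  · intro i
    unfold nA
    rw [Function.update_of_ne h0]
    exact hc.A_zero i
  · intro i
    unfold nB
    rw [Function.update_of_ne h0]
    exact hc.B_zero i

theorem uu_new (h : ℕ) (A : ℕ → ℕ → ℤ) (K : ℕ) (x : ℕ → ℝ) (ξ : ℝ) (i : ℕ) :
    uu (h + 1) (nA h A K) (Function.update x h ξ) i =
      uu h A x i + if Even h then (K : ℝ) ^ i * ξ else 0 := by
  unfold uu
  rw [sum_range_succ]
  congr 1
  · apply sum_congr rfl
    intro r hr
    have hr' : r ≠ h := by
      have := mem_range.1 hr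
      omega
    unfold nA
    rw [Function.update_of_ne hr', Function.update_of_ne hr']
  · unfold nA
    rw [Function.update_self, Function.update_self]
    split_ifs <;> push_cast <;> ring

theorem vv_new (h : ℕ) (B : ℕ → ℕ → ℤ) (K : ℕ) (x : ℕ → ℝ) (ξ o : ℝ) (i : ℕ) :
    vv (h + 1) (nB h B K) (Function.update x h ξ) o i =
      vv h B x o i + if Even h then 0 else (K : ℝ) ^ i * ξ := by
  unfold vv
  rw [sum_range_succ, ← add_assoc]
  congr 1
  · congr 1
    apply sum_congr rfl
    intro r hr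
    have hr' : r ≠ h := by
      have := mem_range.1 hr
      omega
    unfold nB
    rw [Function.update_of_ne hr', Function.update_of_ne hr']
  · unfold nB
    rw [Function.update_self, Function.update_self]
    split_ifs <;> push_cast <;> ring

theorem dom (x : ℕ → ℝ) (hx : Dom x) (h : ℕ) (hh : 1 ≤ h) (ξ : ℝ) (hξ : 0 ≤ ξ) :
    Dom (Function.update x h ξ) := by
  refine ⟨?_, ?_⟩
  · rw [Function.update_of_ne (by omega)]
    exact hx.1
  · intro r
    by_cases hr : r = h
    · subst hr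
      rw [Function.update_self]
      exact hξ
    · rw [Function.update_of_ne hr]
      exact hx.2 r

/-- the property for one chain -/
def Pr (b c h : ℕ) (A B : ℕ → ℕ → ℤ) (I J : Finset ℕ) : Prop :=
  ∃ (x : ℕ → ℝ) (o : ℝ), Dom x ∧ ∀ i < b - 1, ∀ j < c - 1,
      (Rel I J i j → uu h A x i < vv h B x o j) ∧ (¬ Rel I J i j → vv h B x o j < uu h A x i)

theorem low (b c h : ℕ) (A B : ℕ → ℕ → ℤ) (hc : Cols h A B) (K : ℕ)
    (I J : Finset ℕ) (hP : Pr b c h A B I J) : Pr b c (h + 1) (nA h A K) (nB h B K) I J := by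
  obtain ⟨x, o, hx, h1⟩ := hP
  refine ⟨Function.update x h 0, o, dom x hx h hc.one_le 0 le_rfl, ?_⟩
  intro i hi j hj
  rw [uu_new, vv_new]
  simp only [mul_zero, ite_self, add_zero]
  exact h1 i hi j hj

theorem split (I : Finset ℕ) (k : ℕ) (hI : I.card = k + 1) :
    ∃ (i₀ : ℕ) (I₀ : Finset ℕ), I = insert i₀ I₀ ∧ I₀.card = k ∧ ∀ i ∈ I₀, i < i₀ := by
  have hne : I.Nonempty := card_pos.1 (by omega)
  refine ⟨I.max' hne, I.erase (I.max' hne), ?_, ?_, ?_⟩
  · rw [insert_erase (I.max'_mem hne)]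
  · rw [card_erase_of_mem (I.max'_mem hne)]
    omega
  · intro i hi
    exact I.lt_max'_of_mem_erase_max' hne hi

theorem high (hMon : StmtMon) (hRelE : StmtRelE) (b c h : ℕ) (A B : ℕ → ℕ → ℤ) (hc : Cols h A B)
    (hreal : Real b c h A B) (I J : Finset ℕ) (hI : I ⊆ range (b - 1)) (hJ : J ⊆ range (c - 1))
    (hIc : I.card = h + 1) (hJc : J.card = h + 1) :
    ∀ᶠ K : ℕ in atTop, Pr b c (h + 1) (nA h A K) (nB h B K) I J := by
  obtain ⟨i₀, I₀, rfl, hI0, hIl⟩ := split I h hIc
  obtain ⟨j₀, J₀, rfl, hJ0, hJl⟩ := split J h hJc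
  have hib : i₀ < b - 1 := mem_range.1 (hI (mem_insert_self _ _))
  have hjc : j₀ < c - 1 := mem_range.1 (hJ (mem_insert_self _ _))
  obtain ⟨x, o, hx, h1⟩ := hreal I₀ (fun y hy => hI (mem_insert_of_mem hy)) J₀
    (fun y hy => hJ (mem_insert_of_mem hy)) (by rw [hI0, hJ0]) (by rw [hI0])
  obtain ⟨m1, m2, -, -⟩ := hMon b h A B x o hc hx
  obtain ⟨e1, e2⟩ := hRelE I₀ J₀ i₀ j₀ (by rw [hI0, hJ0]) hIl hJl
  rw [hI0] at e1 e2
  by_cases hev : Even h
  · obtain ⟨r1, r2, r3, r4⟩ := e1 hev
    have hlt : uu h A x i₀ < vv h B x o j₀ := (h1 i₀ hib j₀ hjc).1 r1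
    have hlt2 : vv h B x o j₀ < vv h B x o (j₀ + 1) := m2 (Nat.lt_succ_self _)
    set ρ : ℝ := (vv h B x o j₀ + vv h B x o (j₀ + 1)) / 2 - uu h A x i₀ with hρdef
    have hρ : 0 < ρ := by rw [hρdef]; linarith
    have hall : ∀ᶠ K : ℕ in atTop, ∀ i ∈ range (b - 1), ∀ j ∈ range (c - 1),
        (Rel (insert i₀ I₀) (insert j₀ J₀) i j → uu h A x i + g ρ i₀ K i < vv h B x o j) ∧
        (¬ Rel (insert i₀ I₀) (insert j₀ J₀) i j → vv h B x o j < uu h A x i + g ρ i₀ K i) := by
      rw [eventually_all_finset]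
      intro i hi
      rw [eventually_all_finset]
      intro j hj
      rw [mem_range] at hi hj
      rcases lt_trichotomy i i₀ with hlti | rfl | hlti
      · have hlim : Tendsto (fun K : ℕ => uu h A x i + g ρ i₀ K i) atTop (𝓝 (uu h A x i)) := by
          simpa using (tendsto_const_nhds (x := uu h A x i)).add (g_zero ρ i₀ i hlti)
        by_cases hR : Rel I₀ J₀ i j
        · filter_upwards [hlim.eventually_lt_const ((h1 i hi j hj).1 hR)] with K hK
          exact ⟨fun _ => hK, fun hn => absurd ((r2 i j hlti).2 hR) hn⟩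
        · filter_upwards [hlim.eventually_const_lt ((h1 i hi j hj).2 hR)] with K hK
          exact ⟨fun hn => absurd ((r2 i j hlti).1 hn) hR, fun _ => hK⟩
      · filter_upwards [eventually_ge_atTop 1] with K hK
        rw [g_eq ρ i K hK, r3 j]
        constructor
        · intro hj2
          have : vv h B x o (j₀ + 1) ≤ vv h B x o j := m2.monotone hj2
          rw [hρdef]; linarith
        · intro hj2
          have : vv h B x o j ≤ vv h B x o j₀ := m2.monotone (by omega)
          rw [hρdef]; linarith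
      · have hlim : Tendsto (fun K : ℕ => uu h A x i + g ρ i₀ K i) atTop atTop :=
          tendsto_atTop_add_const_left _ _ (g_top ρ hρ i₀ i hlti)
        filter_upwards [hlim.eventually_gt_atTop (vv h B x o j)] with K hK
        exact ⟨fun hn => absurd hn (r4 i j hlti), fun _ => hK⟩
    filter_upwards [hall] with K hK
    refine ⟨Function.update x h (ρ / (K : ℝ) ^ i₀), o, dom x hx h hc.one_le _ (by positivity), ?_⟩
    intro i hi j hj
    rw [uu_new, vv_new, if_pos hev, if_pos hev, add_zero]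
    exact hK i (mem_range.2 hi) j (mem_range.2 hj)
  · obtain ⟨r1, r2, r3, r4⟩ := e2 hev
    have hlt : vv h B x o j₀ < uu h A x i₀ := (h1 i₀ hib j₀ hjc).2 r1
    have hlt2 : uu h A x i₀ < uu h A x (i₀ + 1) := m1 (Nat.lt_succ_self _)
    set ρ : ℝ := (uu h A x i₀ + uu h A x (i₀ + 1)) / 2 - vv h B x o j₀ with hρdef
    have hρ : 0 < ρ := by rw [hρdef]; linarith
    have hall : ∀ᶠ K : ℕ in atTop, ∀ i ∈ range (b - 1), ∀ j ∈ range (c - 1),
        (Rel (insert i₀ I₀) (insert j₀ J₀) i j → uu h A x i < vv h B x o j + g ρ j₀ K j) ∧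
        (¬ Rel (insert i₀ I₀) (insert j₀ J₀) i j → vv h B x o j + g ρ j₀ K j < uu h A x i) := by
      rw [eventually_all_finset]
      intro i hi
      rw [eventually_all_finset]
      intro j hj
      rw [mem_range] at hi hj
      rcases lt_trichotomy j j₀ with hlti | rfl | hlti
      · have hlim : Tendsto (fun K : ℕ => vv h B x o j + g ρ j₀ K j) atTop
            (𝓝 (vv h B x o j)) := by
          simpa using (tendsto_const_nhds (x := vv h B x o j)).add (g_zero ρ j₀ j hlti)
        by_cases hR : Rel I₀ J₀ i j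
        · filter_upwards [hlim.eventually_const_lt ((h1 i hi j hj).1 hR)] with K hK
          exact ⟨fun _ => hK, fun hn => absurd ((r2 i j hlti).2 hR) hn⟩
        · filter_upwards [hlim.eventually_lt_const ((h1 i hi j hj).2 hR)] with K hK
          exact ⟨fun hn => absurd ((r2 i j hlti).1 hn) hR, fun _ => hK⟩
      · filter_upwards [eventually_ge_atTop 1] with K hK
        rw [g_eq ρ j K hK, r3 i]
        constructor
        · intro hj2
          have : uu h A x i ≤ uu h A x i₀ := m1.monotone hj2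
          rw [hρdef]; linarith
        · intro hj2
          have : uu h A x (i₀ + 1) ≤ uu h A x i := m1.monotone (by omega)
          rw [hρdef]; linarith
      · have hlim : Tendsto (fun K : ℕ => vv h B x o j + g ρ j₀ K j) atTop atTop :=
          tendsto_atTop_add_const_left _ _ (g_top ρ hρ j₀ j hlti)
        filter_upwards [hlim.eventually_gt_atTop (uu h A x i)] with K hK
        exact ⟨fun _ => hK, fun hn => absurd (r4 i j hlti) hn⟩
    filter_upwards [hall] with K hK
    refine ⟨Function.update x h (ρ / (K : ℝ) ^ j₀), o, dom x hx h hc.one_le _ (by positivity), ?_⟩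
    intro i hi j hj
    rw [uu_new, vv_new, if_neg hev, if_neg hev, add_zero]
    exact hK i (mem_range.2 hi) j (mem_range.2 hj)

end FamSN

open FamSN in
theorem tFamS (hMon : StmtMon) (hRelE : StmtRelE) : StmtFamS := by
  intro b c h A B hc hreal
  have hev : ∀ᶠ K : ℕ in atTop, ∀ p ∈ (range (b - 1)).powerset ×ˢ (range (c - 1)).powerset,
      p.1.card = p.2.card → p.1.card = h + 1 →
        Pr b c (h + 1) (nA h A K) (nB h B K) p.1 p.2 := by
    rw [eventually_all_finset]
    intro p hp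
    rw [mem_product, mem_powerset, mem_powerset] at hp
    by_cases h1 : p.1.card = p.2.card ∧ p.1.card = h + 1
    · filter_upwards [high hMon hRelE b c h A B hc hreal p.1 p.2 hp.1 hp.2 h1.2
        (h1.1 ▸ h1.2)] with K hK
      exact fun _ _ => hK
    · exact Filter.Eventually.of_forall fun K h2 h3 => absurd ⟨h2, h3⟩ h1
  obtain ⟨K, hK, hK1⟩ := (hev.and (eventually_ge_atTop 1)).exists
  refine ⟨nA h A K, nB h B K, cols h A B hc K hK1, ?_⟩
  intro I hI J hJ hIJ hle
  rcases Nat.lt_or_ge h I.card with hlt | hge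
  · exact hK (I, J) (mem_product.2 ⟨mem_powerset.2 hI, mem_powerset.2 hJ⟩) hIJ
      (show I.card = h + 1 by omega)
  · exact low b c h A B hc K I J (hreal I hI J hJ hIJ hge)

end Pool.Agent.Lib.MP_4e7804_co.Tl
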