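import Pool.Agent.Lib.MP_4e7804_co.Tl.Spec

/-!
# Tl/Inj: the datum is determined by its relation
-/

set_option autoImplicit false

open Filter Topology Finset

namespace Pool.Agent.Lib.MP_4e7804_co.Tl

namespace InjN

lemma mem_data {b c h s m : ℕ} {I J : Finset ℕ} (hD : some (s, m, I, J) ∈ data b c h) :
    s < b ∧ m < c ∧ I ⊆ Ico s (b - 1) ∧ J ⊆ range (c - 1 - m) ∧ I.card = J.card := by
  unfold data at hD
  rw [Finset.some_mem_insertNone] at hD
  simp only [mem_biUnion, mem_range, mem_image, mem_product, mem_powersetCard, Prod.mk.injEq] at hD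
  obtain ⟨s', hs, m', hm, k, hk, q, ⟨⟨h1, h2⟩, h3, h4⟩, e1, e2, e3, e4⟩ := hD
  subst e1 e2 e3 e4
  exact ⟨hs, hm, h1, h3, by rw [h2, h4]⟩

lemma rel_zero {b c s m : ℕ} {I J : Finset ℕ} (hm : m < c) (i : ℕ) :
    SRel b c (some (s, m, I, J)) i 0 ↔ i < s := by
  change (i < s ∨ c - m ≤ 0 ∨ (i + 1 < b ∧ 1 ≤ 0 ∧ Rel I J i (0 - 1))) ↔ i < s
  constructor
  · rintro (h | h | h)
    · exact h
    · omega
    · omega
  · intro h
    exact Or.inl h

lemma rel_last {b c s m : ℕ} {I J : Finset ℕ} (hs : s < b) (j : ℕ) :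
    SRel b c (some (s, m, I, J)) (b - 1) j ↔ c - m ≤ j := by
  change (b - 1 < s ∨ c - m ≤ j ∨ (b - 1 + 1 < b ∧ 1 ≤ j ∧ Rel I J (b - 1) (j - 1))) ↔ c - m ≤ j
  constructor
  · rintro (h | h | h)
    · omega
    · exact h
    · omega
  · intro h
    exact Or.inr (Or.inl h)

lemma rel_mid {b c s m : ℕ} {I J : Finset ℕ} {i j : ℕ} (hi : s ≤ i) (hi' : i < b - 1)
    (hj : j < c - 1 - m) :
    SRel b c (some (s, m, I, J)) i (j + 1) ↔ Rel I J i j := by
  change (i < s ∨ c - m ≤ j + 1 ∨ (i + 1 < b ∧ 1 ≤ j + 1 ∧ Rel I J i (j + 1 - 1))) ↔ Rel I J i j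
  constructor
  · rintro (h | h | h)
    · omega
    · omega
    · exact h.2.2
  · intro h
    exact Or.inr (Or.inr ⟨by omega, by omega, h⟩)

lemma s_le {b s s' : ℕ} (hs : s < b) (h : ∀ i < b, (i < s ↔ i < s')) : s' ≤ s := by
  by_contra hlt
  have := (h s hs).2 (by omega)
  omega

lemma m_le {c m m' : ℕ} (hm' : m' < c) (h : ∀ j < c, (c - m ≤ j ↔ c - m' ≤ j)) :
    m' ≤ m := by
  by_contra hlt
  have := (h (c - m') (by omega)).2 le_rfl
  omega

end InjN

open InjN

/-- **Inj** the datum is determined by its relation. -/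
theorem tInj (hInjR : StmtInjR) : StmtInj := by
  intro b c h hb hc D hD D' hD' hrel
  have hnone : ∀ s m I J, some (s, m, I, J) ∈ data b c h →
      ¬ SRel b c (some (s, m, I, J)) (b - 1) 0 := by
    intro s m I J hd hr
    have h1 := mem_data hd
    rw [rel_zero h1.2.1] at hr
    omega
  rcases D with _ | ⟨s, m, I, J⟩ <;> rcases D' with _ | ⟨s', m', I', J'⟩
  · rfl
  · exact absurd ((hrel (b - 1) (by omega) 0 (by omega)).1 trivial) (hnone _ _ _ _ hD')
  · exact absurd ((hrel (b - 1) (by omega) 0 (by omega)).2 trivial) (hnone _ _ _ _ hD)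
  · obtain ⟨hs, hm, hI, hJ, hc1⟩ := mem_data hD
    obtain ⟨hs', hm', hI', hJ', hc2⟩ := mem_data hD'
    have h0 : ∀ i < b, (i < s ↔ i < s') := by
      intro i hi
      rw [← rel_zero (b := b) (I := I) (J := J) hm i, ← rel_zero (b := b) (I := I') (J := J') hm' i]
      exact hrel i hi 0 (by omega)
    have h1 : ∀ j < c, (c - m ≤ j ↔ c - m' ≤ j) := by
      intro j hj
      rw [← rel_last (c := c) (m := m) (I := I) (J := J) hs j,
        ← rel_last (c := c) (m := m') (I := I') (J := J') hs' j]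
      exact hrel (b - 1) (by omega) j hj
    have es : s = s' := le_antisymm (s_le hs' fun i hi => (h0 i hi).symm) (s_le hs h0)
    have em : m = m' := le_antisymm (m_le hm fun j hj => (h1 j hj).symm) (m_le hm' h1)
    subst es em
    have h2 := hInjR s (b - 1) (c - 1 - m) I J I' J' hI hI' hJ hJ' hc1 hc2 (by
      intro i hi hi' j hj
      rw [← rel_mid (b := b) (c := c) (m := m) (I := I) (J := J) hi hi' hj,
        ← rel_mid (b := b) (c := c) (m := m) (I := I') (J := J') hi hi' hj]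
      exact hrel i (by omega) (j + 1) (by omega))
    rw [h2.1, h2.2]

end Pool.Agent.Lib.MP_4e7804_co.Tl
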