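import Pool.Agent.Lib.MP_4e7804_co.Tl.Spec

/-!
# Tl/Lab: the minimal labels of a convex sequence
-/

set_option autoImplicit false

open Filter Topology Finset

namespace Pool.Agent.Lib.MP_4e7804_co.Tl

namespace LabN

variable {a φ : ℕ → ℝ} {t : ℝ}

lemma up (hφ : ∀ i, φ (i + 1) = φ i + (a i - t)) (i k : ℕ) (hik : i ≤ k)
    (h : ∀ l, i ≤ l → l < k → t ≤ a l) : φ i ≤ φ k := by
  induction k, hik using Nat.le_induction with
  | base => exact le_rfl
  | succ k hk ih =>
    have h1 := ih fun l h1 h2 => h l h1 (by omega)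
    have h2 := h k hk (by omega)
    rw [hφ k]
    linarith

lemma up_lt (hφ : ∀ i, φ (i + 1) = φ i + (a i - t)) (i k : ℕ) (hik : i < k)
    (h : ∀ l, i ≤ l → l < k → t < a l) : φ i < φ k := by
  have h1 : φ (i + 1) ≤ φ k := up hφ (i + 1) k hik fun l h1 h2 => (h l (by omega) h2).le
  have h2 := h i le_rfl hik
  rw [hφ i] at h1
  linarith

lemma down (hφ : ∀ i, φ (i + 1) = φ i + (a i - t)) (k i : ℕ) (hki : k ≤ i)
    (h : ∀ l, k ≤ l → l < i → a l ≤ t) : φ i ≤ φ k := by
  induction i, hki using Nat.le_induction with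
  | base => exact le_rfl
  | succ i hi ih =>
    have h1 := ih fun l h1 h2 => h l h1 (by omega)
    have h2 := h i hi (by omega)
    rw [hφ i]
    linarith

lemma down_lt (hφ : ∀ i, φ (i + 1) = φ i + (a i - t)) (k i : ℕ) (hki : k < i)
    (h : ∀ l, k ≤ l → l < i → a l < t) : φ i < φ k := by
  have h1 : φ i ≤ φ (k + 1) := down hφ (k + 1) i hki fun l h1 h2 => (h l (by omega) h2).le
  have h2 := h k le_rfl hki
  rw [hφ k] at h1
  linarith

lemma part2 (hφ : ∀ i, φ (i + 1) = φ i + (a i - t)) (n i : ℕ)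
    (h1 : ∀ k < i, a k < t) (h2 : ∀ k, i ≤ k → k + 1 < n → t < a k) (k : ℕ) (hk : k < n)
    (hki : k ≠ i) : φ i < φ k := by
  rcases lt_or_gt_of_ne hki with h | h
  · exact down_lt hφ k i h fun l _ h4 => h1 l h4
  · exact up_lt hφ i k h fun l h3 h4 => h2 l h3 (by omega)

end LabN

open LabN

/-- **Lab** The minimal labels of a sequence with `φ (i + 1) = φ i + (a i - t)`. -/
theorem tLab : StmtLab := by
  intro a φ t ha hφ
  refine ⟨?_, ?_, ?_, ?_⟩
  · intro n i hi h1 h2 k hk
    rcases le_total k i with h | h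
    · exact down hφ k i h fun l _ h4 => h1 l h4
    · exact up hφ i k h fun l h3 h4 => h2 l h3 (by omega)
  · intro n i hi h1 h2 k hk hki
    exact part2 hφ n i h1 h2 k hk hki
  · intro n i hi ht
    have h0 : φ (i + 1) = φ i := by
      rw [hφ i, ht]
      ring
    refine ⟨h0, ?_⟩
    intro k hk hki hki'
    rcases lt_or_gt_of_ne hki with h | h
    · apply down_lt hφ k i h
      intro l _ hl
      rw [ht]
      exact ha hl
    · rw [← h0]
      apply up_lt hφ (i + 1) k (by omega)
      intro l hl _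
      rw [ht]
      exact ha (by omega)
  · intro n hn h
    classical
    have hex : ∃ i, i + 1 = n ∨ t < a i := ⟨n - 1, Or.inl (by omega)⟩
    have hle : Nat.find hex ≤ n - 1 := Nat.find_le (Or.inl (by omega))
    refine ⟨Nat.find hex, by omega, ?_⟩
    intro k hk hki
    apply part2 hφ n (Nat.find hex) _ _ k hk hki
    · intro l hl
      have h1 := Nat.find_min hex hl
      push Not at h1
      rcases h1.2.lt_or_eq with h2 | h2
      · exact h2
      · exact absurd h2.symm (h l (by omega))
    · intro l hl hl'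
      rcases Nat.find_spec hex with h1 | h1
      · omega
      · exact lt_of_lt_of_le h1 (ha.monotone hl)

end Pool.Agent.Lib.MP_4e7804_co.Tl
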