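import Pool.Agent.Lib.MP_4e7804_co.Tl.Spec

/-! MP_4e7804_co, Tl/Lower: arbitrary positions of the two polytopes. -/

set_option autoImplicit false

open Finset

namespace Pool.Agent.Lib.MP_4e7804_co.Tl

theorem LowerN.perm {n : ℕ} (a b i j : Fin n) (hab : a ≠ b) (hij : i ≠ j) :
    ∃ σ : Equiv.Perm (Fin n), σ i = a ∧ σ j = b := by
  refine ⟨(Equiv.swap i a).trans (Equiv.swap ((Equiv.swap i a) j) b), ?_, ?_⟩
  · rw [Equiv.trans_apply, Equiv.swap_apply_left]
    apply Equiv.swap_apply_of_ne_of_ne
    · intro h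
      apply hij
      have h2 : Equiv.swap i a i = Equiv.swap i a j := by
        rw [Equiv.swap_apply_left]
        exact h
      exact (Equiv.swap i a).injective h2
    · exact hab
  · rw [Equiv.trans_apply, Equiv.swap_apply_left]

theorem tLower (hLow : StmtLow) (hPerm : StmtPerm) : StmtLower := by
  intro d v i₁ i₂ hd hi h1 h2 hv
  obtain ⟨h, rfl⟩ : ∃ h, d = h + 2 := ⟨d - 2, by omega⟩
  obtain ⟨N, hN, hle⟩ := hLow (v i₁) (v i₂) h (by omega) h1 h2
  obtain ⟨σ, hσ1, hσ2⟩ := LowerN.perm (Fin.last (h + 2)) (0 : Fin (h + 2 + 1)) i₁ i₂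
    (by
      intro h0
      have := congrArg Fin.val h0
      simp at this) hi
  refine ⟨N, ?_, hle⟩
  have h3 := hPerm (h + 2) (vec (v i₁) (v i₂) h) σ N hN
  have h4 : vec (v i₁) (v i₂) h ∘ σ = v := by
    funext l
    simp only [Function.comp_apply]
    by_cases hl1 : l = i₁
    · subst hl1
      rw [hσ1]
      have : Fin.last (h + 2) = Fin.succ (Fin.last (h + 1)) := rfl
      rw [this]
      simp [vec]
    · by_cases hl2 : l = i₂
      · subst hl2
        rw [hσ2]
        simp [vec]
      · rw [hv l hl1 hl2]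
        have hne1 : σ l ≠ Fin.last (h + 2) := by
          rw [← hσ1]
          exact fun h' => hl1 (σ.injective h')
        have hne2 : σ l ≠ 0 := by
          rw [← hσ2]
          exact fun h' => hl2 (σ.injective h')
        obtain ⟨j, hj⟩ := Fin.exists_succ_eq.2 hne2
        rw [← hj]
        have hj' : j ≠ Fin.last (h + 1) := by
          rintro rfl
          exact hne1 (by rw [← hj]; rfl)
        simp [vec, hj']
  rw [h4] at h3
  exact h3

end Pool.Agent.Lib.MP_4e7804_co.Tl
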