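import Pool.Agent.Lib.MP_4e7804_co.Tl.Spec

/-! MP_4e7804_co, Tl/Mon: monotonicity of the breaks. -/

set_option autoImplicit false

open Finset

namespace Pool.Agent.Lib.MP_4e7804_co.Tl

theorem MonN.step (h : ℕ) (A : ℕ → ℕ → ℤ) (x : ℕ → ℝ) (hh : 1 ≤ h) (hx : Dom x)
    (h1 : ∀ r i, A r i ≤ A r (i + 1)) (h2 : ∀ i, A 0 i < A 0 (i + 1)) (i : ℕ) :
    ∑ r ∈ range h, (A r i : ℝ) * x r < ∑ r ∈ range h, (A r (i + 1) : ℝ) * x r := by
  apply sum_lt_sum
  · intro r _
    exact mul_le_mul_of_nonneg_right (by exact_mod_cast h1 r i) (hx.2 r)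
  · exact ⟨0, mem_range.2 hh, mul_lt_mul_of_pos_right (by exact_mod_cast h2 i) hx.1⟩

theorem tMon : StmtMon := by
  intro b h A B x o hc hx
  refine ⟨strictMono_nat_of_lt_succ fun i => ?_, strictMono_nat_of_lt_succ fun i => ?_, ?_, ?_⟩
  · exact MonN.step h A x hc.one_le hx hc.A_mono hc.A_zero i
  · unfold vv
    have := MonN.step h B x hc.one_le hx hc.B_mono hc.B_zero i
    linarith
  · intro i t
    unfold pF
    rw [sum_range_succ]
    push_cast
    ring
  · intro j t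
    unfold qG
    rw [sum_range_succ]
    push_cast
    ring

end Pool.Agent.Lib.MP_4e7804_co.Tl
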