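import Pool.Agent.Lib.MP_4e7804_co.Tl.Spec
import Pool.Agent.Lib.MP_4e7804_co.Lo.Sheet
import Pool.Agent.Lib.MP_4e7804_co.Lo.Hull
import Pool.Agent.Lib.MP_4e7804_co.Lo.Implicit

/-! MP_4e7804_co: the weights in nice position are in the tropical hypersurface. -/

set_option autoImplicit false

open Finset

namespace Pool.Agent.Lib.MP_4e7804_co.Tl

namespace NiceN

private theorem edgeData {d : ℕ} (n : ℕ) (f : ℕ → Fin d → ℤ)
    (w : Fin d → ℚ) (φ : ℕ → ℝ)
    (hφ : ∀ i, ((dot w (f i) : ℚ) : ℝ) = φ i) (z : ℝ) (l : Fin d)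
    (hl : ∀ i, f (i + 1) l - f i l = -1)
    (hcase : (∃ i < n, z = φ i ∧ ∀ k < n, k ≠ i → φ i < φ k) ∨
      (∃ i, i + 1 < n ∧ φ (i + 1) = φ i ∧ (∀ k < n, k ≠ i → k ≠ i + 1 → φ i < φ k) ∧ φ i < z)) :
    ∃ (J : Prop) (i : ℕ), i < n ∧ (J → i + 1 < n) ∧
      (J → dot w (f (i + 1)) = dot w (f i) ∧ ((dot w (f i) : ℚ) : ℝ) < z) ∧
      (¬ J → z = ((dot w (f i) : ℚ) : ℝ)) ∧
      ∀ p ∈ latticePoints (convexHull ℝ (toReal '' (((range n).image f : Finset _) :
        Set (Fin d → ℤ)))), p ≠ f i → (J → p ≠ f (i + 1)) → dot w (f i) < dot w p := by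
  have hlt : ∀ i k, φ i < φ k → dot w (f i) < dot w (f k) := by
    intro i k h
    rw [← hφ i, ← hφ k] at h
    exact_mod_cast h
  rcases hcase with ⟨i, hi, hz, hk⟩ | ⟨i, hi, he, hk, hz⟩
  · refine ⟨False, i, hi, False.elim, False.elim, fun _ => ?_, ?_⟩
    · rw [hφ i]
      exact hz
    · intro p hp hpa _
      refine dot_lt_of_unique _ w (f i) (mem_image_of_mem _ (mem_range.2 hi)) ?_ p hp hpa
      intro a' ha' hne
      obtain ⟨k, hk', rfl⟩ := mem_image.1 ha'
      refine hlt _ _ (hk k (mem_range.1 hk') ?_)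
      rintro rfl
      exact hne rfl
  · refine ⟨True, i, by omega, fun _ => hi, fun _ => ⟨?_, ?_⟩, fun h => absurd trivial h, ?_⟩
    · have := he
      rw [← hφ i, ← hφ (i + 1)] at this
      exact_mod_cast this
    · rw [hφ i]
      exact hz
    · intro p hp hpa hpb
      have hab : dot w (f i) = dot w (f (i + 1)) := by
        have := he
        rw [← hφ i, ← hφ (i + 1)] at this
        exact_mod_cast this.symm
      refine dot_lt_of_edge _ w (f i) (f (i + 1)) (mem_image_of_mem _ (mem_range.2 (by omega)))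
        (mem_image_of_mem _ (mem_range.2 hi)) hab ?_ ?_ p hp hpa (hpb trivial)
      · intro a' ha' hne hne'
        obtain ⟨k, hk', rfl⟩ := mem_image.1 ha'
        refine hlt _ _ (hk k (mem_range.1 hk') ?_ ?_)
        · rintro rfl
          exact hne rfl
        · rintro rfl
          exact hne' rfl
      · intro θ hθ
        obtain ⟨z', hz'⟩ := hθ l
        refine ⟨-z', ?_⟩
        have h1 : ((f (i + 1) l : ℤ) : ℝ) - (f i l : ℝ) = -1 := by
          have := hl i
          exact_mod_cast this
        rw [h1] at hz'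
        push_cast
        linarith

private theorem sumFin {h : ℕ} (g : Fin (h + 2) → ℚ) (hg : ∀ k : Fin (h + 2), k.val < h → g k = 0) :
    ∑ k, g k = g ⟨h, by omega⟩ + g ⟨h + 1, by omega⟩ := by
  rw [Fin.sum_univ_castSucc, Fin.sum_univ_castSucc, Finset.sum_eq_zero, zero_add]
  · rfl
  · intro i _
    exact hg _ i.2

end NiceN

open NiceN in
theorem tNice (hMon : StmtMon) (hLab : StmtLab) (hDot : StmtDot) : StmtNice := by
  classical
  intro b c h A B hC hb hc cf F hcf hF x o t z₁ z₂ hx hN
  obtain ⟨hm1, hm2, hs1, hs2⟩ := hMon b h A B (fun r => (x r : ℝ)) o hC hx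
  obtain ⟨hd1, hd2, -⟩ := hDot b h A B
  obtain ⟨hNP, hNQ⟩ := hN
  have hP := edgeData b (pp b h A) (ww h x o t) (fun i => pF b h A (fun r => (x r : ℝ)) i t)
    (fun i => hd1 x o t i) z₁ ⟨h + 1, by omega⟩ (fun i => by
      simp only [pp]
      rw [if_neg (by omega), if_neg (by omega), if_neg (by omega), if_neg (by omega)]
      push_cast
      ring) (by
      rcases hNP with h' | ⟨i, hi, ht, hz⟩
      · exact Or.inl h'
      · obtain ⟨-, -, h3, -⟩ := hLab (uu h A fun r => (x r : ℝ))
          (fun i => pF b h A (fun r => (x r : ℝ)) i t) t hm1 (fun i => hs1 i t)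
        obtain ⟨h4, h5⟩ := h3 b i hi ht
        exact Or.inr ⟨i, hi, h4, h5, hz⟩)
  have hQ := edgeData c (qq h B) (ww h x o t) (fun j => qG h B (fun r => (x r : ℝ)) o j t)
    (fun j => hd2 x o t j) z₂ ⟨h + 1, by omega⟩ (fun i => by
      simp only [qq]
      rw [if_neg (by omega), if_neg (by omega), if_neg (by omega), if_neg (by omega)]
      push_cast
      ring) (by
      rcases hNQ with h' | ⟨i, hi, ht, hz⟩
      · exact Or.inl h'
      · obtain ⟨-, -, h3, -⟩ := hLab (vv h B (fun r => (x r : ℝ)) o)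
          (fun j => qG h B (fun r => (x r : ℝ)) o j t) t hm2 (fun j => hs2 j t)
        obtain ⟨h4, h5⟩ := h3 c i hi ht
        exact Or.inr ⟨i, hi, h4, h5, hz⟩)
  obtain ⟨JP, i, hi, hi1, hPJ, hPn, hPmin⟩ := hP
  obtain ⟨JQ, j, hj, hj1, hQJ, hQn, hQmin⟩ := hQ
  -- the data
  let a : Fin (h + 2 + 1) → Fin (h + 2) → ℤ := Fin.cons (qq h B j) fun l : Fin (h + 2) =>
    if l = Fin.last (h + 1) then pp b h A i else Pi.single l 1
  let bb : Fin (h + 2 + 1) → Fin (h + 2) → ℤ := Fin.cons (qq h B (j + 1)) fun l : Fin (h + 2) =>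
    if l = Fin.last (h + 1) then pp b h A (i + 1) else Pi.single l 1
  let J : Finset (Fin (h + 2 + 1)) := univ.filter fun l => (l = 0 ∧ JQ) ∨ (l = Fin.last _ ∧ JP)
  have hlast : Fin.last (h + 2) = Fin.succ (Fin.last (h + 1)) := rfl
  have a0 : a 0 = qq h B j := rfl
  have aL : a (Fin.last (h + 2)) = pp b h A i := by
    rw [hlast]
    simp [a]
  have aM : ∀ l : Fin (h + 2), l ≠ Fin.last (h + 1) → a l.succ = Pi.single l 1 := by
    intro l hl
    simp [a, hl]
  have b0 : bb 0 = qq h B (j + 1) := rfl
  have bL : bb (Fin.last (h + 2)) = pp b h A (i + 1) := by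
    rw [hlast]
    simp [bb]
  have s0 : sets b c h A B 0 = (range c).image (qq h B) := rfl
  have sL : sets b c h A B (Fin.last (h + 2)) = (range b).image (pp b h A) := by
    rw [hlast]
    simp [sets, setP]
  have sM : ∀ l : Fin (h + 2), l ≠ Fin.last (h + 1) →
      sets b c h A B l.succ = {Pi.single l 1} := by
    intro l hl
    simp [sets, hl]
  have hcase : ∀ P : Fin (h + 2 + 1) → Prop, P 0 → P (Fin.last _) →
      (∀ l : Fin (h + 2), l ≠ Fin.last (h + 1) → P l.succ) → ∀ l, P l := by
    intro P h0 hL hM l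
    refine Fin.cases h0 (fun l => ?_) l
    by_cases hl : l = Fin.last (h + 1)
    · rw [hl]
      exact hL
    · exact hM l hl
  have hJ0 : (0 : Fin (h + 2 + 1)) ∈ J ↔ JQ := by
    constructor
    · intro hm
      rcases (mem_filter.1 hm).2 with ⟨-, h'⟩ | ⟨h', -⟩
      · exact h'
      · exact absurd h' (by
          intro h''
          have := congrArg Fin.val h''
          simp at this)
    · intro h'
      exact mem_filter.2 ⟨mem_univ _, Or.inl ⟨rfl, h'⟩⟩
  have hJL : Fin.last (h + 2) ∈ J ↔ JP := by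
    constructor
    · intro hm
      rcases (mem_filter.1 hm).2 with ⟨h', -⟩ | ⟨-, h'⟩
      · exact absurd h' (by
          intro h''
          have := congrArg Fin.val h''
          simp at this)
      · exact h'
    · intro h'
      exact mem_filter.2 ⟨mem_univ _, Or.inr ⟨rfl, h'⟩⟩
  have hJM : ∀ l : Fin (h + 2), l ≠ Fin.last (h + 1) → l.succ ∉ J := by
    intro l hl hm
    rcases (mem_filter.1 hm).2 with ⟨h', -⟩ | ⟨h', -⟩
    · exact absurd h' (Fin.succ_ne_zero l)
    · rw [hlast] at h'
      exact hl (Fin.succ_injective _ h')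
  have has : ∀ l, a l ∈ sets b c h A B l := by
    refine hcase _ ?_ ?_ ?_
    · rw [a0, s0]
      exact mem_image_of_mem _ (mem_range.2 hj)
    · rw [aL, sL]
      exact mem_image_of_mem _ (mem_range.2 hi)
    · intro l hl
      rw [aM l hl, sM l hl]
      exact mem_singleton_self _
  have hbs : ∀ l ∈ J, bb l ∈ sets b c h A B l := by
    refine hcase _ ?_ ?_ ?_
    · intro hl
      rw [b0, s0]
      exact mem_image_of_mem _ (mem_range.2 (hj1 (hJ0.1 hl)))
    · intro hl
      rw [bL, sL]
      exact mem_image_of_mem _ (mem_range.2 (hi1 (hJL.1 hl)))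
    · intro l hl hl'
      exact absurd hl' (hJM l hl)
  have y0 : pnt h (fun r => (x r : ℝ)) o z₁ z₂ 0 = z₂ := rfl
  have yL : pnt h (fun r => (x r : ℝ)) o z₁ z₂ (Fin.last (h + 2)) = z₁ := by
    simp only [pnt, Fin.val_last]
    rw [if_neg (by omega), if_neg (by omega), if_neg (by omega)]
  have key : ∀ α ∈ F.support, ∃ β ∈ F.support, β ≠ α ∧
      ∑ l, (β l : ℝ) * pnt h (fun r => (x r : ℝ)) o z₁ z₂ l ≤
        ∑ l, (α l : ℝ) * pnt h (fun r => (x r : ℝ)) o z₁ z₂ l := by
    intro α hα
    refine sheet_tie (conf b c h A B) (fun l => latticePoints_hull_finite _) cf F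
      (fun t => hF.eval_eq_zero t) (ww h x o t) (fun l => dot (ww h x o t) (a l)) J a bb
      (fun l => subset_latticePoints_hull _ (has l)) (fun l => rfl) (fun l => hcf l _ (has l))
      (fun l hl => subset_latticePoints_hull _ (hbs l hl)) ?_ (fun l hl => hcf l _ (hbs l hl)) ?_
      (fun l k => if l = 0 then (if k.val = h then 1 else 0) else
        (if k.val = h then -1 else if k.val = h + 1 then -1 else 0)) ?_
      (pnt h (fun r => (x r : ℝ)) o z₁ z₂) ?_ ?_ α hα
    · -- values of b
      refine hcase _ ?_ ?_ ?_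
      · intro hl
        rw [b0, a0]
        exact (hQJ (hJ0.1 hl)).1
      · intro hl
        rw [bL, aL]
        exact (hPJ (hJL.1 hl)).1
      · intro l hl hl'
        exact absurd hl' (hJM l hl)
    · -- minimality
      refine hcase _ ?_ ?_ ?_
      · intro p hp hpa hpb
        rw [a0] at hpa ⊢
        rw [b0] at hpb
        exact hQmin p hp hpa fun hJ => hpb (hJ0.2 hJ)
      · intro p hp hpa hpb
        rw [aL] at hpa ⊢
        rw [bL] at hpb
        have hp' : p ∈ latticePoints (convexHull ℝ (toReal '' (((range b).image (pp b h A) :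
            Finset _) : Set (Fin (h + 2) → ℤ)))) := by
          rw [← sL]
          exact hp
        exact hPmin p hp' hpa fun hJ => hpb (hJL.2 hJ)
      · intro l hl p hp hpa hpb
        have hp' : p ∈ latticePoints (convexHull ℝ (toReal '' (({a l.succ} : Finset _) :
            Set (Fin (h + 2) → ℤ)))) := by
          rw [aM l hl, ← sM l hl]
          exact hp
        refine dot_lt_of_unique _ _ _ (mem_singleton_self _) ?_ p hp' hpa
        intro a' ha' hne
        exact absurd (mem_singleton.1 ha') hne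
    · -- dual vectors
      have hne : (Fin.last (h + 2)) ≠ 0 := by
        intro h''
        have := congrArg Fin.val h''
        simp at this
      have dQh : ((bb 0 ⟨h, by omega⟩ : ℤ) : ℚ) - a 0 ⟨h, by omega⟩ = 1 := by
        rw [b0, a0]
        simp [qq]
      have dQh1 : ((bb 0 ⟨h + 1, by omega⟩ : ℤ) : ℚ) - a 0 ⟨h + 1, by omega⟩ = -1 := by
        rw [b0, a0]
        simp [qq]
      have dPh : ((bb (Fin.last (h + 2)) ⟨h, by omega⟩ : ℤ) : ℚ) -
          a (Fin.last (h + 2)) ⟨h, by omega⟩ = 0 := by
        rw [bL, aL]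
        simp [pp]
      have dPh1 : ((bb (Fin.last (h + 2)) ⟨h + 1, by omega⟩ : ℤ) : ℚ) -
          a (Fin.last (h + 2)) ⟨h + 1, by omega⟩ = -1 := by
        rw [bL, aL]
        simp [pp]
      refine hcase _ ?_ ?_ ?_
      · intro _
        refine hcase _ ?_ ?_ ?_
        · intro _
          rw [sumFin _ (fun k hk => by simp [hk.ne])]
          rw [dQh, dQh1]
          simp
        · intro _
          rw [sumFin _ (fun k hk => by simp [hk.ne])]
          rw [dPh, dPh1]
          simp [hne.symm]
        · intro l hl hl'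
          exact absurd hl' (hJM l hl)
      · intro _
        refine hcase _ ?_ ?_ ?_
        · intro _
          rw [sumFin _ (fun k hk => by
            have h1 : k.val ≠ h + 1 := by omega
            simp [hk.ne, h1])]
          rw [dQh, dQh1]
          simp [hne]
        · intro _
          rw [sumFin _ (fun k hk => by
            have h1 : k.val ≠ h + 1 := by omega
            simp [hk.ne, h1])]
          rw [dPh, dPh1]
          simp [hne]
        · intro l hl hl'
          exact absurd hl' (hJM l hl)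
      · intro l hl hl'
        exact absurd hl' (hJM l hl)
    · refine hcase _ ?_ ?_ ?_
      · intro hl
        rw [a0, y0]
        exact (hQJ (hJ0.1 hl)).2
      · intro hl
        rw [aL, yL]
        exact (hPJ (hJL.1 hl)).2
      · intro l hl hl'
        exact absurd hl' (hJM l hl)
    · refine hcase _ ?_ ?_ ?_
      · intro hl
        rw [a0, y0]
        exact hQn fun h' => hl (hJ0.2 h')
      · intro hl
        rw [aL, yL]
        exact hPn fun h' => hl (hJL.2 h')
      · intro l hl _
        rw [aM l hl]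
        have h1 : dot (ww h x o t) (Pi.single l 1) = ww h x o t l := by
          rw [dot, Finset.sum_eq_single l]
          · simp
          · intro k _ hk
            rw [Pi.single_eq_of_ne hk]
            simp
          · intro h'
            exact absurd (mem_univ l) h'
        rw [h1]
        have h2 : l.val ≠ h + 1 := fun h' => hl (Fin.ext h')
        have h3 := l.2
        simp only [pnt, ww, Fin.val_succ]
        rw [if_neg (by omega)]
        rcases lt_trichotomy l.val h with h4 | h4 | h4
        · rw [if_pos (by omega), if_pos h4]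
          simp
        · rw [if_neg (by omega), if_pos (by omega), if_neg (by omega), if_pos h4]
        · omega
  intro α' hα'
  obtain ⟨α, hα, rfl⟩ := mem_image.1 hα'
  obtain ⟨β, hβ, hne, hle⟩ := key α hα
  refine ⟨fun l => (β l : ℝ), mem_image.2 ⟨β, hβ, rfl⟩, ?_, ?_⟩
  · intro h'
    apply hne
    ext l
    have := congrFun h' l
    exact_mod_cast this
  · simpa [dotProduct] using hle

end Pool.Agent.Lib.MP_4e7804_co.Tl
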