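import Pool.Agent.Lib.MP_4e7804_co.Tl.Spec
import Pool.Agent.Lib.MP_4e7804_co.Pg.PermP

/-! MP_4e7804_co, Tl/Perm: invariance under permutations. -/

set_option autoImplicit false

namespace Pool.Agent.Lib.MP_4e7804_co.Tl

theorem tPerm : StmtPerm := by
  intro d v σ N h
  obtain ⟨P, c, F, h1, h2, h3, h4, h5⟩ := h
  refine ⟨P ∘ σ, c ∘ σ, MvPolynomial.rename σ.symm F, fun i => h1 _, fun i => h2 _, ?_,
    (implicit_perm P c F σ).1 h4, ?_⟩
  · unfold IsGeneric at h3 ⊢
    have := h3.comp (fun q : (Σ i : Fin (d + 1), latticePoints ((P ∘ σ) i)) =>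
      (⟨σ q.1, q.2⟩ : Σ i : Fin (d + 1), latticePoints (P i))) (by
        rintro ⟨i, p⟩ ⟨j, q⟩ hpq
        simp only [Sigma.mk.injEq] at hpq
        obtain ⟨h6, h7⟩ := hpq
        have h8 : i = j := σ.injective h6
        subst h8
        have h9 : p = q := eq_of_heq h7
        rw [h9])
    exact this
  · rw [numVertices_perm, h5]

end Pool.Agent.Lib.MP_4e7804_co.Tl
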