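import Pool.Agent.Lib.MP_4e7804_co.Tl.Spec

/-! MP_4e7804_co, Tl/Pts: all data are realized. -/

set_option autoImplicit false

open Filter Topology Finset

namespace Pool.Agent.Lib.MP_4e7804_co.Tl

namespace PtsN

theorem FF_le (b h : ℕ) (A : ℕ → ℕ → ℤ) (x : ℕ → ℝ) (z₁ : ℝ) (i : ℕ) :
    FF b h A x z₁ i ≤ sg b h A x z₁ := by
  unfold FF
  split_ifs
  · exact min_le_right _ _
  · exact le_rfl

theorem FF_le' (b h : ℕ) (A : ℕ → ℕ → ℤ) (x : ℕ → ℝ) (z₁ : ℝ) (i : ℕ) (hi : i + 1 < b) :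
    FF b h A x z₁ i ≤ uu h A x i := by
  unfold FF
  rw [if_pos hi]
  exact min_le_left _ _

theorem lt_FF (b h : ℕ) (A : ℕ → ℕ → ℤ) (x : ℕ → ℝ) (z₁ : ℝ) (i : ℕ) (y : ℝ)
    (h1 : y < sg b h A x z₁) (h2 : i + 1 < b → y < uu h A x i) : y < FF b h A x z₁ i := by
  unfold FF
  split_ifs with hi
  · exact lt_min (h2 hi) h1
  · exact h1

theorem le_GG (c h : ℕ) (B : ℕ → ℕ → ℤ) (x : ℕ → ℝ) (o z₂ : ℝ) (j : ℕ) :
    ta c h B x o z₂ ≤ GG c h B x o z₂ j := by
  unfold GG
  split_ifs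
  · exact le_rfl
  · exact le_max_left _ _

theorem le_GG' (c h : ℕ) (B : ℕ → ℕ → ℤ) (x : ℕ → ℝ) (o z₂ : ℝ) (j : ℕ) (hj : 1 ≤ j) :
    vv h B x o (j - 1) ≤ GG c h B x o z₂ j := by
  unfold GG
  rw [if_neg (by omega)]
  exact le_max_right _ _

theorem GG_lt (c h : ℕ) (B : ℕ → ℕ → ℤ) (x : ℕ → ℝ) (o z₂ : ℝ) (j : ℕ) (y : ℝ)
    (h1 : ta c h B x o z₂ < y) (h2 : 1 ≤ j → vv h B x o (j - 1) < y) :
    GG c h B x o z₂ j < y := by
  unfold GG
  split_ifs with hj
  · exact h1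
  · exact max_lt h1 (h2 (by omega))

/-- the realization of a datum with nonnegative coordinates -/
def Pr (b c h : ℕ) (A B : ℕ → ℕ → ℤ) (D : Option (ℕ × ℕ × Finset ℕ × Finset ℕ)) : Prop :=
  ∃ (x : ℕ → ℝ) (o z₁ z₂ : ℝ), Dom x ∧ ∀ i < b, ∀ j < c,
    (SRel b c D i j → FF b h A x z₁ i < GG c h B x o z₂ j) ∧
    (¬ SRel b c D i j → GG c h B x o z₂ j < FF b h A x z₁ i)

theorem rel_low (I J : Finset ℕ) (i j : ℕ) (hi : ∀ k ∈ I, i < k) : Rel I J i j := by
  have h0 : I.filter (· ≤ i) = ∅ := by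
    rw [filter_eq_empty_iff]
    intro k hk
    have := hi k hk
    omega
  unfold Rel
  rw [h0, card_empty]
  rcases Nat.eq_zero_or_pos (J.filter (· ≤ j)).card with h1 | h1
  · refine Or.inr ⟨h1.symm, Or.inl ⟨Even.zero, Or.inr ?_⟩⟩
    intro hj
    rw [card_eq_zero, filter_eq_empty_iff] at h1
    exact h1 hj le_rfl
  · exact Or.inl h1

open scoped Classical in
theorem real_some (hMon : StmtMon) (hSg : StmtSg) (b c h : ℕ) (A B : ℕ → ℕ → ℤ) (hc0 : Cols h A B)
    (hreal : Real b c h A B) (s m : ℕ) (I J : Finset ℕ) (hs : s < b) (hm : m < c)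
    (hI : I ⊆ Ico s (b - 1)) (hJ : J ⊆ range (c - 1 - m)) (hIJ : I.card = J.card)
    (hle : I.card ≤ h) : Pr b c h A B (some (s, m, I, J)) := by
  have hb : 1 ≤ b := by omega
  have hc : 1 ≤ c := by omega
  obtain ⟨x, o, hx, hr⟩ := hreal I (fun y hy => by
    have := mem_Ico.1 (hI hy)
    exact mem_range.2 this.2) J (fun y hy => by
    have := mem_range.1 (hJ hy)
    exact mem_range.2 (by omega)) hIJ hle
  obtain ⟨m1, m2, -, -⟩ := hMon b h A B x o hc0 hx
  obtain ⟨-, s1, -, s2⟩ := hSg b c h A B x o hb hc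
  have hlow : ∀ i < s, ∀ j, Rel I J i j := fun i hi j => rel_low I J i j fun k hk => by
    have := mem_Ico.1 (hI hk)
    omega
  -- the point τ
  obtain ⟨τ, t1, t2⟩ := Order.exists_between_finsets ((range s).image (uu h A x))
    (((Ico s (b - 1)).image (uu h A x)) ∪ ((range (c - 1)).image (vv h B x o))) (by
      intro l hl u hu
      obtain ⟨i, hi, rfl⟩ := mem_image.1 hl
      rw [mem_range] at hi
      rcases mem_union.1 hu with hu | hu
      · obtain ⟨i', hi', rfl⟩ := mem_image.1 hu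
        have := mem_Ico.1 hi'
        exact m1 (by omega)
      · obtain ⟨j, hj, rfl⟩ := mem_image.1 hu
        exact (hr i (by omega) j (mem_range.1 hj)).1 (hlow i hi j))
  have t1' : ∀ i < s, uu h A x i < τ := fun i hi => t1 _ (mem_image_of_mem _ (mem_range.2 hi))
  have t2' : ∀ i, s ≤ i → i < b - 1 → τ < uu h A x i := fun i hi hi' =>
    t2 _ (mem_union_left _ (mem_image_of_mem _ (mem_Ico.2 ⟨hi, hi'⟩)))
  have t3' : ∀ j < c - 1, τ < vv h B x o j := fun j hj =>
    t2 _ (mem_union_right _ (mem_image_of_mem _ (mem_range.2 hj)))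
  -- the point σ
  set j₁ : ℕ := c - 1 - m with hj₁
  have hU : ∀ i ∈ (range (b - 1)).filter (fun i => ¬ (m = 0 ∨ Rel I J i j₁)),
      j₁ < c - 1 ∧ vv h B x o j₁ < uu h A x i := by
    intro i hi
    rw [mem_filter, mem_range, not_or] at hi
    have hlt : j₁ < c - 1 := by omega
    exact ⟨hlt, (hr i hi.1 j₁ hlt).2 hi.2.2⟩
  obtain ⟨σ, r1, r2⟩ := Order.exists_between_finsets
    (insert τ (((range j₁).image (vv h B x o)) ∪
      (((range (b - 1)).filter (fun i => m = 0 ∨ Rel I J i j₁)).image (uu h A x))))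
    (((Ico j₁ (c - 1)).image (vv h B x o)) ∪
      (((range (b - 1)).filter (fun i => ¬ (m = 0 ∨ Rel I J i j₁))).image (uu h A x))) (by
      intro l hl u hu
      rcases mem_union.1 hu with hu | hu
      · obtain ⟨j', hj', rfl⟩ := mem_image.1 hu
        rw [mem_Ico] at hj'
        rcases mem_insert.1 hl with rfl | hl
        · exact t3' j' hj'.2
        · rcases mem_union.1 hl with hl | hl
          · obtain ⟨j, hj, rfl⟩ := mem_image.1 hl
            rw [mem_range] at hj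
            exact m2 (by omega)
          · obtain ⟨i, hi, rfl⟩ := mem_image.1 hl
            rw [mem_filter, mem_range] at hi
            rcases hi.2 with hm0 | hR
            · omega
            · exact lt_of_lt_of_le ((hr i hi.1 j₁ (by omega)).1 hR) (m2.monotone hj'.1)
      · obtain ⟨i', hi', rfl⟩ := mem_image.1 hu
        obtain ⟨q1, q2⟩ := hU i' hi'
        rw [mem_filter, not_or] at hi'
        rcases mem_insert.1 hl with rfl | hl
        · exact lt_trans (t3' j₁ q1) q2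
        · rcases mem_union.1 hl with hl | hl
          · obtain ⟨j, hj, rfl⟩ := mem_image.1 hl
            rw [mem_range] at hj
            exact lt_trans (m2 hj) q2
          · obtain ⟨i, hi, rfl⟩ := mem_image.1 hl
            rw [mem_filter, mem_range] at hi
            rcases hi.2 with hm0 | hR
            · exact absurd hm0 hi'.2.1
            · exact lt_trans ((hr i hi.1 j₁ q1).1 hR) q2)
  have r0 : τ < σ := r1 _ (mem_insert_self _ _)
  have r1' : ∀ j < j₁, vv h B x o j < σ := fun j hj =>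
    r1 _ (mem_insert_of_mem (mem_union_left _ (mem_image_of_mem _ (mem_range.2 hj))))
  have r2' : ∀ j, j₁ ≤ j → j < c - 1 → σ < vv h B x o j := fun j hj hj' =>
    r2 _ (mem_union_left _ (mem_image_of_mem _ (mem_Ico.2 ⟨hj, hj'⟩)))
  obtain ⟨z₁, hz₁⟩ := s1 σ
  obtain ⟨z₂, hz₂⟩ := s2 τ
  refine ⟨x, o, z₁, z₂, hx, ?_⟩
  intro i hi j hj
  constructor
  · intro hS
    rcases hS with h1 | h1 | ⟨h1, h2, h3⟩
    · calc FF b h A x z₁ i ≤ uu h A x i := FF_le' b h A x z₁ i (by omega)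
        _ < τ := t1' i h1
        _ = ta c h B x o z₂ := hz₂.symm
        _ ≤ _ := le_GG c h B x o z₂ j
    · calc FF b h A x z₁ i ≤ sg b h A x z₁ := FF_le b h A x z₁ i
        _ = σ := hz₁
        _ < vv h B x o (j - 1) := r2' (j - 1) (by omega) (by omega)
        _ ≤ _ := le_GG' c h B x o z₂ j (by omega)
    · calc FF b h A x z₁ i ≤ uu h A x i := FF_le' b h A x z₁ i h1
        _ < vv h B x o (j - 1) := (hr i (by omega) (j - 1) (by omega)).1 h3
        _ ≤ _ := le_GG' c h B x o z₂ j h2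
  · intro hS
    have hS' : ¬ (i < s ∨ c - m ≤ j ∨ (i + 1 < b ∧ 1 ≤ j ∧ Rel I J i (j - 1))) := hS
    rw [not_or, not_or] at hS'
    obtain ⟨n1, n2, n3⟩ := hS'
    apply lt_FF
    · apply GG_lt
      · rw [hz₂, hz₁]
        exact r0
      · intro hj1
        rw [hz₁]
        exact r1' (j - 1) (by omega)
    · intro hi1
      apply GG_lt
      · rw [hz₂]
        exact t2' i (by omega) (by omega)
      · intro hj1
        exact (hr i (by omega) (j - 1) (by omega)).2 fun hR => n3 ⟨hi1, hj1, hR⟩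

theorem real_none (hSg : StmtSg) (b c h : ℕ) (A B : ℕ → ℕ → ℤ) (hb : 1 ≤ b) (hc : 1 ≤ c) :
    Pr b c h A B none := by
  obtain ⟨-, s1, -, s2⟩ := hSg b c h A B (fun r => if r = 0 then 1 else 0) 0 hb hc
  obtain ⟨z₁, hz₁⟩ := s1 0
  obtain ⟨z₂, hz₂⟩ := s2 1
  refine ⟨fun r => if r = 0 then 1 else 0, 0, z₁, z₂, ⟨by simp, ?_⟩, ?_⟩
  · intro r
    simp only
    split_ifs <;> norm_num
  · intro i hi j hj
    refine ⟨fun _ => ?_, fun hn => absurd trivial hn⟩
    calc _ ≤ sg b h A (fun r => if r = 0 then 1 else 0) z₁ := FF_le _ _ _ _ _ _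
      _ < ta c h B (fun r => if r = 0 then 1 else 0) 0 z₂ := by rw [hz₁, hz₂]; norm_num
      _ ≤ _ := le_GG _ _ _ _ _ _ _

theorem data_cases (b c h : ℕ) (D : Option (ℕ × ℕ × Finset ℕ × Finset ℕ)) (hD : D ∈ data b c h) :
    D = none ∨ ∃ s m I J, D = some (s, m, I, J) ∧ s < b ∧ m < c ∧ I ⊆ Ico s (b - 1) ∧
      J ⊆ range (c - 1 - m) ∧ I.card = J.card ∧ I.card ≤ h := by
  rcases D with _ | ⟨s, m, I, J⟩
  · exact Or.inl rfl
  · right
    unfold data at hD
    rw [some_mem_insertNone] at hD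
    simp only [mem_biUnion, mem_image, mem_product, mem_powersetCard, mem_range] at hD
    obtain ⟨s', hs, m', hm, k, hk, q, ⟨⟨q1, q2⟩, q3, q4⟩, q5⟩ := hD
    simp only [Prod.mk.injEq] at q5
    obtain ⟨rfl, rfl, rfl, rfl⟩ := q5
    exact ⟨_, _, _, _, rfl, hs, hm, q1, q3, by rw [q2, q4], by omega⟩

/-- the path which makes the coordinates positive -/
noncomputable def path (h : ℕ) (x : ℕ → ℝ) (o z₁ z₂ : ℝ) (ε : ℝ) : Fin (h + 2 + 1) → ℝ :=
  fun k => pnt h x o z₁ z₂ k + if 1 ≤ k.val ∧ k.val ≤ h then ε else 0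

theorem path_cont (h : ℕ) (x : ℕ → ℝ) (o z₁ z₂ : ℝ) : Continuous (path h x o z₁ z₂) := by
  apply continuous_pi
  intro k
  unfold path
  split_ifs
  · exact continuous_const.add continuous_id
  · exact continuous_const

theorem path_xz (h : ℕ) (x : ℕ → ℝ) (o z₁ z₂ ε : ℝ) (r : ℕ) (hr : r < h) :
    xz h (path h x o z₁ z₂ ε) r = x r + ε := by
  unfold xz path pnt
  rw [dif_pos hr]
  simp only
  rw [if_neg (by omega), if_pos (by omega), if_pos (by omega)]
  simp

theorem path_oz (h : ℕ) (x : ℕ → ℝ) (o z₁ z₂ ε : ℝ) : oz h (path h x o z₁ z₂ ε) = o := by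
  unfold oz path pnt
  simp

theorem path_zero (h : ℕ) (x : ℕ → ℝ) (o z₁ z₂ ε : ℝ) : path h x o z₁ z₂ ε 0 = z₂ := by
  unfold path pnt
  simp

theorem path_last (h : ℕ) (x : ℕ → ℝ) (o z₁ z₂ ε : ℝ) :
    path h x o z₁ z₂ ε (Fin.last _) = z₁ := by
  unfold path pnt
  simp only [Fin.val_last]
  rw [if_neg (by omega), if_neg (by omega), if_neg (by omega), if_neg (by omega)]
  simp

theorem FF_congr (b h : ℕ) (A : ℕ → ℕ → ℤ) (x x' : ℕ → ℝ) (z₁ : ℝ) (i : ℕ)
    (hx : ∀ r < h, x r = x' r) : FF b h A x z₁ i = FF b h A x' z₁ i := by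
  have huu : ∀ k, uu h A x k = uu h A x' k := fun k => by
    unfold uu
    exact sum_congr rfl fun r hr => by rw [hx r (mem_range.1 hr)]
  simp only [FF, sg, huu]

theorem GG_congr (c h : ℕ) (B : ℕ → ℕ → ℤ) (x x' : ℕ → ℝ) (o z₂ : ℝ) (j : ℕ)
    (hx : ∀ r < h, x r = x' r) : GG c h B x o z₂ j = GG c h B x' o z₂ j := by
  have huu : ∀ k, vv h B x o k = vv h B x' o k := fun k => by
    unfold vv
    congr 1
    exact sum_congr rfl fun r hr => by rw [hx r (mem_range.1 hr)]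
  simp only [GG, ta, huu]

end PtsN

open PtsN in
theorem tPts (hMon : StmtMon) (hSg : StmtSg) (hCont : StmtCont) : StmtPts := by
  intro b c h A B hc0 hreal hb hc D hD
  have hPr : Pr b c h A B D := by
    rcases data_cases b c h D hD with rfl | ⟨s, m, I, J, rfl, hs, hm, hI, hJ, hIJ, hle⟩
    · exact real_none hSg b c h A B hb hc
    · exact real_some hMon hSg b c h A B hc0 hreal s m I J hs hm hI hJ hIJ hle
  obtain ⟨x, o, z₁, z₂, hx, hr⟩ := hPr
  obtain ⟨c1, c2, -, -, -⟩ := hCont b c h A B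
  have hF : ∀ i, Tendsto (fun ε : ℝ => FF b h A (xz h (path h x o z₁ z₂ ε))
      (path h x o z₁ z₂ ε (Fin.last _)) i) (𝓝[>] 0) (𝓝 (FF b h A x z₁ i)) := by
    intro i
    have h1 := ((c1 i).comp (path_cont h x o z₁ z₂)).tendsto 0
    have h2 : ((fun z : Fin (h + 2 + 1) → ℝ => FF b h A (xz h z) (z (Fin.last _)) i) ∘
        path h x o z₁ z₂) 0 = FF b h A x z₁ i := by
      simp only [Function.comp_apply]
      rw [path_last]
      exact FF_congr b h A _ _ z₁ i fun r hr => by rw [path_xz h x o z₁ z₂ 0 r hr, add_zero]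
    rw [h2] at h1
    exact h1.mono_left nhdsWithin_le_nhds
  have hG : ∀ j, Tendsto (fun ε : ℝ => GG c h B (xz h (path h x o z₁ z₂ ε))
      (oz h (path h x o z₁ z₂ ε)) (path h x o z₁ z₂ ε 0) j) (𝓝[>] 0)
      (𝓝 (GG c h B x o z₂ j)) := by
    intro j
    have h1 := ((c2 j).comp (path_cont h x o z₁ z₂)).tendsto 0
    have h2 : ((fun z : Fin (h + 2 + 1) → ℝ => GG c h B (xz h z) (oz h z) (z 0) j) ∘
        path h x o z₁ z₂) 0 = GG c h B x o z₂ j := by
      simp only [Function.comp_apply]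
      rw [path_zero, path_oz]
      exact GG_congr c h B _ _ o z₂ j fun r hr => by rw [path_xz h x o z₁ z₂ 0 r hr, add_zero]
    rw [h2] at h1
    exact h1.mono_left nhdsWithin_le_nhds
  have hev : ∀ᶠ ε : ℝ in 𝓝[>] 0, ∀ i ∈ range b, ∀ j ∈ range c,
      (SRel b c D i j → FF b h A (xz h (path h x o z₁ z₂ ε))
        (path h x o z₁ z₂ ε (Fin.last _)) i < GG c h B (xz h (path h x o z₁ z₂ ε))
        (oz h (path h x o z₁ z₂ ε)) (path h x o z₁ z₂ ε 0) j) ∧
      (¬ SRel b c D i j → GG c h B (xz h (path h x o z₁ z₂ ε))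
        (oz h (path h x o z₁ z₂ ε)) (path h x o z₁ z₂ ε 0) j <
        FF b h A (xz h (path h x o z₁ z₂ ε)) (path h x o z₁ z₂ ε (Fin.last _)) i) := by
    rw [eventually_all_finset]
    intro i hi
    rw [eventually_all_finset]
    intro j hj
    rw [mem_range] at hi hj
    by_cases hS : SRel b c D i j
    · filter_upwards [(hF i).eventually_lt (hG j) ((hr i hi j hj).1 hS)] with ε hε
      exact ⟨fun _ => hε, fun hn => absurd hS hn⟩
    · filter_upwards [(hG j).eventually_lt (hF i) ((hr i hi j hj).2 hS)] with ε hε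
      exact ⟨fun hn => absurd hn hS, fun _ => hε⟩
  obtain ⟨ε, hε, hε0⟩ := (hev.and self_mem_nhdsWithin).exists
  refine ⟨path h x o z₁ z₂ ε, ?_, fun i hi j hj => hε i (mem_range.2 hi) j (mem_range.2 hj)⟩
  intro r hr
  rw [path_xz h x o z₁ z₂ ε r hr]
  have := hx.2 r
  linarith

end Pool.Agent.Lib.MP_4e7804_co.Tl
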