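import Pool.Agent.Lib.MP_4e7804_co.Tl.Spec

/-!
# Counting vertices by separated open sets
-/

set_option autoImplicit false

namespace Pool.Agent.Lib.MP_4e7804_co.Tl

namespace RegN

variable {n : ℕ}

/-- the open region of `a` -/
def Ca (M : Finset (Fin n → ℝ)) (a : Fin n → ℝ) : Set (Fin n → ℝ) := {z | ∀ b ∈ M, b ≠ a → a ⬝ᵥ z < b ⬝ᵥ z}

theorem Ca_convex (M : Finset (Fin n → ℝ)) (a : Fin n → ℝ) : Convex ℝ (Ca M a) := by
  intro x hx y hy α β hα hβ hαβ b hb hba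
  have h1 := hx b hb hba
  have h2 := hy b hb hba
  simp only [dotProduct_add, dotProduct_smul, smul_eq_mul]
  rcases hα.lt_or_eq with h | h
  · have h3 := mul_lt_mul_of_pos_left h1 h
    have h4 := mul_le_mul_of_nonneg_left h2.le hβ
    linarith
  · have hb1 : β = 1 := by linarith
    subst h
    rw [hb1]
    linarith

theorem Ca_disjoint (M : Finset (Fin n → ℝ)) (a : Fin n → ℝ) (ha : a ∈ M) (z : Fin n → ℝ)
    (hz : z ∈ Ca M a) : z ∉ trp M := by
  intro h
  obtain ⟨b, hb, hba, hle⟩ := h a ha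
  exact absurd (hz b hb hba) (not_lt.2 hle)

theorem exists_Ca (M : Finset (Fin n → ℝ)) (z : Fin n → ℝ) (hz : z ∉ trp M) :
    ∃ a ∈ M, z ∈ Ca M a := by
  by_contra hc
  apply hz
  intro a ha
  by_contra hn
  refine hc ⟨a, ha, fun b hb hba => ?_⟩
  by_contra hlt
  exact hn ⟨b, hb, hba, not_lt.1 hlt⟩

theorem exists_one (p : Fin n → ℝ) (hp : p ≠ 0) (U : Set (Fin n → ℝ)) (hU : IsOpen U) (hne : U.Nonempty) :
    ∃ z ∈ U, p ⬝ᵥ z ≠ 0 := by
  obtain ⟨z, hz⟩ := hne
  by_cases h0 : p ⬝ᵥ z = 0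
  · have hc : Continuous fun ε : ℝ => z + ε • p := by fun_prop
    have ho := hU.preimage hc
    have h1 : (0 : ℝ) ∈ (fun ε : ℝ => z + ε • p) ⁻¹' U := by
      simpa using hz
    obtain ⟨r, hr, hball⟩ := Metric.isOpen_iff.1 ho 0 h1
    refine ⟨z + (r / 2) • p, hball ?_, ?_⟩
    · rw [Metric.mem_ball, dist_zero_right, Real.norm_eq_abs, abs_of_pos (by linarith)]
      linarith
    · rw [dotProduct_add, h0, zero_add, dotProduct_smul, smul_eq_mul]
      refine mul_ne_zero (by linarith) ?_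
      intro h
      exact hp (dotProduct_self_eq_zero.1 h)
  · exact ⟨z, hz, h0⟩

theorem exists_fin (P : Finset (Fin n → ℝ)) (hP : ∀ p ∈ P, p ≠ 0) (U : Set (Fin n → ℝ)) (hU : IsOpen U)
    (hne : U.Nonempty) : ∃ z ∈ U, ∀ p ∈ P, p ⬝ᵥ z ≠ 0 := by
  classical
  induction P using Finset.induction_on generalizing U with
  | empty =>
    obtain ⟨z, hz⟩ := hne
    exact ⟨z, hz, fun p hp => absurd hp (Finset.notMem_empty p)⟩
  | insert p P _ ih =>
    have ho : IsOpen (U ∩ {z : Fin n → ℝ | p ⬝ᵥ z ≠ 0}) := by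
      refine hU.inter ?_
      have hc : Continuous fun z : Fin n → ℝ => p ⬝ᵥ z := by
        unfold dotProduct
        fun_prop
      exact isOpen_ne_fun hc continuous_const
    obtain ⟨z, hz, hz0⟩ := exists_one p (hP p (Finset.mem_insert_self _ _)) U hU hne
    obtain ⟨y, hy, hy'⟩ := ih (fun p' hp' => hP p' (Finset.mem_insert_of_mem hp')) _ ho
      ⟨z, hz, hz0⟩
    refine ⟨y, hy.1, fun p' hp' => ?_⟩
    rcases Finset.mem_insert.1 hp' with rfl | h
    · exact hy.2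
    · exact hy' p' h

theorem exists_notMem (M : Finset (Fin n → ℝ)) (hM : M.Nonempty) (U : Set (Fin n → ℝ))
    (hU : IsOpen U) (hne : U.Nonempty) : ∃ z ∈ U, z ∉ trp M := by
  classical
  obtain ⟨z, hz, hz'⟩ := exists_fin
    (((M ×ˢ M).filter fun x => x.1 ≠ x.2).image fun x => x.1 - x.2) (by
      intro p hp
      obtain ⟨x, hx, rfl⟩ := Finset.mem_image.1 hp
      exact sub_ne_zero.2 (Finset.mem_filter.1 hx).2) U hU hne
  refine ⟨z, hz, ?_⟩
  intro htrp
  obtain ⟨p, hp, hmin⟩ := M.exists_min_image (fun a => a ⬝ᵥ z) hM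
  obtain ⟨q, hq, hqp, hle⟩ := htrp p hp
  refine hz' (p - q) (Finset.mem_image.2 ⟨(p, q), Finset.mem_filter.2
    ⟨Finset.mem_product.2 ⟨hp, hq⟩, hqp.symm⟩, rfl⟩) ?_
  rw [sub_dotProduct, sub_eq_zero]
  exact le_antisymm (hmin q hq) hle

theorem half_convex (a z : Fin n → ℝ) : Convex ℝ {x : Fin n → ℝ | a ⬝ᵥ z < x ⬝ᵥ z ∨ x = a} := by
  intro x hx y hy α β hα hβ hαβ
  have hxc : a ⬝ᵥ z ≤ x ⬝ᵥ z := by
    rcases hx with hx | hx
    · exact hx.le
    · rw [hx]
  have hyc : a ⬝ᵥ z ≤ y ⬝ᵥ z := by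
    rcases hy with hy | hy
    · exact hy.le
    · rw [hy]
  rcases hα.eq_or_lt with h0 | h0
  · subst h0
    have : β = 1 := by linarith
    subst this
    simpa using hy
  rcases hβ.eq_or_lt with h1 | h1
  · subst h1
    have : α = 1 := by linarith
    subst this
    simpa using hx
  have e : a ⬝ᵥ z = α * a ⬝ᵥ z + β * a ⬝ᵥ z := by rw [← add_mul, hαβ, one_mul]
  rcases hx with hx | hx
  · left
    rw [add_dotProduct, smul_dotProduct, smul_dotProduct, smul_eq_mul, smul_eq_mul]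
    linarith [mul_lt_mul_of_pos_left hx h0, mul_le_mul_of_nonneg_left hyc hβ]
  · rcases hy with hy | hy
    · left
      rw [add_dotProduct, smul_dotProduct, smul_dotProduct, smul_eq_mul, smul_eq_mul]
      linarith [mul_lt_mul_of_pos_left hy h1, mul_le_mul_of_nonneg_left hxc hα]
    · right
      rw [hx, hy, ← add_smul, hαβ, one_smul]

theorem extreme (M : Finset (Fin n → ℝ)) (a : Fin n → ℝ) (ha : a ∈ M) (z : Fin n → ℝ) (hz : z ∈ Ca M a) :
    a ∈ Set.extremePoints ℝ (convexHull ℝ (M : Set (Fin n → ℝ))) := by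
  have hsub : convexHull ℝ (M : Set (Fin n → ℝ)) ⊆ {x : Fin n → ℝ | a ⬝ᵥ z < x ⬝ᵥ z ∨ x = a} := by
    refine convexHull_min ?_ (half_convex a z)
    intro b hb
    by_cases h : b = a
    · exact Or.inr h
    · exact Or.inl (hz b (Finset.mem_coe.1 hb) h)
  rw [mem_extremePoints]
  refine ⟨subset_convexHull ℝ _ (Finset.mem_coe.2 ha), ?_⟩
  rintro x hx y hy ⟨α, β, hα, hβ, hαβ, hxy⟩
  have e : a ⬝ᵥ z = α * x ⬝ᵥ z + β * y ⬝ᵥ z := by
    conv_lhs => rw [← hxy]
    rw [add_dotProduct, smul_dotProduct, smul_dotProduct, smul_eq_mul, smul_eq_mul]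
  have e' : a ⬝ᵥ z = α * a ⬝ᵥ z + β * a ⬝ᵥ z := by rw [← add_mul, hαβ, one_mul]
  rcases hsub hx with h1 | h1
  · exfalso
    rcases hsub hy with h2 | h2
    · linarith [mul_lt_mul_of_pos_left h1 hα, mul_lt_mul_of_pos_left h2 hβ]
    · rw [h2] at e
      linarith [mul_lt_mul_of_pos_left h1 hα]
  · rcases hsub hy with h2 | h2
    · exfalso
      rw [h1] at e
      linarith [mul_lt_mul_of_pos_left h2 hβ]
    · exact ⟨h1, h2⟩

end RegN

open RegN in
theorem tReg : StmtReg := by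
  classical
  intro n M hM κ I U hU hsep
  have hex : ∀ x, x ∈ I → ∃ z : Fin n → ℝ, ∃ a : Fin n → ℝ, z ∈ U x ∧ a ∈ M ∧ z ∈ Ca M a := by
    intro x hx
    obtain ⟨z, hz, hz'⟩ := exists_notMem M hM (U x) (hU x hx).1 (hU x hx).2
    obtain ⟨a, ha, ha'⟩ := exists_Ca M z hz'
    exact ⟨z, a, hz, ha, ha'⟩
  choose! z a hz ha hza using hex
  have hinj : Set.InjOn a (I : Set κ) := by
    intro x hx y hy hxy
    by_contra hne
    have hx' := Finset.mem_coe.1 hx
    have hy' := Finset.mem_coe.1 hy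
    obtain ⟨θ, h0, h1, hθ⟩ := hsep x hx' y hy' hne (z x) (hz x hx') (z y) (hz y hy')
    refine Ca_disjoint M (a x) (ha x hx') _ ?_ hθ
    refine Ca_convex M (a x) (hza x hx') ?_ (by linarith) h0 (by ring)
    rw [hxy]
    exact hza y hy'
  rw [← Finset.card_image_of_injOn hinj, ← Set.ncard_coe_finset]
  refine Set.ncard_le_ncard ?_ ?_
  · intro b hb
    obtain ⟨x, hx, rfl⟩ := Finset.mem_image.1 (Finset.mem_coe.1 hb)
    exact extreme M (a x) (ha x hx) (z x) (hza x hx)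
  · exact M.finite_toSet.subset extremePoints_convexHull_subset

end Pool.Agent.Lib.MP_4e7804_co.Tl
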