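import Pool.Agent.Lib.MP_4e7804_co.Tl.Spec

/-! MP_4e7804_co: the relation after one more coincidence. -/

set_option autoImplicit false

open Finset

namespace Pool.Agent.Lib.MP_4e7804_co.Tl

namespace RelEN

private theorem cnt_le (I : Finset ℕ) (i : ℕ) : (I.filter (· ≤ i)).card ≤ I.card :=
  card_filter_le _ _

private theorem cnt_lt (I : Finset ℕ) (i₀ i : ℕ) (h : i < i₀) :
    ((insert i₀ I).filter (· ≤ i)).card = (I.filter (· ≤ i)).card := by
  rw [filter_insert, if_neg (by omega)]

private theorem cnt_ge (I : Finset ℕ) (i₀ i : ℕ) (hI : ∀ i ∈ I, i < i₀) (h : i₀ ≤ i) :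
    ((insert i₀ I).filter (· ≤ i)).card = I.card + 1 := by
  rw [filter_true_of_mem]
  · exact card_insert_of_notMem fun h' => absurd (hI _ h') (lt_irrefl _)
  · intro k hk
    rcases mem_insert.1 hk with rfl | hk
    · exact h
    · exact (hI _ hk).le.trans h

private theorem cnt_ge' (I : Finset ℕ) (i₀ i : ℕ) (hI : ∀ i ∈ I, i < i₀) (h : i₀ ≤ i) :
    (I.filter (· ≤ i)).card = I.card := by
  rw [filter_true_of_mem]
  intro k hk
  exact (hI _ hk).le.trans h

end RelEN

open RelEN in
theorem tRelE : StmtRelE := by
  intro I J i₀ j₀ hc hI hJ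
  have nI : ∀ i, i₀ ≤ i → i ∉ I := fun i h h' => absurd (hI i h') (by omega)
  have nJ : ∀ j, j₀ ≤ j → j ∉ J := fun j h h' => absurd (hJ j h') (by omega)
  refine ⟨fun he => ⟨?_, ?_, ?_, ?_⟩, fun he => ⟨?_, ?_, ?_, ?_⟩⟩
  · right
    rw [cnt_ge' I i₀ i₀ hI le_rfl, cnt_ge' J j₀ j₀ hJ le_rfl]
    exact ⟨hc, Or.inl ⟨he, Or.inr (nJ _ le_rfl)⟩⟩
  · intro i j hi
    unfold Rel
    have h1 := cnt_le I i
    rw [cnt_lt I i₀ i hi]
    have h2 : i ∈ insert i₀ I ↔ i ∈ I := by
      rw [mem_insert]
      constructor
      · rintro (h | h)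
        · omega
        · exact h
      · exact Or.inr
    rw [h2]
    rcases lt_or_ge j j₀ with hj | hj
    · rw [cnt_lt J j₀ j hj]
      have h3 : j ∈ insert j₀ J ↔ j ∈ J := by
        rw [mem_insert]
        constructor
        · rintro (h | h)
          · omega
          · exact h
        · exact Or.inr
      rw [h3]
    · rw [cnt_ge J j₀ j hJ hj, cnt_ge' J j₀ j hJ hj]
      constructor
      · intro _
        rcases lt_or_eq_of_le h1 with h | h
        · left
          omega
        · right
          rw [h]
          exact ⟨hc, Or.inl ⟨he, Or.inr (nJ _ hj)⟩⟩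
      · intro _
        left
        omega
  · intro j
    unfold Rel
    rw [cnt_ge I i₀ i₀ hI le_rfl]
    have ho : ¬ Even (I.card + 1) := by
      rw [Nat.even_add_one]
      exact fun h => h he
    rcases lt_trichotomy j j₀ with hj | hj | hj
    · rw [cnt_lt J j₀ j hj]
      have h1 := cnt_le J j
      constructor
      · rintro (h | ⟨h, _⟩)
        · omega
        · omega
      · intro h
        omega
    · subst hj
      rw [cnt_ge J j j hJ le_rfl]
      constructor
      · rintro (h | ⟨_, ⟨h, _⟩ | ⟨_, _, h⟩⟩)
        · omega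
        · exact absurd h ho
        · exact absurd (mem_insert_self _ _) h
      · intro h
        omega
    · rw [cnt_ge J j₀ j hJ hj.le]
      constructor
      · intro _
        exact hj
      · intro _
        right
        refine ⟨by omega, Or.inr ⟨ho, mem_insert_self _ _, ?_⟩⟩
        rw [mem_insert]
        rintro (h | h)
        · omega
        · exact nJ _ hj.le h
  · intro i j hi
    unfold Rel
    rw [cnt_ge I i₀ i hI hi.le]
    have ho : ¬ Even (I.card + 1) := by
      rw [Nat.even_add_one]
      exact fun h => h he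
    have hi' : i ∉ insert i₀ I := by
      rw [mem_insert]
      rintro (h | h)
      · omega
      · exact nI _ hi.le h
    have h1 : ((insert j₀ J).filter (· ≤ j)).card ≤ J.card + 1 :=
      (card_filter_le _ _).trans (card_insert_le _ _)
    rintro (h | ⟨_, ⟨h, _⟩ | ⟨_, h, _⟩⟩)
    · omega
    · exact absurd h ho
    · exact absurd h hi'
  · unfold Rel
    rw [cnt_ge' I i₀ i₀ hI le_rfl, cnt_ge' J j₀ j₀ hJ le_rfl]
    rintro (h | ⟨_, ⟨h, _⟩ | ⟨_, h, _⟩⟩)
    · omega
    · exact absurd h he
    · exact nI _ le_rfl h
  · intro i j hj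
    unfold Rel
    have h1 := cnt_le J j
    rw [cnt_lt J j₀ j hj]
    have h2 : j ∈ insert j₀ J ↔ j ∈ J := by
      rw [mem_insert]
      constructor
      · rintro (h | h)
        · omega
        · exact h
      · exact Or.inr
    rw [h2]
    rcases lt_or_ge i i₀ with hi | hi
    · rw [cnt_lt I i₀ i hi]
      have h3 : i ∈ insert i₀ I ↔ i ∈ I := by
        rw [mem_insert]
        constructor
        · rintro (h | h)
          · omega
          · exact h
        · exact Or.inr
      rw [h3]
    · rw [cnt_ge I i₀ i hI hi, cnt_ge' I i₀ i hI hi]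
      constructor
      · rintro (h | ⟨h, _⟩)
        · omega
        · omega
      · rintro (h | ⟨_, ⟨h, _⟩ | ⟨_, h, _⟩⟩)
        · omega
        · exact absurd h he
        · exact absurd h (nI _ hi)
  · intro i
    unfold Rel
    rw [cnt_ge J j₀ j₀ hJ le_rfl]
    have ho : Even (I.card + 1) := by
      rw [Nat.even_add_one]
      exact he
    rcases lt_trichotomy i i₀ with hi | hi | hi
    · rw [cnt_lt I i₀ i hi]
      have h1 := cnt_le I i
      constructor
      · intro _
        exact hi.le
      · intro _
        left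
        omega
    · subst hi
      rw [cnt_ge I i i hI le_rfl]
      constructor
      · intro _
        exact le_rfl
      · intro _
        right
        exact ⟨by omega, Or.inl ⟨ho, Or.inl (mem_insert_self _ _)⟩⟩
    · rw [cnt_ge I i₀ i hI hi.le]
      have hi' : i ∉ insert i₀ I := by
        rw [mem_insert]
        rintro (h | h)
        · omega
        · exact nI _ hi.le h
      constructor
      · rintro (h | ⟨_, ⟨_, h | h⟩ | ⟨h, _, _⟩⟩)
        · omega
        · exact absurd h hi'
        · exact absurd (mem_insert_self _ _) h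
        · exact absurd ho h
      · intro h
        omega
  · intro i j hj
    unfold Rel
    rw [cnt_ge J j₀ j hJ hj.le]
    have ho : Even (I.card + 1) := by
      rw [Nat.even_add_one]
      exact he
    rcases lt_or_ge i i₀ with hi | hi
    · rw [cnt_lt I i₀ i hi]
      have h1 := cnt_le I i
      left
      omega
    · rw [cnt_ge I i₀ i hI hi]
      right
      refine ⟨by omega, Or.inl ⟨ho, Or.inr ?_⟩⟩
      rw [mem_insert]
      rintro (h | h)
      · omega
      · exact nJ _ hj.le h

end Pool.Agent.Lib.MP_4e7804_co.Tl
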