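import Pool.Agent.Lib.MP_4e7804_co.Tl.Spec

/-!
# Separation of weights with different order relations
-/

set_option autoImplicit false

open Finset

namespace Pool.Agent.Lib.MP_4e7804_co.Tl

theorem SepN.dom {h : ℕ} (hh : 1 ≤ h) {z : Fin (h + 2 + 1) → ℝ} (hz : z ∈ Dp h) :
    Dom (xz h z) := by
  refine ⟨hz 0 hh, fun r => ?_⟩
  by_cases hr : r < h
  · exact (hz r hr).le
  · rw [xz, dif_neg hr]

theorem tSep (hCont : StmtCont) (hBrk : StmtBrk) : StmtSep := by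
  intro b c h A B hC hb hc z hz z' hz' i hi j hj h1 h2
  obtain ⟨cF, cG, -, conv, -⟩ := hCont b c h A B
  let γ : ℝ → Fin (h + 2 + 1) → ℝ := fun θ => (1 - θ) • z + θ • z'
  have hγ : Continuous γ := by
    show Continuous fun θ : ℝ => (1 - θ) • z + θ • z'
    fun_prop
  have hγ0 : γ 0 = z := by simp [γ]
  have hγ1 : γ 1 = z' := by simp [γ]
  let f : ℝ → ℝ := fun θ => FF b h A (xz h (γ θ)) (γ θ (Fin.last _)) i -
    GG c h B (xz h (γ θ)) (oz h (γ θ)) (γ θ 0) j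
  have hf : Continuous f := ((cF i).comp hγ).sub ((cG j).comp hγ)
  have hf0 : f 0 ≤ 0 := by
    show FF b h A (xz h (γ 0)) (γ 0 (Fin.last _)) i -
      GG c h B (xz h (γ 0)) (oz h (γ 0)) (γ 0 0) j ≤ 0
    rw [hγ0]
    linarith
  have hf1 : 0 ≤ f 1 := by
    show 0 ≤ FF b h A (xz h (γ 1)) (γ 1 (Fin.last _)) i -
      GG c h B (xz h (γ 1)) (oz h (γ 1)) (γ 1 0) j
    rw [hγ1]
    linarith
  obtain ⟨θ, hθ, hfθ⟩ := intermediate_value_Icc (zero_le_one (α := ℝ)) hf.continuousOn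
    (Set.mem_Icc.2 ⟨hf0, hf1⟩)
  have hmem : γ θ ∈ Dp h :=
    conv hz hz' (sub_nonneg.2 hθ.2) hθ.1 (by ring)
  refine ⟨θ, hθ.1, hθ.2, hmem, FF b h A (xz h (γ θ)) (γ θ (Fin.last _)) i, ?_⟩
  exact hBrk b c h A B (xz h (γ θ)) (oz h (γ θ)) (γ θ (Fin.last _)) (γ θ 0) hC
    (SepN.dom hC.one_le hmem) hb hc i hi j hj (sub_eq_zero.1 hfθ)

end Pool.Agent.Lib.MP_4e7804_co.Tl
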