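import Pool.Agent.Lib.MP_4e7804_co.Tl.Spec
import Pool.Agent.Lib.MP_4e7804_co.Lo.NumV
import Pool.Agent.Lib.MP_4e7804_co.Lo.Hull

/-! # MP_4e7804_co, Tl, module Vtx: the vertices -/

set_option autoImplicit false

open Filter Topology Finset

namespace Pool.Agent.Lib.MP_4e7804_co.Tl.VtxN

open Pool.Agent.Lib.MP_4e7804_co Pool.Agent.Lib.MP_4e7804_co.Tl

/-- the weight `1, 0, 0, …` -/
def x0 : ℕ → ℚ := fun r => if r = 0 then 1 else 0

theorem sum_x0 {h : ℕ} (hh : 1 ≤ h) (A : ℕ → ℕ → ℤ) (k : ℕ) :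
    ∑ r ∈ range h, (A r k : ℝ) * ((x0 r : ℚ) : ℝ) = A 0 k := by
  rw [Finset.sum_eq_single 0]
  · simp [x0]
  · intro r _ hr
    simp [x0, hr]
  · intro h0
    exact absurd (Finset.mem_range.2 (by omega)) h0

theorem dom_x0 : Dom (fun r => ((x0 r : ℚ) : ℝ)) := by
  refine ⟨by simp [x0], fun r => ?_⟩
  change (0 : ℝ) ≤ ((if r = 0 then (1 : ℚ) else 0 : ℚ) : ℝ)
  split_ifs <;> simp

theorem between {a : ℕ → ℤ} (ha : ∀ i, a i < a (i + 1)) (i : ℕ) :
    (∀ k < i, (a k : ℝ) < (a i : ℝ) - 1 / 2) ∧ ∀ k, i ≤ k → (a i : ℝ) - 1 / 2 < a k := by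
  have hm : StrictMono a := strictMono_nat_of_lt_succ ha
  refine ⟨fun k hk => ?_, fun k hk => ?_⟩
  · have h1 : a k + 1 ≤ a i := hm hk
    have h2 : ((a k : ℝ)) + 1 ≤ a i := by exact_mod_cast h1
    linarith
  · have h1 : a i ≤ a k := hm.monotone hk
    have h2 : ((a i : ℝ)) ≤ a k := by exact_mod_cast h1
    linarith

theorem pp_min (hMon : StmtMon) (hLab : StmtLab) (hDot : StmtDot) {b h : ℕ} {A B : ℕ → ℕ → ℤ}
    (hC : Cols h A B) (i : ℕ) (hi : i < b) : ∃ w : Fin (h + 2) → ℚ,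
      ∀ k < b, k ≠ i → dot w (pp b h A i) < dot w (pp b h A k) := by
  refine ⟨ww h x0 0 ((A 0 i : ℚ) - 1 / 2), fun k hk hki => ?_⟩
  obtain ⟨h1, _, h2, _⟩ := hMon b h A B (fun r => ((x0 r : ℚ) : ℝ)) 0 hC dom_x0
  have hu : ∀ k, uu h A (fun r => ((x0 r : ℚ) : ℝ)) k = A 0 k := fun k => sum_x0 hC.one_le A k
  have hb := between hC.A_zero i
  have h3 := (hLab _ (fun k => pF b h A (fun r => ((x0 r : ℚ) : ℝ)) k ((A 0 i : ℝ) - 1 / 2))
    ((A 0 i : ℝ) - 1 / 2) h1 (fun i => h2 i _)).2.1 b i hi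
    (fun k hk => by rw [hu]; exact hb.1 k hk)
    (fun k hk _ => by rw [hu]; exact hb.2 k hk) k hk hki
  have e := (hDot b h A B).1 x0 0 ((A 0 i : ℚ) - 1 / 2)
  have h4 : ((dot (ww h x0 0 ((A 0 i : ℚ) - 1 / 2)) (pp b h A i) : ℚ) : ℝ) <
      ((dot (ww h x0 0 ((A 0 i : ℚ) - 1 / 2)) (pp b h A k) : ℚ) : ℝ) := by
    rw [e, e]
    push_cast
    exact h3
  exact_mod_cast h4

theorem qq_min (hMon : StmtMon) (hLab : StmtLab) (hDot : StmtDot) {c h : ℕ} {A B : ℕ → ℕ → ℤ}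
    (hC : Cols h A B) (j : ℕ) (hj : j < c) : ∃ w : Fin (h + 2) → ℚ,
      ∀ k < c, k ≠ j → dot w (qq h B j) < dot w (qq h B k) := by
  refine ⟨ww h x0 0 ((B 0 j : ℚ) - 1 / 2), fun k hk hkj => ?_⟩
  obtain ⟨_, h1, _, h2⟩ := hMon c h A B (fun r => ((x0 r : ℚ) : ℝ)) 0 hC dom_x0
  have hu : ∀ k, vv h B (fun r => ((x0 r : ℚ) : ℝ)) 0 k = B 0 k := fun k => by
    unfold vv
    rw [sum_x0 hC.one_le B k, zero_add]
  have hb := between hC.B_zero j
  have h3 := (hLab _ (fun k => qG h B (fun r => ((x0 r : ℚ) : ℝ)) 0 k ((B 0 j : ℝ) - 1 / 2))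
    ((B 0 j : ℝ) - 1 / 2) h1 (fun i => h2 i _)).2.1 c j hj
    (fun k hk => by rw [hu]; exact hb.1 k hk)
    (fun k hk _ => by rw [hu]; exact hb.2 k hk) k hk hkj
  have e := (hDot c h A B).2.1 x0 0 ((B 0 j : ℚ) - 1 / 2)
  have h4 : ((dot (ww h x0 0 ((B 0 j : ℚ) - 1 / 2)) (qq h B j) : ℚ) : ℝ) <
      ((dot (ww h x0 0 ((B 0 j : ℚ) - 1 / 2)) (qq h B k) : ℚ) : ℝ) := by
    rw [e, e]
    push_cast
    exact h3
  exact_mod_cast h4

theorem pp_inj (b h : ℕ) (A : ℕ → ℕ → ℤ) : Function.Injective (pp b h A) := by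
  intro i k hik
  have h1 := congrFun hik (Fin.last (h + 1))
  simp only [pp, Fin.val_last] at h1
  rw [if_neg (by omega), if_neg (by omega), if_neg (by omega), if_neg (by omega)] at h1
  omega

theorem qq_inj (h : ℕ) (B : ℕ → ℕ → ℤ) : Function.Injective (qq h B) := by
  intro i k hik
  have h1 := congrFun hik (Fin.last (h + 1))
  simp only [qq, Fin.val_last] at h1
  rw [if_neg (by omega), if_neg (by omega), if_neg (by omega), if_neg (by omega)] at h1
  omega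

/-- everything about the sets of vertices -/
theorem facts (hMon : StmtMon) (hLab : StmtLab) (hDot : StmtDot) {b c h : ℕ} {A B : ℕ → ℕ → ℤ}
    (hC : Cols h A B) (hb : 1 ≤ b) (hc : 1 ≤ c) (i : Fin (h + 2 + 1)) :
    (sets b c h A B i).Nonempty ∧ (sets b c h A B i).card = vec b c h i ∧
      ∀ a ∈ sets b c h A B i, ∃ w : Fin (h + 2) → ℚ, ∀ a' ∈ sets b c h A B i, a' ≠ a →
        dot w a < dot w a' := by
  refine Fin.cases ?_ (fun j => ?_) i
  · have e : sets b c h A B 0 = setQ c h B := rfl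
    have e' : vec b c h 0 = c := rfl
    rw [e, e']
    refine ⟨(Finset.nonempty_range_iff.2 (by omega)).image _, ?_, ?_⟩
    · unfold setQ
      rw [Finset.card_image_of_injective _ (qq_inj h B), Finset.card_range]
    · intro a ha
      obtain ⟨j, hj, rfl⟩ := Finset.mem_image.1 ha
      obtain ⟨w, hw⟩ := qq_min hMon hLab hDot hC j (Finset.mem_range.1 hj)
      refine ⟨w, fun a' ha' hne => ?_⟩
      obtain ⟨k, hk, rfl⟩ := Finset.mem_image.1 ha'
      exact hw k (Finset.mem_range.1 hk) fun hkj => hne (by rw [hkj])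
  · have e : sets b c h A B j.succ =
        if j = Fin.last (h + 1) then setP b h A else {Pi.single j 1} := rfl
    have e' : vec b c h j.succ = if j = Fin.last (h + 1) then b else 1 := rfl
    rw [e, e']
    split_ifs with hjl
    · refine ⟨(Finset.nonempty_range_iff.2 (by omega)).image _, ?_, ?_⟩
      · unfold setP
        rw [Finset.card_image_of_injective _ (pp_inj b h A), Finset.card_range]
      · intro a ha
        obtain ⟨j, hj, rfl⟩ := Finset.mem_image.1 ha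
        obtain ⟨w, hw⟩ := pp_min hMon hLab hDot hC j (Finset.mem_range.1 hj)
        refine ⟨w, fun a' ha' hne => ?_⟩
        obtain ⟨k, hk, rfl⟩ := Finset.mem_image.1 ha'
        exact hw k (Finset.mem_range.1 hk) fun hkj => hne (by rw [hkj])
    · refine ⟨Finset.singleton_nonempty _, Finset.card_singleton _, ?_⟩
      intro a ha
      rw [Finset.mem_singleton] at ha
      subst ha
      refine ⟨0, fun a' ha' hne => ?_⟩
      exact absurd (Finset.mem_singleton.1 ha') hne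

end Pool.Agent.Lib.MP_4e7804_co.Tl.VtxN

namespace Pool.Agent.Lib.MP_4e7804_co.Tl

theorem tVtx (hMon : StmtMon) (hLab : StmtLab) (hDot : StmtDot) : StmtVtx := by
  intro b c h A B hC hb hc
  have hf := VtxN.facts hMon hLab hDot hC hb hc
  refine ⟨fun i => ⟨sets b c h A B i, (hf i).1, rfl⟩, fun i => ?_, fun i => ?_, fun i a ha => ?_⟩
  · rw [← (hf i).2.1]
    exact numVertices_hull _ (hf i).2.2
  · exact latticePoints_hull_finite _
  · exact subset_latticePoints_hull _ ha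

end Pool.Agent.Lib.MP_4e7804_co.Tl
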