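import Pool.Agent.Lib.MP_4e7804_co.Tl.Apx
import Pool.Agent.Lib.MP_4e7804_co.Tl.Brk
import Pool.Agent.Lib.MP_4e7804_co.Tl.Card
import Pool.Agent.Lib.MP_4e7804_co.Tl.Clos
import Pool.Agent.Lib.MP_4e7804_co.Tl.Cont
import Pool.Agent.Lib.MP_4e7804_co.Tl.Dot
import Pool.Agent.Lib.MP_4e7804_co.Tl.ExF
import Pool.Agent.Lib.MP_4e7804_co.Tl.FamB
import Pool.Agent.Lib.MP_4e7804_co.Tl.FamS
import Pool.Agent.Lib.MP_4e7804_co.Tl.Inj
import Pool.Agent.Lib.MP_4e7804_co.Tl.InjR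
import Pool.Agent.Lib.MP_4e7804_co.Tl.Lab
import Pool.Agent.Lib.MP_4e7804_co.Tl.Low
import Pool.Agent.Lib.MP_4e7804_co.Tl.Lower
import Pool.Agent.Lib.MP_4e7804_co.Tl.Mon
import Pool.Agent.Lib.MP_4e7804_co.Tl.Nice
import Pool.Agent.Lib.MP_4e7804_co.Tl.Perm
import Pool.Agent.Lib.MP_4e7804_co.Tl.Pts
import Pool.Agent.Lib.MP_4e7804_co.Tl.Reg
import Pool.Agent.Lib.MP_4e7804_co.Tl.RelE
import Pool.Agent.Lib.MP_4e7804_co.Tl.Sep
import Pool.Agent.Lib.MP_4e7804_co.Tl.Sg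
import Pool.Agent.Lib.MP_4e7804_co.Tl.Vtx

/-! MP_4e7804_co, Tl/All: the lower bound for `n - 2` points and two polytopes. -/

set_option autoImplicit false

namespace Pool.Agent.Lib.MP_4e7804_co.Tl

theorem tAllLower : StmtLower :=
  tLower (tLow (tSep tCont (tBrk tMon tLab tSg)) tReg (tVtx tMon tLab tDot) tExF
    (tClos (tNice tMon tLab tDot) (tApx tMon tLab) tDot) tCont tFamB (tFamS tMon tRelE)
    (tPts tMon tSg tCont) (tInj tInjR) tCard) tPerm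

end Pool.Agent.Lib.MP_4e7804_co.Tl
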