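import Pool.Agent.Lib.MP_4e7804_co.Tl.Defs

/-!
# MP_4e7804_co: `n - 2` points and two polytopes, the lower bound: statements

For all `n ≥ 4`, `b, c ≥ 1`: `V_n(1, …, 1, b, c) ≥ ∑_{k ≤ n - 2} C(b,k) C(c,k)`. Here `n = h + 3`.

Every statement is a `Prop`; its docstring contains a complete proof. Delivery format: file
`Tl/<Name>.lean`, first line `import Pool.Agent.Lib.MP_4e7804_co.Tl.Spec` (further imports from
`Pool.Agent.Lib.MP_4e7804_co.Lo` are allowed where indicated), private lemmas in the namespace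
`Pool.Agent.Lib.MP_4e7804_co.Tl.<Name>N`, final theorem `Pool.Agent.Lib.MP_4e7804_co.Tl.t<Name>`, with the
statements listed under `Uses` as hypotheses.

OVERVIEW. `u_i = uu h A x i` (`i + 1 < b`) are the breaks of `h_P(t) = min_(i<b) pF i t`,
`v_j = vv h B x o j` (`j + 1 < c`) those of `h_Q(t) = min_(j<c) qG j t`. `F = min (h_P, z₁)`,
`G = min (z₂, h_Q)`. `FF i` is the point where the labels `≤ i` of `F` are replaced by the labels `> i`,
the same for `GG j`. If `FF i = GG j` for some `i, j` then `F` and `G` are both attained twice at this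
point (`Tie`), so the weight is in the tropical hypersurface of the implicit equation. Hence two
weights with different relations `FF i < GG j` are separated by the tropical hypersurface, and the
number of vertices is at least the number of the relations which occur. The relations are counted by
the data `(s, m, I, J)`.
-/

set_option autoImplicit false

open Filter Topology Finset

namespace Pool.Agent.Lib.MP_4e7804_co.Tl

/-- **Mon** Monotonicity of the breaks. Proof. `uu (i+1) - uu i = ∑ (A r (i+1) - A r i) x r`, all terms are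
`≥ 0` and the term `r = 0` is `> 0` (`1 ≤ h`): `strictMono_nat_of_lt_succ`. The same for `vv`. The last
two equations: `Finset.sum_range_succ`. -/
def StmtMon : Prop := ∀ (b h : ℕ) (A B : ℕ → ℕ → ℤ) (x : ℕ → ℝ) (o : ℝ), Cols h A B → Dom x →
  StrictMono (uu h A x) ∧ StrictMono (vv h B x o) ∧
  (∀ i t, pF b h A x (i + 1) t = pF b h A x i t + (uu h A x i - t)) ∧
  ∀ j t, qG h B x o (j + 1) t = qG h B x o j t + (vv h B x o j - t)

/-- **Lab** The minimal labels of a sequence with `φ (i + 1) = φ i + (a i - t)`, `a` strictly increasing.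
Proof. `φ k - φ i = ∑_(i ≤ l < k) (a l - t)` for `i ≤ k` and `φ k - φ i = ∑_(k ≤ l < i) (t - a l)` for `k ≤ i`
(induction on `k`, resp. downwards). (1) all terms are `≥ 0`. (2) all terms are `> 0` and there is
at least one. (3) `a l < a i = t` for `l < i` and `a l > t` for `l > i`. (4) let `i` be the number of the
`k` with `k + 1 < n` and `a k < t` (a set of the form `{0, …, i - 1}`; or the least `i < n` such that
`i + 1 = n` or `t < a i`, `Nat.find`), then (2). -/
def StmtLab : Prop := ∀ (a φ : ℕ → ℝ) (t : ℝ), StrictMono a → (∀ i, φ (i + 1) = φ i + (a i - t)) →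
  (∀ n i, i < n → (∀ k < i, a k ≤ t) → (∀ k, i ≤ k → k + 1 < n → t ≤ a k) → ∀ k < n, φ i ≤ φ k) ∧
  (∀ n i, i < n → (∀ k < i, a k < t) → (∀ k, i ≤ k → k + 1 < n → t < a k) →
    ∀ k < n, k ≠ i → φ i < φ k) ∧
  (∀ n i, i + 1 < n → t = a i → φ (i + 1) = φ i ∧ ∀ k < n, k ≠ i → k ≠ i + 1 → φ i < φ k) ∧
  (∀ n, 1 ≤ n → (∀ k, k + 1 < n → t ≠ a k) → ∃ i < n, ∀ k < n, k ≠ i → φ i < φ k)

/-- **Sg** The points `sg`, `ta`. Proof. `i < b`, so `b - i > 0`:
`z₁ ≤ pF i t ↔ (z₁ - f_i) / (b - i) ≤ t`, and the same with `=`, where `f_i = ∑_(k<i) uu k`. So (1)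
`z₁ ≤ pF i (sg)` for all `i < b` (`Finset.le_sup'`), with equality for the `i` where the maximum is
attained (`Finset.exists_mem_eq_sup'`). (2) if `t ≤ sg` then for this `i`: `pF i t ≤ pF i (sg) = z₁`
(`b - i > 0`). (3) take `z₁ = inf' pF i s`; then `(z₁ - f_i)/(b - i) ≤ s` with equality for the minimal `i`.
The same for `ta`: `z₂ ≤ qG j t ↔ t ≤ (g_j - z₂) / (j + 1)`. -/
def StmtSg : Prop := ∀ (b c h : ℕ) (A B : ℕ → ℕ → ℤ) (x : ℕ → ℝ) (o : ℝ), 1 ≤ b → 1 ≤ c →
  (∀ z₁, (∀ i < b, z₁ ≤ pF b h A x i (sg b h A x z₁)) ∧ (∃ i < b, z₁ = pF b h A x i (sg b h A x z₁)) ∧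
    ∀ t ≤ sg b h A x z₁, ∃ i < b, pF b h A x i t ≤ z₁) ∧
  (∀ s, ∃ z₁, sg b h A x z₁ = s) ∧
  (∀ z₂, (∀ j < c, z₂ ≤ qG h B x o j (ta c h B x o z₂)) ∧
    (∃ j < c, z₂ = qG h B x o j (ta c h B x o z₂)) ∧
    ∀ t, ta c h B x o z₂ ≤ t → ∃ j < c, qG h B x o j t ≤ z₂) ∧
  (∀ s, ∃ z₂, ta c h B x o z₂ = s)

/-- **Brk** (uses `Mon`, `Lab`, `Sg`) a common break is a tie. Proof. Let `t = FF i = GG j`. The `F` part
of `Tie`: if `i + 1 < b` and `uu i ≤ sg` then `t = uu i`, and by `Lab` (3), (1) (with `a = uu`, `φ k = pF k t`)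
`pF i t ≤ pF k t` for all `k < b`; by `Sg` (`t ≤ sg`) some `pF k t ≤ z₁`, so `pF i t ≤ z₁`: second
alternative. Otherwise `t = sg` and `Sg` gives the first alternative. The `G` part: if `j = 0`, or
`vv (j - 1) ≤ ta`, then `t = ta`: first alternative. Otherwise `t = vv (j - 1) ≥ ta`, and `(j - 1) + 1 < c`:
second alternative with the index `j - 1`. -/
def StmtBrk : Prop := ∀ (b c h : ℕ) (A B : ℕ → ℕ → ℤ) (x : ℕ → ℝ) (o z₁ z₂ : ℝ), Cols h A B → Dom x →
  1 ≤ b → 1 ≤ c → ∀ i < b, ∀ j < c, FF b h A x z₁ i = GG c h B x o z₂ j →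
    Tie b c h A B x o z₁ z₂ (FF b h A x z₁ i)

/-- **Cont** Continuity in the weight. Proof. `xz h z r` is a coordinate of `z` or `0`; finite sums;
`Continuous.finset_sup'_apply` / `Continuous.finset_inf'_apply`; `min`, `max`. `Dp h` is a finite
intersection of open half spaces, `UU` a finite intersection of open sets. -/
def StmtCont : Prop := ∀ (b c h : ℕ) (A B : ℕ → ℕ → ℤ),
  (∀ i, Continuous fun z : Fin (h + 2 + 1) → ℝ => FF b h A (xz h z) (z (Fin.last _)) i) ∧
  (∀ j, Continuous fun z : Fin (h + 2 + 1) → ℝ => GG c h B (xz h z) (oz h z) (z 0) j) ∧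
  IsOpen (Dp h) ∧ Convex ℝ (Dp h) ∧ ∀ D, IsOpen (UU b c h A B D)

/-- **Sep** (uses `Cont`, `Brk`) separation. Proof. Let `γ θ = (1 - θ) • z + θ • z'`, in `Dp h`. The
continuous function `FF i - GG j` along `γ` is negative at `0` and positive at `1`, so it vanishes at
some `θ` (`intermediate_value_Icc`). `Dom (xz h (γ θ))` since `γ θ ∈ Dp h` and `1 ≤ h`. `Brk`. -/
def StmtSep : Prop := ∀ (b c h : ℕ) (A B : ℕ → ℕ → ℤ), Cols h A B → 1 ≤ b → 1 ≤ c →
  ∀ z ∈ Dp h, ∀ z' ∈ Dp h, ∀ i < b, ∀ j < c,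
    FF b h A (xz h z) (z (Fin.last _)) i < GG c h B (xz h z) (oz h z) (z 0) j →
    GG c h B (xz h z') (oz h z') (z' 0) j < FF b h A (xz h z') (z' (Fin.last _)) i →
    ∃ θ : ℝ, 0 ≤ θ ∧ θ ≤ 1 ∧ (1 - θ) • z + θ • z' ∈ Dp h ∧
      ∃ t, Tie b c h A B (xz h ((1 - θ) • z + θ • z')) (oz h ((1 - θ) • z + θ • z'))
        (((1 - θ) • z + θ • z') (Fin.last _)) (((1 - θ) • z + θ • z') 0) t

/-- **Reg** counting vertices by separated open sets. (Compare `N3/Low/Regions.lean`, the same proof for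
`n = 3`.) Proof. For `a ∈ M` let `C a = {z | ∀ b ∈ M, b ≠ a → a ⬝ᵥ z < b ⬝ᵥ z}`, a convex set disjoint from
`trp M`. A point `z ∉ trp M` is in some `C a`, `a ∈ M`. The set `trp M` contains no nonempty open set:
it is contained in the finite union of the hyperplanes `(a - b) ⬝ᵥ z = 0`, `a ≠ b` in `M`, whose
complements are open and dense. So for `x ∈ I` choose `z x ∈ U x` not in `trp M` and `a x ∈ M` with
`z x ∈ C (a x)`. By hypothesis and convexity of `C (a x)`, `a` is injective on `I`. Every `a x` is an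
extreme point of the convex hull of `M`. The set of extreme points is finite
(`extremePoints_convexHull_subset`). -/
def StmtReg : Prop := ∀ (n : ℕ) (M : Finset (Fin n → ℝ)), M.Nonempty → ∀ (κ : Type) (I : Finset κ)
  (U : κ → Set (Fin n → ℝ)), (∀ x ∈ I, IsOpen (U x) ∧ (U x).Nonempty) →
  (∀ x ∈ I, ∀ y ∈ I, x ≠ y → ∀ z ∈ U x, ∀ z' ∈ U y, ∃ θ : ℝ, 0 ≤ θ ∧ θ ≤ 1 ∧
    (1 - θ) • z + θ • z' ∈ trp M) →
  I.card ≤ (Set.extremePoints ℝ (convexHull ℝ (M : Set (Fin n → ℝ)))).ncard

/-- **Dot** values of the vertices. Proof. Split the sum over `Fin (h + 2)` into `l < h`, `l = h`,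
`l = h + 1` (`Fin.sum_univ_castSucc` twice, `Fin.sum_univ_eq_sum_range`), exchange the sums over `r` and
`k`. In `qq` the coordinate `h` is `j`: `∑_(k<j) (o + …) = j o + …`. The last statement:
`pnt h (xz h z) (oz h z) (z (Fin.last _)) (z 0) = z`, by cases on the index. -/
def StmtDot : Prop := ∀ (b h : ℕ) (A B : ℕ → ℕ → ℤ),
  (∀ (x : ℕ → ℚ) (o t : ℚ) (i : ℕ), ((dot (ww h x o t) (pp b h A i) : ℚ) : ℝ) =
    pF b h A (fun r => (x r : ℝ)) i t) ∧
  (∀ (x : ℕ → ℚ) (o t : ℚ) (j : ℕ), ((dot (ww h x o t) (qq h B j) : ℚ) : ℝ) =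
    qG h B (fun r => (x r : ℝ)) o j t) ∧
  ∀ z : Fin (h + 2 + 1) → ℝ, pnt h (xz h z) (oz h z) (z (Fin.last _)) (z 0) = z

/-- **Vtx** (uses `Mon`, `Lab`, `Dot`; may import `Lo.NumV`, `Lo.Hull`) the vertices. Proof. With
`x 0 = 1`, `x r = 0` otherwise, `o = 0`, we have `uu i = A 0 i` and `vv j = B 0 j`, strictly increasing
integers. For `t = A 0 i - 1/2` the vertex `pp i` is the unique minimum among all `pp k`, `k < b`: `Lab` (2)
(for `k < i`: `A 0 k ≤ A 0 i - 1 < t`; for `k ≥ i`: `A 0 k ≥ A 0 i > t`). The same for `qq`. So `pp`, `qq`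
are injective on `range b`, `range c` (also: the last coordinates differ), and `numVertices_hull` of
`Lo/NumV.lean` applies. The sets `{Pi.single j 1}` have one element. -/
def StmtVtx : Prop := ∀ (b c h : ℕ) (A B : ℕ → ℕ → ℤ), Cols h A B → 1 ≤ b → 1 ≤ c →
  (∀ i, IsLatticePolytope (conf b c h A B i)) ∧
  (∀ i, numVertices (conf b c h A B i) = vec b c h i) ∧
  (∀ i, (latticePoints (conf b c h A B i)).Finite) ∧
  ∀ i, ∀ a ∈ sets b c h A B i, a ∈ latticePoints (conf b c h A B i)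

/-- **ExF** (may import `Lo.Implicit`, `Lo.Indep`, `Lo.Hull`, `Lo.Generic`; compare `Pg/ExistP.lean`)
existence of the implicit equation. Proof. `exists_implicit`; the independence of the polynomials
number `1, …, h + 2` by `indep_of_min` with `w = ww h 0 0 1` and the points `e_0, …, e_h`, `pp (b - 1)`: the
value of `pp i` at `w` is `b - i`, with the unique minimum `1` at `i = b - 1` (`dot_lt_of_unique` of
`Lo/Hull.lean`; `pp i` for `i < b`); the matrix of these points is triangular with the diagonal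
`1, …, 1, b - (b-1) = 1`. `c i a ≠ 0` at the points of `sets`. -/
def StmtExF : Prop := ∀ (b c h : ℕ) (A B : ℕ → ℕ → ℤ), Cols h A B → 1 ≤ b → 1 ≤ c →
  ∀ cf : Fin (h + 2 + 1) → (Fin (h + 2) → ℤ) → ℂ,
    (∀ i, ∀ a ∈ sets b c h A B i, cf i a ≠ 0) →
      ∃ F, IsImplicitEq (conf b c h A B) cf F

/-- **Nice** (uses `Mon`, `Lab`, `Dot`; may import `Lo.Sheet`, `Lo.Hull`, `Lo.Implicit`) the weights in
nice position are in the tropical hypersurface. Proof. `sheet_tie` of `Lo/Sheet.lean` with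
`w = ww h x o t`, `y = pnt h x o z₁ z₂`, `h` the values at `w`, and: for the points `a = Pi.single j 1`
(not in `J`; value `w j`, which is the coordinate of `pnt`); for `P` (index `Fin.last`): in the first
alternative `a = pp i`, not in `J`, `z₁` = its value; all other lattice points of the hull have a larger
value by `dot_lt_of_unique` of `Lo/Hull.lean`; in the second alternative `a = pp i`, `b = pp (i + 1)`, in `J`,
the values are equal and smaller than all others by `Lab` (3), the other lattice points by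
`dot_lt_of_edge`, with `pp (i+1) - pp i` having the last coordinate `-1`, so that `hprim` is clear. The same
for `Q` (index `0`) with `qq j`, `qq (j + 1)`, difference with last coordinate `-1` and coordinate
number `h` equal to `1`. The dual vectors `bs` (all coordinates `0` except number `h` and `h + 1`):
if both are in `J`: `bs Q = (1, 0)`, `bs P = (-1, -1)` at `(h, h + 1)`, since
`pp (i+1) - pp i = (…, 0, -1)` and `qq (j+1) - qq j = (…, 1, -1)`; if only one of them is in `J`: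
`bs = (0, -1)` (or the same vectors). `F` vanishes on the image: `IsImplicitEq.eval_eq_zero`. The
conclusion of `sheet_tie` for all exponents `α` is `pnt … ∈ trp (Mx F)` (`dotProduct`; the map from the
exponents to real vectors is injective). -/
def StmtNice : Prop := ∀ (b c h : ℕ) (A B : ℕ → ℕ → ℤ), Cols h A B → 1 ≤ b → 1 ≤ c →
  ∀ (cf : Fin (h + 2 + 1) → (Fin (h + 2) → ℤ) → ℂ) (F : MvPolynomial (Fin (h + 2 + 1)) ℂ),
    (∀ i, ∀ a ∈ sets b c h A B i, cf i a ≠ 0) → IsImplicitEq (conf b c h A B) cf F →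
    ∀ (x : ℕ → ℚ) (o t : ℚ) (z₁ z₂ : ℝ), Dom (fun r => (x r : ℝ)) →
      Nice b c h A B (fun r => (x r : ℝ)) o z₁ z₂ t → pnt h (fun r => (x r : ℝ)) o z₁ z₂ ∈ trp (Mx F)

/-- **Apx** (uses `Mon`, `Lab`) approximation of ties by nice positions. Proof. Choose rational
sequences `x_n r → x r` with `x_n r > 0` for `r < h` and `x_n r = 0` for `r ≥ h`. The numbers `uu k` for
rational `x` are rational, and `vv k - o` too. Four cases. (mm) `z₁ = min pF i t`, `z₂ = min qG j t`: choose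
rational `t_n → t` not among the finitely many `uu k (x_n)`, `k < b`, then rational `o_n → o` such that
`t_n ≠ vv k (x_n, o_n)` for `k < c` (finitely many forbidden values of `o_n`). (pm) `t = uu i`:
`t_n = uu i (x_n)`, rational, and `o_n → o` rational with `t_n ≠ vv k`. (mp) `t = vv j`: `o_n → o` rational such
that `t_n = vv j (x_n, o_n) ≠ uu k (x_n)` for all `k < b`. (pp) `t = uu i = vv j`: `t_n = uu i (x_n)`,
`o_n = t_n - ∑ B r j x_n r`, rational, `→ t - ∑ B r j x r = o`. In each case `t_n → t`. The new `z₁`: in the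
case (m..) by `Lab` (4) there is a unique minimal `i_n < b` of `pF i t_n`; `z₁^n = pF i_n t_n = min_i pF i t_n`
converges to `min_i pF i t = z₁` (each of the finitely many `pF i` converges). In the case (p..)
`z₁^n = max z₁ (pF i t_n) + 1/(n+1)`, which converges to `max z₁ (pF i t) = z₁`. The same for `z₂`. (Avoiding a
finite set: a nonempty open interval contains infinitely many rational numbers.) -/
def StmtApx : Prop := ∀ (b c h : ℕ) (A B : ℕ → ℕ → ℤ), Cols h A B → 1 ≤ b → 1 ≤ c →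
  ∀ (x : ℕ → ℝ) (o z₁ z₂ t : ℝ), (∀ r < h, 0 < x r) → Tie b c h A B x o z₁ z₂ t →
    ∃ (xn : ℕ → ℕ → ℚ) (on tn : ℕ → ℚ) (z₁n z₂n : ℕ → ℝ),
      (∀ n, Dom (fun r => (xn n r : ℝ))) ∧
      (∀ n, Nice b c h A B (fun r => (xn n r : ℝ)) (on n) (z₁n n) (z₂n n) (tn n)) ∧
      (∀ r < h, Tendsto (fun n => (xn n r : ℝ)) atTop (𝓝 (x r))) ∧
      Tendsto (fun n => (on n : ℝ)) atTop (𝓝 o) ∧ Tendsto z₁n atTop (𝓝 z₁) ∧
      Tendsto z₂n atTop (𝓝 z₂)

/-- **Clos** (uses `Nice`, `Apx`, `Dot`) ties are in the tropical hypersurface. Proof. `trp M` is closed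
(a finite intersection over `a ∈ M` of finite unions of closed half spaces). The points
`pnt h x_n o_n z₁^n z₂^n ∈ trp (Mx F)` converge to `pnt h x o z₁ z₂ = z` (`tendsto_pi_nhds`). -/
def StmtClos : Prop := ∀ (b c h : ℕ) (A B : ℕ → ℕ → ℤ), Cols h A B → 1 ≤ b → 1 ≤ c →
  ∀ (cf : Fin (h + 2 + 1) → (Fin (h + 2) → ℤ) → ℂ) (F : MvPolynomial (Fin (h + 2 + 1)) ℂ),
    (∀ i, ∀ a ∈ sets b c h A B i, cf i a ≠ 0) → IsImplicitEq (conf b c h A B) cf F →
    ∀ z ∈ Dp h, (∃ t, Tie b c h A B (xz h z) (oz h z) (z (Fin.last _)) (z 0) t) → z ∈ trp (Mx F)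

/-- **FamB** the family with one column. Proof. `A 0 i = (c + 1) i`, `B 0 j = j`, all other columns `0`;
`x 0 = 1`, `x r = 0` otherwise: `u_i = (c+1) i`, `v_j = o + j`. If `I = J = ∅` then `Rel` is always true
(`0 = 0`, even, `j ∉ J`); take `o = (c + 1) b + 1`. If `I = {i₀}`, `J = {j₀}`: `Rel i j` is true for `i < i₀`
(`0 < 1`, or `0 = 0`, even, `j ∉ J`), for `i = i₀` it is `j₀ < j` (`j < j₀`: `1 < 0` is false; `j = j₀`: `1 = 1`, odd,
`j ∈ J`; `j > j₀`: `1 = 1`, odd, `i ∈ I`, `j ∉ J`), for `i > i₀` it is false. Take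
`o = (c + 1) i₀ - j₀ - 1/2`: `v_j - u_(i₀) = j - j₀ - 1/2`, of absolute value `< c + 1/2`. -/
def StmtFamB : Prop := ∀ b c : ℕ, ∃ A B : ℕ → ℕ → ℤ, Cols 1 A B ∧ Real b c 1 A B

/-- **RelE** the relation after one more coincidence. `I`, `J` have `k` elements, `i₀` is larger than
all elements of `I`, `j₀` is larger than all elements of `J`. Proof. Count:
`#{I ∪ {i₀} ≤ i} = #{I ≤ i}` for `i < i₀` and `k + 1` for `i ≥ i₀`, and `#{I ≤ i} = k` for `i ≥ i₀`; the same for
`J`; always `#{I ≤ i} ≤ k`. `k` even. (1) `Rel I J i₀ j₀`: `k = k`, even, `j₀ ∉ J`. (2) `i < i₀`: if `j < j₀` nothing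
changes; if `j ≥ j₀` both are true (new: `#{I ≤ i} ≤ k < k + 1`; old: `#{I ≤ i} < k`, or `= k`, even,
`j ∉ J`). (3) `i = i₀`: `j < j₀`: `k + 1 ≤ #` is false, so the new relation is false; `j = j₀`: `k + 1` is odd,
`j ∈ J'`: false; `j > j₀`: odd, `i ∈ I'`, `j ∉ J'`: true. (4) `i > i₀`: `#{I' ≤ i} = k + 1`, so only `j ≥ j₀` could be
true, with `k + 1` odd and `i ∈ I'`: false. `k` odd. (1) `Rel I J i₀ j₀`: odd, `i₀ ∉ I`: false. (2) `j < j₀`: if
`i < i₀` nothing changes; if `i ≥ i₀` both are false (new: `k + 1 ≤ #{J ≤ j} ≤ k` is false; old: `k < #` is false, and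
`k = #`, odd, `i ∈ I` is false). (3) `j = j₀`: `#{J' ≤ j₀} = k + 1`: `i < i₀`: true; `i = i₀`: `k + 1` even, `i ∈ I'`:
true; `i > i₀`: even, `i ∉ I'`, `j ∈ J'`: false. (4) `j > j₀`: `i < i₀`: true; `i ≥ i₀`: `k + 1 = k + 1`, even, `j ∉ J'`:
true. -/
def StmtRelE : Prop := ∀ (I J : Finset ℕ) (i₀ j₀ : ℕ), I.card = J.card → (∀ i ∈ I, i < i₀) →
  (∀ j ∈ J, j < j₀) →
  (Even I.card → Rel I J i₀ j₀ ∧
    (∀ i j, i < i₀ → (Rel (insert i₀ I) (insert j₀ J) i j ↔ Rel I J i j)) ∧
    (∀ j, Rel (insert i₀ I) (insert j₀ J) i₀ j ↔ j₀ < j) ∧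
    ∀ i j, i₀ < i → ¬ Rel (insert i₀ I) (insert j₀ J) i j) ∧
  (¬ Even I.card → ¬ Rel I J i₀ j₀ ∧
    (∀ i j, j < j₀ → (Rel (insert i₀ I) (insert j₀ J) i j ↔ Rel I J i j)) ∧
    (∀ i, Rel (insert i₀ I) (insert j₀ J) i j₀ ↔ i ≤ i₀) ∧
    ∀ i j, j₀ < j → Rel (insert i₀ I) (insert j₀ J) i j)

/-- **FamS** (uses `Mon`, `RelE`) one more column. Proof. New columns number `h`: if `h` is even
`A h i = K^i`, `B h = 0`; if `h` is odd `A h = 0`, `B h j = K^j` (`Function.update`; `K ≥ 1` natural); the other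
columns are not changed (so for `x h = 0` the breaks are the old ones; columns `> h` may be set to
`0` or left; set them such that `Cols` holds, it holds already). For `I.card ≤ h` take the old `x` with
`x h := 0`. For `I.card = h + 1`: let `i₀, j₀` be the maxima of `I`, `J`, `I = insert i₀ I₀`, `J = insert j₀ J₀`,
`(x, o)` the realization of `I₀, J₀`. If `h` is even: `Rel I₀ J₀ i₀ j₀` (`RelE`), so `u_(i₀) < v_(j₀) < v_(j₀+1)`
(`Mon`); choose `ρ > 0` with `v_(j₀) < u_(i₀) + ρ < v_(j₀+1)` and `x h := ρ / K^(i₀)`. The new breaks are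
`u_i + ρ K^(i - i₀)` and `v_j`. For `i < i₀` they converge to `u_i` for `K → ∞`, for `i = i₀` they are
`u_(i₀) + ρ`, for `i > i₀` they tend to `+∞`. By `RelE` all required (finitely many, strict) inequalities
hold for all large `K`: for `i < i₀` the relation is the old one; for `i = i₀` it is `j₀ < j`, and `v` is
increasing; for `i > i₀` it is false. If `h` is odd: not `Rel I₀ J₀ i₀ j₀`, so `v_(j₀) < u_(i₀) < u_(i₀+1)`; choose
`ρ > 0` with `u_(i₀) < v_(j₀) + ρ < u_(i₀+1)` and `x h := ρ / K^(j₀)`; new breaks `u_i` and `v_j + ρ K^(j - j₀)`; use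
`RelE` in the same way. There are finitely many pairs `(I, J)`, so one `K` is good for all of them
(`Filter.eventually_all_finset` or `Finset` induction). -/
def StmtFamS : Prop := ∀ (b c h : ℕ) (A B : ℕ → ℕ → ℤ), Cols h A B → Real b c h A B →
  ∃ A' B' : ℕ → ℕ → ℤ, Cols (h + 1) A' B' ∧ Real b c (h + 1) A' B'

/-- **Pts** (uses `Mon`, `Sg`, `Cont`) all data are realized. Proof. First: for a finite set `L` and a
finite set `U` of real numbers with `l < u` for all `l ∈ L`, `u ∈ U` there is a number `τ` with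
`l < τ < u` for all `l, u` (`Finset.exists_between'` or via `sup'`, `inf'`). Let `D = some (s, m, I, J) ∈ data`,
`(x, o)` from `Real` (`I ⊆ Ico s (b-1) ⊆ range (b-1)`, `J ⊆ range (c-1-m)`). For `i < s` the relation `Rel I J i j`
is true for all `j` (`#{I ≤ i} = 0`; either `0 < #{J ≤ j}`, or `= 0` and then `j ∉ J`). So there is `τ` with
`u_i < τ` for `i < s`, `τ < u_i` for `s ≤ i`, `i + 1 < b`, `τ < v_j` for `j + 1 < c` (use: for `i < s` with `i + 1 < b`,
`u_i < v_j`; `s ≤ b - 1`). Let `j₁ = c - 1 - m`. There is `σ > τ` with: `v_j < σ` for `j < j₁`;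
`σ < v_j` for `j₁ ≤ j`, `j + 1 < c`; and for `i + 1 < b`: `u_i < σ` if `m = 0` or `Rel I J i j₁`, and
`σ < u_i` if `m ≥ 1` and not `Rel I J i j₁`. (Lower < upper: `v_j < v_(j₁) < u_i`, `u_i < v_(j₁) ≤ v_j'`,
`u_i < v_(j₁) < u_i'`, `τ < v_(j₁)`; if `m ≥ 1` then `j₁ + 1 < c`; if `m = 0` there are no upper conditions.) By `Sg`
choose `z₁, z₂` with `sg = σ`, `ta = τ`. Then for `i < b`, `j < c`: `FF i < GG j` iff one of `u_i < τ`
(`i + 1 < b`, i.e. `i < s`), `u_i < v_(j-1)` (`i + 1 < b`, `j ≥ 1`, i.e. `Rel I J i (j-1)`), `σ < v_(j-1)` (`j ≥ 1`,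
`j - 1 ≥ j₁`, i.e. `c - m ≤ j`), since `τ < σ`; this is `SRel` (note `s ≤ b - 1`, `m ≤ c - 1`, so `i < s` implies
`i + 1 < b`, and `c - m ≤ j` implies `j ≥ 1`); otherwise all four inequalities hold strictly in the other
direction. For `D = none`: `x 0 = 1`, `o = 0`, any `σ < τ`: `FF i ≤ σ < τ ≤ GG j`. Finally we need `x r > 0` for
all `r < h`: the strict inequalities are open conditions by `Cont` (the sets `UU` without the condition
`Dp`; or: apply continuity of `FF - GG` along the path `x + ε (1, …, 1)`, `ε → 0`): replace `x` by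
`x + ε` (coordinates `r < h`) with small `ε > 0` and the same `o, z₁, z₂`. The weight is
`z = pnt h x o z₁ z₂` (`xz h z r = x r` for `r < h`; `uu`, `vv` depend only on these). -/
def StmtPts : Prop := ∀ (b c h : ℕ) (A B : ℕ → ℕ → ℤ), Cols h A B → Real b c h A B → 1 ≤ b → 1 ≤ c →
  ∀ D ∈ data b c h, (UU b c h A B D).Nonempty

/-- **InjR** the chain is determined by the relation. Proof. Suppose `(I, J) ≠ (I', J')`. List the
elements in increasing order: `i_1 < i_2 < …`, `j_1 < j_2 < …` and `i'_1 < …`, `j'_1 < …` (value `⊤` after the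
end of the list: for both components at the same time, since the cardinalities are equal). Let `l` be
the first index with `(i_l, j_l) ≠ (i'_l, j'_l)`. By symmetry we may exchange the two chains. For
`i_(l-1) < i < min (i_l, i'_l)` all counts `#{I ≤ i}`, `#{I' ≤ i}` are `l - 1`. Case `l` odd. If `i_l < i'_l` (perhaps
`i'_l = ⊤`): at `(i_l, j_l)`: `Rel I J` is false (`l = l`, odd, `j ∈ J`); `Rel I' J'`: `#{I' ≤ i_l} = l - 1`;
`#{J' ≤ j_l} ≥ l - 1` since `j_l > j_(l-1)`; if `≥ l` true; if `= l - 1` (even) then `j_l ∉ J'` (`j_l` is larger than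
the first `l - 1` elements of `J'` and smaller than the others), true. If `i_l = i'_l < ⊤` and `j_l < j'_l`: at
`(i_l, j'_l)`: `Rel I' J'` is false; `Rel I J`: `#{J ≤ j'_l} ≥ l`; if `> l` true; if `= l`: odd, `i_l ∈ I`,
`j'_l ∉ J` (it would be `j_l`), true. Case `l` even. If `j_l < j'_l`: at `(i_l, j_l)`: `Rel I J` is true (`l = l`,
even, `i ∈ I`); `Rel I' J'`: `#{J' ≤ j_l} = l - 1`, `#{I' ≤ i_l} ≥ l - 1`; if `≥ l` false; if `= l - 1` (odd):
`i_l ∉ I'`, false. If `j_l = j'_l < ⊤` and `i_l < i'_l`: at `(i'_l, j_l)`: `Rel I' J'` is true; `Rel I J`: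
`#{I ≤ i'_l} ≥ l`; `> l` false; `= l`, even, `i'_l ∉ I`, `j_l ∈ J`: false. All these points are in the
box. (In Lean it is convenient to avoid lists: `l - 1` is the largest number such that the first
`l - 1` elements agree; or: induction on the cardinality of `I ∪ I'` ... any proof is fine; for instance
strong induction which removes the first elements `i_1, j_1`; or `Finset.orderEmbOfFin`.) -/
def StmtInjR : Prop := ∀ (s b' c' : ℕ) (I J I' J' : Finset ℕ), I ⊆ Ico s b' → I' ⊆ Ico s b' →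
  J ⊆ range c' → J' ⊆ range c' → I.card = J.card → I'.card = J'.card →
  (∀ i, s ≤ i → i < b' → ∀ j < c', (Rel I J i j ↔ Rel I' J' i j)) → I = I' ∧ J = J'

/-- **Inj** (uses `InjR`) the datum is determined by its relation. Proof. For `D = some (s, m, I, J)`:
`SRel i 0 ↔ i < s` (`c - m ≤ 0` is false since `m < c`), for `i < b`; `SRel (b-1) j ↔ c - m ≤ j` (`s ≤ b - 1`). So
`s` and `m` are determined by the relation, and `none` is different (`SRel (b-1) 0` is true for `none`
and false for `some`). For `s ≤ i`, `i + 1 < b` and `1 ≤ j < c - m`: `SRel i j ↔ Rel I J i (j - 1)`, i.e. `Rel I J i j'`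
is determined for `s ≤ i < b - 1`, `j' < c - 1 - m`: `InjR`. -/
def StmtInj : Prop := ∀ b c h : ℕ, 1 ≤ b → 1 ≤ c → ∀ D ∈ data b c h, ∀ D' ∈ data b c h,
  (∀ i < b, ∀ j < c, (SRel b c D i j ↔ SRel b c D' i j)) → D = D'

/-- **Card** the number of data. Proof. The union over `s, m, k` is disjoint and the maps are injective:
the number is `1 + ∑_(s<b) ∑_(m<c) ∑_(k≤h) C(b-1-s, k) C(c-1-m, k)`. Exchange the sums; with
`∑_(s<b) C(b-1-s, k) = ∑_(s<b) C(s, k) = C(b, k+1)` (`Finset.sum_range_reflect`,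
`Nat.sum_range_choose_...` or induction: hockey stick) this is `1 + ∑_(k≤h) C(b,k+1) C(c,k+1)`
`= ∑_(k ≤ h+1) C(b,k) C(c,k)`. -/
def StmtCard : Prop := ∀ b c h : ℕ, (data b c h).card = ∑ k ∈ range (h + 2), b.choose k * c.choose k

/-- **Low** (uses `Sep`, `Reg`, `Vtx`, `ExF`, `Clos`, `Cont`, `FamB`, `FamS`, `Pts`, `Inj`, `Card`; may import
`Lo.Generic`) the lower bound. Proof. `A, B` from `FamB`, `FamS` by induction on `h ≥ 1`. Generic
coefficients `cf` exist (`exists_generic`), they are nonzero at all lattice points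
(`IsGeneric.ne_zero`); `F` from `ExF`. `N = numVertices (newton F)`, and
`newton F = convexHull ℝ (Mx F)`; `Mx F` is nonempty because `F ≠ 0`. Apply `Reg` to `M = Mx F`,
`I = data b c h`, `U = UU b c h A B`: they are open (`Cont`) and nonempty (`Pts`). For `D ≠ D'` the
relations `SRel` differ at some `i < b`, `j < c` (`Inj`), so (if `SRel D i j` and not `SRel D' i j`, or
conversely; in the second case exchange `z` and `z'`, and `θ` and `1 - θ`) by `Sep` some point of the
segment is a tie, so it is in `trp (Mx F)` by `Clos`. -/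
def StmtLow : Prop := ∀ b c h : ℕ, 1 ≤ h → 1 ≤ b → 1 ≤ c →
  ∃ N, IsVertexNumber (vec b c h) N ∧ ∑ k ∈ range (h + 2), b.choose k * c.choose k ≤ N

/-- **Perm** (imports `Pg.PermP`) invariance under permutations. Proof. `implicit_perm`,
`numVertices_perm` of `Pg/PermP.lean`; genericity is transported by `Equiv.sigmaCongrLeft`-like
reindexing, `AlgebraicIndependent.comp`. -/
def StmtPerm : Prop := ∀ (d : ℕ) (v : Fin (d + 1) → ℕ) (σ : Equiv.Perm (Fin (d + 1))) (N : ℕ),
  IsVertexNumber v N → IsVertexNumber (v ∘ σ) N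

/-- **Lower** (uses `Low`, `Perm`) arbitrary positions of the two polytopes. Proof. `d = h + 2`. Choose a
permutation `σ` of `Fin (d + 1)` with `σ i₁ = Fin.last`, `σ i₂ = 0` (product of two transpositions); then
`v = vec (v i₁) (v i₂) h ∘ σ`. -/
def StmtLower : Prop := ∀ (d : ℕ) (v : Fin (d + 1) → ℕ) (i₁ i₂ : Fin (d + 1)), 3 ≤ d → i₁ ≠ i₂ →
  1 ≤ v i₁ → 1 ≤ v i₂ → (∀ l, l ≠ i₁ → l ≠ i₂ → v l = 1) →
    ∃ N, IsVertexNumber v N ∧ ∑ k ∈ range d, (v i₁).choose k * (v i₂).choose k ≤ N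

end Pool.Agent.Lib.MP_4e7804_co.Tl
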