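import Pool.Agent.Lib.MP_4e7804_co.Tl.Spec

/-! MP_4e7804_co: approximation of ties by nice positions. -/

set_option autoImplicit false

open Filter Topology Finset

namespace Pool.Agent.Lib.MP_4e7804_co.Tl

namespace ApxN

private theorem avoid (y ε : ℝ) (hε : 0 < ε) (S : Finset ℝ) :
    ∃ q : ℚ, y < q ∧ (q : ℝ) < y + ε ∧ (q : ℝ) ∉ S := by
  have h1 : (Set.Ioo y (y + ε) \ (S : Set ℝ)).Nonempty :=
    ((Set.Ioo_infinite (by linarith)).diff S.finite_toSet).nonempty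
  have h2 : IsOpen (Set.Ioo y (y + ε) \ (S : Set ℝ)) := isOpen_Ioo.sdiff S.finite_toSet.isClosed
  obtain ⟨q, hq⟩ := Rat.denseRange_cast.exists_mem_open h2 h1
  exact ⟨q, hq.1.1, hq.1.2, hq.2⟩

private theorem tend_eps (y : ℝ) : Tendsto (fun n : ℕ => y + 1 / ((n : ℝ) + 1)) atTop (𝓝 y) := by
  have := (tendsto_one_div_add_atTop_nhds_zero_nat (𝕜 := ℝ)).const_add y
  simpa using this

private theorem tend_between (y : ℝ) (q : ℕ → ℚ) (h1 : ∀ n, y < q n)
    (h2 : ∀ n, (q n : ℝ) < y + 1 / ((n : ℝ) + 1)) :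
    Tendsto (fun n => (q n : ℝ)) atTop (𝓝 y) :=
  tendsto_of_tendsto_of_tendsto_of_le_of_le tendsto_const_nhds (tend_eps y)
    (fun n => (h1 n).le) (fun n => (h2 n).le)

private theorem choosePt (y : ℝ) (N : ℕ) (β : ℕ → ℕ → ℚ) (βl : ℕ → ℝ)
    (hβ : ∀ k, Tendsto (fun n => (β n k : ℝ)) atTop (𝓝 (βl k))) (M : Prop) (K : ℕ → Prop)
    (h : M ∨ ∃ i, i + 1 < N ∧ y = βl i ∧ K i) :
    ∃ yn : ℕ → ℚ, Tendsto (fun n => (yn n : ℝ)) atTop (𝓝 y) ∧
      ((M ∧ ∀ n k, k + 1 < N → (yn n : ℝ) ≠ β n k) ∨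
        ∃ i, i + 1 < N ∧ (∀ n, yn n = β n i) ∧ K i) := by
  rcases h with hM | ⟨i, hi, hy, hK⟩
  · have h1 : ∀ n : ℕ, ∃ q : ℚ, y < q ∧ (q : ℝ) < y + 1 / ((n : ℝ) + 1) ∧
        (q : ℝ) ∉ (range N).image fun k => (β n k : ℝ) := fun n =>
      avoid y _ (by positivity) _
    choose q hq1 hq2 hq3 using h1
    refine ⟨q, tend_between y q hq1 hq2, Or.inl ⟨hM, ?_⟩⟩
    intro n k hk he
    exact hq3 n (mem_image.2 ⟨k, mem_range.2 (by omega), he.symm⟩)
  · refine ⟨fun n => β n i, ?_, Or.inr ⟨i, hi, fun _ => rfl, hK⟩⟩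
    rw [hy]
    exact hβ i

private theorem side (hLab : StmtLab) (N : ℕ) (hN : 1 ≤ N) (a φ : ℕ → ℕ → ℝ) (τ : ℕ → ℝ)
    (φl : ℕ → ℝ) (hmono : ∀ n, StrictMono (a n))
    (hstep : ∀ n i, φ n (i + 1) = φ n i + (a n i - τ n))
    (hlim : ∀ i, Tendsto (fun n => φ n i) atTop (𝓝 (φl i))) (z : ℝ)
    (h : (((∀ i < N, z ≤ φl i) ∧ ∃ i < N, z = φl i) ∧ ∀ n k, k + 1 < N → τ n ≠ a n k) ∨
      ∃ i, i + 1 < N ∧ (∀ n, τ n = a n i) ∧ φl i ≤ z) :
    ∃ zn : ℕ → ℝ, Tendsto zn atTop (𝓝 z) ∧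
      ∀ n, (∃ i < N, zn n = φ n i ∧ ∀ k < N, k ≠ i → φ n i < φ n k) ∨
        ∃ i, i + 1 < N ∧ τ n = a n i ∧ φ n i < zn n := by
  rcases h with ⟨⟨h1, i₀, hi₀, h2⟩, h3⟩ | ⟨i, hi, ht, hz⟩
  · have hne : (range N).Nonempty := ⟨i₀, mem_range.2 hi₀⟩
    refine ⟨fun n => (range N).inf' hne fun i => φ n i, ?_, fun n => Or.inl ?_⟩
    · have hz : z = (range N).inf' hne φl := by
        apply le_antisymm
        · exact le_inf' _ _ fun i hi => h1 i (mem_range.1 hi)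
        · rw [h2]
          exact inf'_le _ (mem_range.2 hi₀)
      rw [hz]
      exact Tendsto.finset_inf'_nhds_apply hne fun i _ => hlim i
    · obtain ⟨-, -, -, h4⟩ := hLab (a n) (φ n) (τ n) (hmono n) (hstep n)
      obtain ⟨i, hi, hk⟩ := h4 N hN (h3 n)
      refine ⟨i, hi, ?_, hk⟩
      apply le_antisymm
      · exact inf'_le _ (mem_range.2 hi)
      · refine le_inf' _ _ fun k hk' => ?_
        by_cases hki : k = i
        · rw [hki]
        · exact (hk k (mem_range.1 hk') hki).le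
  · refine ⟨fun n => max z (φ n i) + 1 / ((n : ℝ) + 1), ?_, fun n => Or.inr ⟨i, hi, ht n, ?_⟩⟩
    · have h1 : Tendsto (fun n => max z (φ n i)) atTop (𝓝 (max z (φl i))) :=
        tendsto_const_nhds.max (hlim i)
      rw [max_eq_left hz] at h1
      have h2 := h1.add (tendsto_one_div_add_atTop_nhds_zero_nat (𝕜 := ℝ))
      simpa using h2
    · have h1 : 0 < 1 / ((n : ℝ) + 1) := by positivity
      have h2 := le_max_right z (φ n i)
      show φ n i < max z (φ n i) + 1 / ((n : ℝ) + 1)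
      linarith

end ApxN

open ApxN in
theorem tApx (hMon : StmtMon) (hLab : StmtLab) : StmtApx := by
  intro b c h A B hC hb hc x o z₁ z₂ t hx hT
  -- the sequence xn
  have h0 : ∀ n r : ℕ, ∃ q : ℚ, x r < q ∧ (q : ℝ) < x r + 1 / ((n : ℝ) + 1) := fun n r => by
    obtain ⟨q, h1, h2, -⟩ := avoid (x r) (1 / ((n : ℝ) + 1)) (by positivity) ∅
    exact ⟨q, h1, h2⟩
  choose q hq1 hq2 using h0
  let xn : ℕ → ℕ → ℚ := fun n r => if r < h then q n r else 0
  have xlt : ∀ n r, r < h → xn n r = q n r := fun n r hr => if_pos hr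
  have xge : ∀ n r, ¬ r < h → xn n r = 0 := fun n r hr => if_neg hr
  have hDom : ∀ n, Dom (fun r => (xn n r : ℝ)) := by
    intro n
    have hpos : ∀ r < h, (0 : ℝ) < xn n r := by
      intro r hr
      rw [xlt n r hr]
      exact (hx r hr).trans (hq1 n r)
    refine ⟨hpos 0 hC.one_le, fun r => ?_⟩
    by_cases hr : r < h
    · exact (hpos r hr).le
    · show (0 : ℝ) ≤ (xn n r : ℝ)
      rw [xge n r hr]
      simp
  have hxt : ∀ r < h, Tendsto (fun n => (xn n r : ℝ)) atTop (𝓝 (x r)) := by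
    intro r hr
    have h1 : (fun n => (xn n r : ℝ)) = fun n => (q n r : ℝ) := by
      funext n
      rw [xlt n r hr]
    rw [h1]
    exact tend_between (x r) (fun n => q n r) (fun n => hq1 n r) (fun n => hq2 n r)
  -- sums
  have hsum : ∀ C : ℕ → ℕ → ℤ, ∀ k, Tendsto (fun n => ((∑ r ∈ range h, (C r k : ℚ) * xn n r : ℚ) : ℝ))
      atTop (𝓝 (∑ r ∈ range h, (C r k : ℝ) * x r)) := by
    intro C k
    have h1 : (fun n => ((∑ r ∈ range h, (C r k : ℚ) * xn n r : ℚ) : ℝ)) =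
        fun n => ∑ r ∈ range h, (C r k : ℝ) * (xn n r : ℝ) := by
      funext n
      push_cast
      rfl
    rw [h1]
    exact tendsto_finset_sum _ fun r hr => (hxt r (mem_range.1 hr)).const_mul _
  obtain ⟨hTP, hTQ⟩ := hT
  obtain ⟨tn, htn, htP⟩ := choosePt t b (fun n k => ∑ r ∈ range h, (A r k : ℚ) * xn n r)
    (fun k => uu h A x k) (fun k => hsum A k)
    ((∀ i < b, z₁ ≤ pF b h A x i t) ∧ ∃ i < b, z₁ = pF b h A x i t)
    (fun i => pF b h A x i t ≤ z₁) hTP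
  obtain ⟨dn, hdn, hdQ⟩ := choosePt (t - o) c (fun n k => ∑ r ∈ range h, (B r k : ℚ) * xn n r)
    (fun k => ∑ r ∈ range h, (B r k : ℝ) * x r) (fun k => hsum B k)
    ((∀ j < c, z₂ ≤ qG h B x o j t) ∧ ∃ j < c, z₂ = qG h B x o j t)
    (fun j => qG h B x o j t ≤ z₂) (by
      rcases hTQ with h' | ⟨j, hj, h1, h2⟩
      · exact Or.inl h'
      · refine Or.inr ⟨j, hj, ?_, h2⟩
        rw [h1, vv]
        ring)
  have hon : Tendsto (fun n => ((tn n - dn n : ℚ) : ℝ)) atTop (𝓝 o) := by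
    have h1 := htn.sub hdn
    have h2 : t - (t - o) = o := by ring
    rw [h2] at h1
    refine h1.congr fun n => ?_
    push_cast
    rfl
  have huu : ∀ k, Tendsto (fun n => uu h A (fun r => (xn n r : ℝ)) k) atTop (𝓝 (uu h A x k)) := by
    intro k
    refine (hsum A k).congr fun n => ?_
    rw [uu]
    push_cast
    rfl
  have hvv : ∀ k, Tendsto (fun n => vv h B (fun r => (xn n r : ℝ)) ((tn n - dn n : ℚ) : ℝ) k) atTop
      (𝓝 (vv h B x o k)) := by
    intro k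
    refine (hon.add (hsum B k)).congr fun n => ?_
    rw [vv]
    push_cast
    rfl
  have hpF : ∀ i, Tendsto (fun n => pF b h A (fun r => (xn n r : ℝ)) i (tn n)) atTop
      (𝓝 (pF b h A x i t)) := fun i =>
    (tendsto_finset_sum _ fun k _ => huu k).add (htn.const_mul _)
  have hqG : ∀ j, Tendsto (fun n => qG h B (fun r => (xn n r : ℝ)) ((tn n - dn n : ℚ) : ℝ) j (tn n))
      atTop (𝓝 (qG h B x o j t)) := fun j =>
    (tendsto_finset_sum _ fun k _ => hvv k).sub (htn.const_mul _)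
  have hM := fun n => hMon b h A B (fun r => (xn n r : ℝ)) ((tn n - dn n : ℚ) : ℝ) hC (hDom n)
  obtain ⟨z₁n, hz₁, hN₁⟩ := side hLab b hb (fun n => uu h A (fun r => (xn n r : ℝ)))
    (fun n i => pF b h A (fun r => (xn n r : ℝ)) i (tn n)) (fun n => (tn n : ℝ))
    (fun i => pF b h A x i t) (fun n => (hM n).1) (fun n i => (hM n).2.2.1 i _) hpF z₁ (by
      rcases htP with ⟨h1, h2⟩ | ⟨i, hi, h1, h2⟩
      · refine Or.inl ⟨h1, fun n k hk he => h2 n k hk ?_⟩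
        rw [he, uu]
        push_cast
        rfl
      · refine Or.inr ⟨i, hi, fun n => ?_, h2⟩
        show (tn n : ℝ) = _
        rw [h1 n, uu]
        push_cast
        rfl)
  obtain ⟨z₂n, hz₂, hN₂⟩ := side hLab c hc
    (fun n => vv h B (fun r => (xn n r : ℝ)) ((tn n - dn n : ℚ) : ℝ))
    (fun n j => qG h B (fun r => (xn n r : ℝ)) ((tn n - dn n : ℚ) : ℝ) j (tn n))
    (fun n => (tn n : ℝ)) (fun j => qG h B x o j t) (fun n => (hM n).2.1)
    (fun n i => (hM n).2.2.2 i _) hqG z₂ (by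
      rcases hdQ with ⟨h1, h2⟩ | ⟨i, hi, h1, h2⟩
      · refine Or.inl ⟨h1, fun n k hk he => h2 n k hk ?_⟩
        rw [vv] at he
        push_cast at he ⊢
        linarith
      · refine Or.inr ⟨i, hi, fun n => ?_, h2⟩
        show (tn n : ℝ) = _
        rw [vv]
        have h3 := h1 n
        have h4 : (dn n : ℝ) = ((∑ r ∈ range h, (B r i : ℚ) * xn n r : ℚ) : ℝ) := by rw [h3]
        push_cast at h4 ⊢
        linarith)
  exact ⟨xn, fun n => tn n - dn n, tn, z₁n, z₂n, hDom, fun n => ⟨hN₁ n, hN₂ n⟩, hxt, hon, hz₁, hz₂⟩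

end Pool.Agent.Lib.MP_4e7804_co.Tl
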