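import Mathlib
import Pool.Agent.Lib.MP_4e7804_co.Defs

/-!
# Two polytopes and `n - 2` points: the lower bound, definitions

`d = h + 2`, `n = h + 3`, `h ≥ 1`. The variables are `x 0, …, x (h-1), o, t` (a linear form
`w` on `ℤ^d`); `P` has the `b` vertices `pp i`, `Q` the `c` vertices `qq j`.
The breaks of `h_P (x, o, t) = min_i pF i t` as a function of `t` are `uu i` (`i + 1 < b`), those of
`h_Q = min_j qG j t` are `vv j` (`j + 1 < c`). `A, B : ℕ → ℕ → ℤ` are the columns.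
-/

set_option autoImplicit false

open Finset

namespace Pool.Agent.Lib.MP_4e7804_co.Tl

/-- The break number `i` of `h_P`. -/
noncomputable def uu (h : ℕ) (A : ℕ → ℕ → ℤ) (x : ℕ → ℝ) (i : ℕ) : ℝ :=
  ∑ r ∈ range h, (A r i : ℝ) * x r

/-- The break number `j` of `h_Q`. -/
noncomputable def vv (h : ℕ) (B : ℕ → ℕ → ℤ) (x : ℕ → ℝ) (o : ℝ) (j : ℕ) : ℝ :=
  o + ∑ r ∈ range h, (B r j : ℝ) * x r

/-- The value of the vertex number `i` of `P`. -/
noncomputable def pF (b h : ℕ) (A : ℕ → ℕ → ℤ) (x : ℕ → ℝ) (i : ℕ) (t : ℝ) : ℝ :=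
  ∑ k ∈ range i, uu h A x k + ((b : ℝ) - i) * t

/-- The value of the vertex number `j` of `Q`. -/
noncomputable def qG (h : ℕ) (B : ℕ → ℕ → ℤ) (x : ℕ → ℝ) (o : ℝ) (j : ℕ) (t : ℝ) : ℝ :=
  ∑ k ∈ range j, vv h B x o k - ((j : ℝ) + 1) * t

/-- The point `s` with `h_P (s) = z₁`: `s` is the maximum of the `(z₁ - f_i) / (b - i)`, `i < b`. -/
noncomputable def sg (b h : ℕ) (A : ℕ → ℕ → ℤ) (x : ℕ → ℝ) (z₁ : ℝ) : ℝ :=
  if hb : (range b).Nonempty then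
    (range b).sup' hb fun i => (z₁ - ∑ k ∈ range i, uu h A x k) / ((b : ℝ) - i) else 0

/-- The point `s` with `h_Q (s) = z₂`: the minimum of the `(g_j - z₂) / (j + 1)`, `j < c`. -/
noncomputable def ta (c h : ℕ) (B : ℕ → ℕ → ℤ) (x : ℕ → ℝ) (o z₂ : ℝ) : ℝ :=
  if hc : (range c).Nonempty then
    (range c).inf' hc fun j => (∑ k ∈ range j, vv h B x o k - z₂) / ((j : ℝ) + 1) else 0

/-- The break number `i < b` of `F = min (h_P, z₁)`. -/
noncomputable def FF (b h : ℕ) (A : ℕ → ℕ → ℤ) (x : ℕ → ℝ) (z₁ : ℝ) (i : ℕ) : ℝ :=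
  if i + 1 < b then min (uu h A x i) (sg b h A x z₁) else sg b h A x z₁

/-- The break number `j < c` of `G = min (z₂, h_Q)`. -/
noncomputable def GG (c h : ℕ) (B : ℕ → ℕ → ℤ) (x : ℕ → ℝ) (o z₂ : ℝ) (j : ℕ) : ℝ :=
  if j = 0 then ta c h B x o z₂ else max (ta c h B x o z₂) (vv h B x o (j - 1))

/-- Both `F` and `G` are attained twice at `t`. -/
def Tie (b c h : ℕ) (A B : ℕ → ℕ → ℤ) (x : ℕ → ℝ) (o z₁ z₂ t : ℝ) : Prop :=
  (((∀ i < b, z₁ ≤ pF b h A x i t) ∧ ∃ i < b, z₁ = pF b h A x i t) ∨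
    ∃ i, i + 1 < b ∧ t = uu h A x i ∧ pF b h A x i t ≤ z₁) ∧
  (((∀ j < c, z₂ ≤ qG h B x o j t) ∧ ∃ j < c, z₂ = qG h B x o j t) ∨
    ∃ j, j + 1 < c ∧ t = vv h B x o j ∧ qG h B x o j t ≤ z₂)

/-- Conditions on the columns: nondecreasing, the column `0` strictly increasing. -/
structure Cols (h : ℕ) (A B : ℕ → ℕ → ℤ) : Prop where
  one_le : 1 ≤ h
  A_mono : ∀ r i, A r i ≤ A r (i + 1)
  B_mono : ∀ r j, B r j ≤ B r (j + 1)
  A_zero : ∀ i, A 0 i < A 0 (i + 1)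
  B_zero : ∀ j, B 0 j < B 0 (j + 1)

/-- The domain: `x 0 > 0` and `x r ≥ 0`. -/
def Dom (x : ℕ → ℝ) : Prop := 0 < x 0 ∧ ∀ r, 0 ≤ x r

/-- The order relation `u_i < v_j` of the chain with the index sets `I`, `J`. -/
def Rel (I J : Finset ℕ) (i j : ℕ) : Prop :=
  (I.filter (· ≤ i)).card < (J.filter (· ≤ j)).card ∨
    ((I.filter (· ≤ i)).card = (J.filter (· ≤ j)).card ∧
      ((Even (I.filter (· ≤ i)).card ∧ (i ∈ I ∨ j ∉ J)) ∨
        (¬ Even (I.filter (· ≤ i)).card ∧ i ∈ I ∧ j ∉ J)))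

/-- All chains of length at most `h` are realized. -/
def Real (b c h : ℕ) (A B : ℕ → ℕ → ℤ) : Prop :=
  ∀ I ⊆ range (b - 1), ∀ J ⊆ range (c - 1), I.card = J.card → I.card ≤ h →
    ∃ (x : ℕ → ℝ) (o : ℝ), Dom x ∧ ∀ i < b - 1, ∀ j < c - 1,
      (Rel I J i j → uu h A x i < vv h B x o j) ∧ (¬ Rel I J i j → vv h B x o j < uu h A x i)

/-- The data: `none` or `(s, m, I, J)` with `I ⊆ [s, b - 1)`, `J ⊆ [0, c - 1 - m)`,
`|I| = |J| ≤ h`. -/
def data (b c h : ℕ) : Finset (Option (ℕ × ℕ × Finset ℕ × Finset ℕ)) :=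
  insertNone ((range b).biUnion fun s => (range c).biUnion fun m => (range (h + 1)).biUnion fun k =>
    ((powersetCard k (Ico s (b - 1))) ×ˢ (powersetCard k (range (c - 1 - m)))).image
      fun q => (s, m, q.1, q.2))

/-- The order relation `F_i < G_j` of the data. -/
def SRel (b c : ℕ) : Option (ℕ × ℕ × Finset ℕ × Finset ℕ) → ℕ → ℕ → Prop
  | none, _, _ => True
  | some (s, m, I, J), i, j =>
      i < s ∨ c - m ≤ j ∨ (i + 1 < b ∧ 1 ≤ j ∧ Rel I J i (j - 1))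

/-- The weight with the coordinates `z₂; x 0, …, x (h-1), o; z₁`. -/
def pnt (h : ℕ) (x : ℕ → ℝ) (o z₁ z₂ : ℝ) : Fin (h + 2 + 1) → ℝ := fun k =>
  if k.val = 0 then z₂ else if k.val ≤ h then x (k.val - 1) else if k.val = h + 1 then o else z₁

/-- The coordinates `x 0, …, x (h-1)` of a weight. -/
def xz (h : ℕ) (z : Fin (h + 2 + 1) → ℝ) : ℕ → ℝ := fun r =>
  if hr : r < h then z ⟨r + 1, by omega⟩ else 0

/-- The coordinate `o` of a weight. -/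
def oz (h : ℕ) (z : Fin (h + 2 + 1) → ℝ) : ℝ := z ⟨h + 1, by omega⟩

/-- The weights with `x r > 0` for all `r < h`. -/
def Dp (h : ℕ) : Set (Fin (h + 2 + 1) → ℝ) := {z | ∀ r < h, 0 < xz h z r}

/-- The weights with the order relation of the datum `D`. -/
def UU (b c h : ℕ) (A B : ℕ → ℕ → ℤ) (D : Option (ℕ × ℕ × Finset ℕ × Finset ℕ)) :
    Set (Fin (h + 2 + 1) → ℝ) :=
  {z | z ∈ Dp h ∧ ∀ i < b, ∀ j < c,
    (SRel b c D i j → FF b h A (xz h z) (z (Fin.last _)) i < GG c h B (xz h z) (oz h z) (z 0) j) ∧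
    (¬ SRel b c D i j → GG c h B (xz h z) (oz h z) (z 0) j < FF b h A (xz h z) (z (Fin.last _)) i)}

/-- The vertices of `P`. -/
def pp (b h : ℕ) (A : ℕ → ℕ → ℤ) (i : ℕ) : Fin (h + 2) → ℤ := fun l =>
  if l.val < h then ∑ k ∈ range i, A l.val k else if l.val = h then 0 else (b : ℤ) - i

/-- The vertices of `Q`. -/
def qq (h : ℕ) (B : ℕ → ℕ → ℤ) (j : ℕ) : Fin (h + 2) → ℤ := fun l =>
  if l.val < h then ∑ k ∈ range j, B l.val k else if l.val = h then (j : ℤ) else -((j : ℤ) + 1)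

def setP (b h : ℕ) (A : ℕ → ℕ → ℤ) : Finset (Fin (h + 2) → ℤ) := (range b).image (pp b h A)

def setQ (c h : ℕ) (B : ℕ → ℕ → ℤ) : Finset (Fin (h + 2) → ℤ) := (range c).image (qq h B)

/-- The linear form with the coordinates `x 0, …, x (h-1), o, t`. -/
def ww (h : ℕ) (x : ℕ → ℚ) (o t : ℚ) : Fin (h + 2) → ℚ := fun l =>
  if l.val < h then x l.val else if l.val = h then o else t

/-- The vertices of the polytopes `Q; e_0, …, e_h; P`. -/
def sets (b c h : ℕ) (A B : ℕ → ℕ → ℤ) : Fin (h + 2 + 1) → Finset (Fin (h + 2) → ℤ) :=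
  Fin.cons (setQ c h B) fun j : Fin (h + 2) =>
    if j = Fin.last (h + 1) then setP b h A else {Pi.single j 1}

/-- The polytopes. -/
def conf (b c h : ℕ) (A B : ℕ → ℕ → ℤ) : Fin (h + 2 + 1) → Set (Fin (h + 2) → ℝ) :=
  fun i => convexHull ℝ (toReal '' (sets b c h A B i : Set (Fin (h + 2) → ℤ)))

/-- The numbers of vertices. -/
def vec (b c h : ℕ) : Fin (h + 2 + 1) → ℕ :=
  Fin.cons c fun j : Fin (h + 2) => if j = Fin.last (h + 1) then b else 1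

/-- The tropical hypersurface of a finite set of exponents. -/
def trp {n : ℕ} (M : Finset (Fin n → ℝ)) : Set (Fin n → ℝ) :=
  {z | ∀ a ∈ M, ∃ b ∈ M, b ≠ a ∧ b ⬝ᵥ z ≤ a ⬝ᵥ z}

open scoped Classical in
/-- The exponents of `F`, as real vectors. -/
noncomputable def Mx {n : ℕ} (F : MvPolynomial (Fin n) ℂ) : Finset (Fin n → ℝ) :=
  F.support.image fun (a : Fin n →₀ ℕ) (i : Fin n) => (a i : ℝ)

/-- `z₁, z₂` at a rational point with generic position. -/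
def Nice (b c h : ℕ) (A B : ℕ → ℕ → ℤ) (x : ℕ → ℝ) (o z₁ z₂ t : ℝ) : Prop :=
  ((∃ i < b, z₁ = pF b h A x i t ∧ ∀ k < b, k ≠ i → pF b h A x i t < pF b h A x k t) ∨
    ∃ i, i + 1 < b ∧ t = uu h A x i ∧ pF b h A x i t < z₁) ∧
  ((∃ j < c, z₂ = qG h B x o j t ∧ ∀ k < c, k ≠ j → qG h B x o j t < qG h B x o k t) ∨
    ∃ j, j + 1 < c ∧ t = vv h B x o j ∧ qG h B x o j t < z₂)

end Pool.Agent.Lib.MP_4e7804_co.Tl
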