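import Pool.Agent.Lib.MP_4e7804_co.Tl.Spec

/-! MP_4e7804_co, Tl/InjR: the chain is determined by the relation. Induction: the first pair is
determined, the rest is a chain with the other parity. -/

set_option autoImplicit false

open Finset

namespace Pool.Agent.Lib.MP_4e7804_co.Tl

namespace InjRN

/-- the counting function -/
def cn (I : Finset ℕ) (i : ℕ) : ℕ := (I.filter (· ≤ i)).card

/-- the relation with a parity -/
def RP (ε : ℕ) (I J : Finset ℕ) (i j : ℕ) : Prop :=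
  cn I i < cn J j ∨ (cn I i = cn J j ∧
    ((Even (cn I i + ε) ∧ (i ∈ I ∨ j ∉ J)) ∨ (¬ Even (cn I i + ε) ∧ i ∈ I ∧ j ∉ J)))

theorem rel_eq (I J : Finset ℕ) (i j : ℕ) : Rel I J i j ↔ RP 0 I J i j := Iff.rfl

theorem cn_zero (I : Finset ℕ) (i : ℕ) (h : ∀ k ∈ I, i < k) : cn I i = 0 := by
  unfold cn
  rw [card_eq_zero, filter_eq_empty_iff]
  intro k hk
  have := h k hk
  omega

theorem cn_pos (I : Finset ℕ) (i k : ℕ) (hk : k ∈ I) (hki : k ≤ i) : 1 ≤ cn I i := by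
  unfold cn
  rw [Nat.succ_le_iff, card_pos]
  exact ⟨k, mem_filter.2 ⟨hk, hki⟩⟩

theorem cn_two (I : Finset ℕ) (i k k' : ℕ) (hk : k ∈ I) (hki : k ≤ i) (hk' : k' ∈ I)
    (hki' : k' ≤ i) (hne : k ≠ k') : 2 ≤ cn I i := by
  unfold cn
  have h1 : ({k, k'} : Finset ℕ) ⊆ I.filter (· ≤ i) := by
    intro x hx
    rw [mem_insert, mem_singleton] at hx
    rcases hx with rfl | rfl
    · exact mem_filter.2 ⟨hk, hki⟩
    · exact mem_filter.2 ⟨hk', hki'⟩
  have h2 := card_le_card h1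
  rw [card_pair hne] at h2
  exact h2

theorem cn_one (I : Finset ℕ) (i₁ : ℕ) (h1 : i₁ ∈ I) (h2 : ∀ k ∈ I, i₁ ≤ k) : cn I i₁ = 1 := by
  unfold cn
  rw [card_eq_one]
  refine ⟨i₁, ?_⟩
  ext k
  rw [mem_filter, mem_singleton]
  constructor
  · rintro ⟨hk, hk'⟩
    exact le_antisymm hk' (h2 k hk)
  · rintro rfl
    exact ⟨h1, le_rfl⟩

theorem cn_erase (I : Finset ℕ) (i₁ i : ℕ) (h1 : i₁ ∈ I) (h : i₁ < i) :
    cn I i = cn (I.erase i₁) i + 1 := by
  unfold cn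
  have h2 : (I.erase i₁).filter (· ≤ i) = (I.filter (· ≤ i)).erase i₁ := by
    ext k
    simp only [mem_filter, mem_erase]
    tauto
  rw [h2, card_erase_of_mem (mem_filter.2 ⟨h1, h.le⟩)]
  have : 0 < (I.filter (· ≤ i)).card := card_pos.2 ⟨i₁, mem_filter.2 ⟨h1, h.le⟩⟩
  omega

theorem RP_erase (ε : ℕ) (I J : Finset ℕ) (i₁ j₁ i j : ℕ) (h1 : i₁ ∈ I) (h2 : j₁ ∈ J)
    (hi : i₁ < i) (hj : j₁ < j) :
    RP ε I J i j ↔ RP (ε + 1) (I.erase i₁) (J.erase j₁) i j := by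
  unfold RP
  rw [cn_erase I i₁ i h1 hi, cn_erase J j₁ j h2 hj]
  have e1 : i ∈ I.erase i₁ ↔ i ∈ I := by
    rw [mem_erase]
    exact ⟨fun h => h.2, fun h => ⟨by omega, h⟩⟩
  have e2 : j ∈ J.erase j₁ ↔ j ∈ J := by
    rw [mem_erase]
    exact ⟨fun h => h.2, fun h => ⟨by omega, h⟩⟩
  rw [e1, e2]
  have e3 : cn (I.erase i₁) i + 1 + ε = cn (I.erase i₁) i + (ε + 1) := by omega
  rw [e3]
  constructor
  · rintro (h | ⟨h, h'⟩)
    · exact Or.inl (by omega)
    · exact Or.inr ⟨by omega, h'⟩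
  · rintro (h | ⟨h, h'⟩)
    · exact Or.inl (by omega)
    · exact Or.inr ⟨by omega, h'⟩

/-- even parity: true before the first element -/
theorem ev_lt (ε : ℕ) (hε : Even ε) (I J : Finset ℕ) (i j : ℕ) (h : ∀ k ∈ I, i < k) :
    RP ε I J i j := by
  unfold RP
  rw [cn_zero I i h]
  rcases Nat.eq_zero_or_pos (cn J j) with h1 | h1
  · refine Or.inr ⟨h1.symm, Or.inl ⟨by simpa using hε, Or.inr ?_⟩⟩
    intro hj
    have := cn_pos J j j hj le_rfl
    omega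
  · exact Or.inl h1

theorem ev_eq (ε : ℕ) (hε : Even ε) (I J : Finset ℕ) (i₁ j₁ j : ℕ) (h1 : i₁ ∈ I)
    (h2 : ∀ k ∈ I, i₁ ≤ k) (h3 : j₁ ∈ J) (h4 : ∀ k ∈ J, j₁ ≤ k) :
    RP ε I J i₁ j ↔ j₁ < j := by
  have hodd : ¬ Even (1 + ε) := by
    rw [Nat.not_even_iff_odd]
    exact Odd.add_even odd_one hε
  unfold RP
  rw [cn_one I i₁ h1 h2]
  rcases lt_trichotomy j j₁ with hj | rfl | hj
  · have h5 : cn J j = 0 := cn_zero J j fun k hk => lt_of_lt_of_le hj (h4 k hk)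
    rw [h5]
    constructor
    · rintro (h | ⟨h, -⟩) <;> omega
    · intro h
      omega
  · rw [cn_one J j h3 h4]
    constructor
    · rintro (h | ⟨-, ⟨h, -⟩ | ⟨-, -, h⟩⟩)
      · omega
      · exact absurd h hodd
      · exact absurd h3 h
    · intro h
      omega
  · refine ⟨fun _ => hj, fun _ => ?_⟩
    have h5 := cn_pos J j j₁ h3 hj.le
    rcases Nat.lt_or_ge 1 (cn J j) with h6 | h6
    · exact Or.inl h6
    · refine Or.inr ⟨by omega, Or.inr ⟨hodd, h1, ?_⟩⟩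
      intro hjJ
      have := cn_two J j j₁ j h3 hj.le hjJ le_rfl (by omega)
      omega

/-- odd parity: false before the first element -/
theorem od_lt (ε : ℕ) (hε : ¬ Even ε) (I J : Finset ℕ) (i j : ℕ) (h : ∀ k ∈ J, j < k) :
    ¬ RP ε I J i j := by
  unfold RP
  rw [cn_zero J j h]
  rintro (h1 | ⟨h1, ⟨h2, -⟩ | ⟨-, h2, -⟩⟩)
  · omega
  · rw [h1] at h2
    exact hε (by simpa using h2)
  · have := cn_pos I i i h2 le_rfl
    omega

theorem od_eq (ε : ℕ) (hε : ¬ Even ε) (I J : Finset ℕ) (i₁ j₁ i : ℕ) (h1 : i₁ ∈ I)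
    (h2 : ∀ k ∈ I, i₁ ≤ k) (h3 : j₁ ∈ J) (h4 : ∀ k ∈ J, j₁ ≤ k) :
    RP ε I J i j₁ ↔ i ≤ i₁ := by
  have hev : Even (1 + ε) := by
    rw [Nat.not_even_iff_odd] at hε
    exact Odd.add_odd odd_one hε
  unfold RP
  rw [cn_one J j₁ h3 h4]
  rcases lt_trichotomy i i₁ with hi | rfl | hi
  · rw [cn_zero I i fun k hk => lt_of_lt_of_le hi (h2 k hk)]
    exact ⟨fun _ => hi.le, fun _ => Or.inl (by omega)⟩
  · rw [cn_one I i h1 h2]
    exact ⟨fun _ => le_rfl, fun _ => Or.inr ⟨rfl, Or.inl ⟨hev, Or.inl h1⟩⟩⟩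
  · have h5 := cn_pos I i i₁ h1 hi.le
    constructor
    · rintro (h | ⟨h, ⟨-, h6⟩ | ⟨h6, -⟩⟩)
      · omega
      · rcases h6 with h6 | h6
        · have := cn_two I i i₁ i h1 hi.le h6 le_rfl (by omega)
          omega
        · exact absurd h3 h6
      · rw [h] at h6
        exact absurd hev h6
    · intro h
      omega

theorem first (ε s r b' c' : ℕ) (I J I' J' : Finset ℕ) (hI : ∀ i ∈ I, s ≤ i ∧ i < b')
    (hJ : ∀ j ∈ J, r ≤ j ∧ j < c')
    (hag : ∀ i, s ≤ i → i < b' → ∀ j, r ≤ j → j < c' → (RP ε I J i j ↔ RP ε I' J' i j))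
    (i₁ j₁ : ℕ) (h1 : i₁ ∈ I) (h2 : ∀ k ∈ I, i₁ ≤ k) (h3 : j₁ ∈ J) (h4 : ∀ k ∈ J, j₁ ≤ k)
    (hcard : I'.card = J'.card) :
    ∃ i' ∈ I', ∃ j' ∈ J', (∀ k ∈ I', i' ≤ k) ∧ (∀ k ∈ J', j' ≤ k) ∧
      ((Even ε → i' ≤ i₁) ∧ (¬ Even ε → j' ≤ j₁)) := by
  have hiI := hI i₁ h1
  have hjJ := hJ j₁ h3
  by_cases hε : Even ε
  · have hfalse : ¬ RP ε I J i₁ j₁ := by
      rw [ev_eq ε hε I J i₁ j₁ j₁ h1 h2 h3 h4]
      exact lt_irrefl _
    have hfalse' : ¬ RP ε I' J' i₁ j₁ := fun h =>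
      hfalse ((hag i₁ hiI.1 hiI.2 j₁ hjJ.1 hjJ.2).2 h)
    have hne : I'.Nonempty := by
      rw [nonempty_iff_ne_empty]
      rintro rfl
      exact hfalse' (ev_lt ε hε ∅ J' i₁ j₁ (by simp))
    have hne' : J'.Nonempty := by
      rw [← card_pos, ← hcard, card_pos]
      exact hne
    refine ⟨I'.min' hne, I'.min'_mem hne, J'.min' hne', J'.min'_mem hne',
      fun k hk => I'.min'_le k hk, fun k hk => J'.min'_le k hk, fun _ => ?_, fun h => absurd hε h⟩
    by_contra hcon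
    push Not at hcon
    exact hfalse' (ev_lt ε hε I' J' i₁ j₁ fun k hk => lt_of_lt_of_le hcon (I'.min'_le k hk))
  · have htrue : RP ε I J i₁ j₁ := by
      rw [od_eq ε hε I J i₁ j₁ i₁ h1 h2 h3 h4]
    have htrue' : RP ε I' J' i₁ j₁ := (hag i₁ hiI.1 hiI.2 j₁ hjJ.1 hjJ.2).1 htrue
    have hne' : J'.Nonempty := by
      rw [nonempty_iff_ne_empty]
      rintro rfl
      exact od_lt ε hε I' ∅ i₁ j₁ (by simp) htrue'
    have hne : I'.Nonempty := by
      rw [← card_pos, hcard, card_pos]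
      exact hne'
    refine ⟨I'.min' hne, I'.min'_mem hne, J'.min' hne', J'.min'_mem hne',
      fun k hk => I'.min'_le k hk, fun k hk => J'.min'_le k hk, fun h => absurd h hε, fun _ => ?_⟩
    by_contra hcon
    push Not at hcon
    exact od_lt ε hε I' J' i₁ j₁ (fun k hk => lt_of_lt_of_le hcon (J'.min'_le k hk)) htrue'

theorem main (n : ℕ) : ∀ (ε s r b' c' : ℕ) (I J I' J' : Finset ℕ), I.card = n → J.card = n →
    I'.card = J'.card → (∀ i ∈ I, s ≤ i ∧ i < b') → (∀ i ∈ I', s ≤ i ∧ i < b') →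
    (∀ j ∈ J, r ≤ j ∧ j < c') → (∀ j ∈ J', r ≤ j ∧ j < c') →
    (∀ i, s ≤ i → i < b' → ∀ j, r ≤ j → j < c' → (RP ε I J i j ↔ RP ε I' J' i j)) →
    I = I' ∧ J = J' := by
  induction n with
  | zero =>
    intro ε s r b' c' I J I' J' hn hn' hcard hI hI' hJ hJ' hag
    rw [card_eq_zero] at hn hn'
    subst hn
    subst hn'
    rcases I'.eq_empty_or_nonempty with h | h
    · refine ⟨h.symm, ?_⟩
      rw [h, card_empty] at hcard
      exact (card_eq_zero.1 hcard.symm).symm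
    · have hne' : J'.Nonempty := by
        rw [← card_pos, ← hcard, card_pos]
        exact h
      obtain ⟨i', hi', -⟩ := first ε s r b' c' I' J' ∅ ∅ hI' hJ'
        (fun i a b j c d => (hag i a b j c d).symm) (I'.min' h) (J'.min' hne') (I'.min'_mem h)
        (fun k hk => I'.min'_le k hk) (J'.min'_mem hne') (fun k hk => J'.min'_le k hk) rfl
      simp at hi'
  | succ n ih =>
    intro ε s r b' c' I J I' J' hn hn' hcard hI hI' hJ hJ' hag
    have hne : I.Nonempty := card_pos.1 (by omega)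
    have hne2 : J.Nonempty := card_pos.1 (by omega)
    obtain ⟨i₁, a1, a2⟩ : ∃ i₁ ∈ I, ∀ k ∈ I, i₁ ≤ k :=
      ⟨I.min' hne, I.min'_mem hne, fun k hk => I.min'_le k hk⟩
    obtain ⟨j₁, a3, a4⟩ : ∃ j₁ ∈ J, ∀ k ∈ J, j₁ ≤ k :=
      ⟨J.min' hne2, J.min'_mem hne2, fun k hk => J.min'_le k hk⟩
    obtain ⟨i₂, b1, j₂, b3, b2, b4, b5, b6⟩ := first ε s r b' c' I J I' J' hI hJ hag i₁ j₁ a1 a2
      a3 a4 hcard
    obtain ⟨i₃, c1, j₃, c3, c2, c4, c5, c6⟩ := first ε s r b' c' I' J' I J hI' hJ'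
      (fun i a b j c d => (hag i a b j c d).symm) i₂ j₂ b1 b2 b3 b4 (by rw [hn, hn'])
    have d1 : i₃ = i₁ := le_antisymm (c2 i₁ a1) (a2 i₃ c1)
    have d2 : j₃ = j₁ := le_antisymm (c4 j₁ a3) (a4 j₃ c3)
    rw [d1] at c5
    rw [d2] at c6
    have e : i₂ = i₁ ∧ j₂ = j₁ := by
      by_cases hε : Even ε
      · have e1 : i₂ = i₁ := le_antisymm (b5 hε) (c5 hε)
        refine ⟨e1, ?_⟩
        have f1 := fun j => ev_eq ε hε I J i₁ j₁ j a1 a2 a3 a4
        have f2 := fun j => ev_eq ε hε I' J' i₂ j₂ j b1 b2 b3 b4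
        rw [e1] at f2
        rcases lt_trichotomy j₂ j₁ with h | h | h
        · have := (hag i₁ (hI i₁ a1).1 (hI i₁ a1).2 j₁ (hJ j₁ a3).1 (hJ j₁ a3).2)
          rw [f1, f2] at this
          exact absurd (this.2 h) (lt_irrefl _)
        · exact h
        · have := (hag i₁ (hI i₁ a1).1 (hI i₁ a1).2 j₂ (hJ' j₂ b3).1 (hJ' j₂ b3).2)
          rw [f1, f2] at this
          exact absurd (this.1 h) (lt_irrefl _)
      · have e1 : j₂ = j₁ := le_antisymm (b6 hε) (c6 hε)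
        refine ⟨?_, e1⟩
        have f1 := fun i => od_eq ε hε I J i₁ j₁ i a1 a2 a3 a4
        have f2 := fun i => od_eq ε hε I' J' i₂ j₂ i b1 b2 b3 b4
        rw [e1] at f2
        rcases lt_trichotomy i₂ i₁ with h | h | h
        · have := (hag i₁ (hI i₁ a1).1 (hI i₁ a1).2 j₁ (hJ j₁ a3).1 (hJ j₁ a3).2)
          rw [f1, f2] at this
          have := this.1 le_rfl
          omega
        · exact h
        · have := (hag i₂ (hI' i₂ b1).1 (hI' i₂ b1).2 j₁ (hJ j₁ a3).1 (hJ j₁ a3).2)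
          rw [f1, f2] at this
          have := this.2 le_rfl
          omega
    rw [e.1] at b1 b2
    rw [e.2] at b3 b4
    have hrec := ih (ε + 1) (i₁ + 1) (j₁ + 1) b' c' (I.erase i₁) (J.erase j₁) (I'.erase i₁)
      (J'.erase j₁) (by rw [card_erase_of_mem a1, hn]; rfl) (by rw [card_erase_of_mem a3, hn']; rfl)
      (by rw [card_erase_of_mem b1, card_erase_of_mem b3, hcard])
      (fun i hi => by
        rw [mem_erase] at hi
        have := a2 i hi.2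
        exact ⟨by omega, (hI i hi.2).2⟩)
      (fun i hi => by
        rw [mem_erase] at hi
        have := b2 i hi.2
        exact ⟨by omega, (hI' i hi.2).2⟩)
      (fun i hi => by
        rw [mem_erase] at hi
        have := a4 i hi.2
        exact ⟨by omega, (hJ i hi.2).2⟩)
      (fun i hi => by
        rw [mem_erase] at hi
        have := b4 i hi.2
        exact ⟨by omega, (hJ' i hi.2).2⟩)
      (fun i hi hib j hj hjc => by
        rw [← RP_erase ε I J i₁ j₁ i j a1 a3 (by omega) (by omega),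
          ← RP_erase ε I' J' i₁ j₁ i j b1 b3 (by omega) (by omega)]
        have := (hI i₁ a1).1
        have := (hJ j₁ a3).1
        exact hag i (by omega) hib j (by omega) hjc)
    constructor
    · rw [← insert_erase a1, ← insert_erase b1, hrec.1]
    · rw [← insert_erase a3, ← insert_erase b3, hrec.2]

end InjRN

open InjRN in
theorem tInjR : StmtInjR := by
  intro s b' c' I J I' J' hI hI' hJ hJ' hc hc' hag
  refine main I.card 0 s 0 b' c' I J I' J' rfl hc.symm hc' (fun i hi => mem_Ico.1 (hI hi))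
    (fun i hi => mem_Ico.1 (hI' hi)) (fun j hj => ⟨Nat.zero_le _, mem_range.1 (hJ hj)⟩)
    (fun j hj => ⟨Nat.zero_le _, mem_range.1 (hJ' hj)⟩) ?_
  intro i hi hib j _ hjc
  exact hag i hi hib j hjc

end Pool.Agent.Lib.MP_4e7804_co.Tl
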