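import Pool.Agent.Lib.MP_4e7804_co.Tl.Spec

/-! MP_4e7804_co, Tl/Sg: the points `sg`, `ta`. -/

set_option autoImplicit false

open Finset

namespace Pool.Agent.Lib.MP_4e7804_co.Tl

namespace SgN

theorem sg_eq (b h : ℕ) (A : ℕ → ℕ → ℤ) (x : ℕ → ℝ) (z₁ : ℝ) (hb : (range b).Nonempty) :
    sg b h A x z₁ =
      (range b).sup' hb fun i => (z₁ - ∑ k ∈ range i, uu h A x k) / ((b : ℝ) - i) := by
  unfold sg
  rw [dif_pos hb]

theorem ta_eq (c h : ℕ) (B : ℕ → ℕ → ℤ) (x : ℕ → ℝ) (o z₂ : ℝ) (hc : (range c).Nonempty) :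
    ta c h B x o z₂ =
      (range c).inf' hc fun j => (∑ k ∈ range j, vv h B x o k - z₂) / ((j : ℝ) + 1) := by
  unfold ta
  rw [dif_pos hc]

theorem pos (b i : ℕ) (hi : i < b) : (0 : ℝ) < (b : ℝ) - i := by
  have : (i : ℝ) < b := by exact_mod_cast hi
  linarith

theorem pos' (j : ℕ) : (0 : ℝ) < (j : ℝ) + 1 := by positivity

theorem le_iff (b h : ℕ) (A : ℕ → ℕ → ℤ) (x : ℕ → ℝ) (i : ℕ) (hi : i < b) (z t : ℝ) :
    z ≤ pF b h A x i t ↔ (z - ∑ k ∈ range i, uu h A x k) / ((b : ℝ) - i) ≤ t := by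
  rw [div_le_iff₀ (pos b i hi)]
  unfold pF
  constructor <;> intro h1 <;> linarith [mul_comm t ((b : ℝ) - i)]

theorem eq_iff (b h : ℕ) (A : ℕ → ℕ → ℤ) (x : ℕ → ℝ) (i : ℕ) (hi : i < b) (z t : ℝ) :
    z = pF b h A x i t ↔ (z - ∑ k ∈ range i, uu h A x k) / ((b : ℝ) - i) = t := by
  rw [div_eq_iff (pos b i hi).ne']
  unfold pF
  constructor <;> intro h1 <;> linarith [mul_comm t ((b : ℝ) - i)]

theorem le_iff' (h : ℕ) (B : ℕ → ℕ → ℤ) (x : ℕ → ℝ) (o : ℝ) (j : ℕ) (z t : ℝ) :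
    z ≤ qG h B x o j t ↔ t ≤ (∑ k ∈ range j, vv h B x o k - z) / ((j : ℝ) + 1) := by
  rw [le_div_iff₀ (pos' j)]
  unfold qG
  constructor <;> intro h1 <;> linarith [mul_comm t ((j : ℝ) + 1)]

theorem eq_iff' (h : ℕ) (B : ℕ → ℕ → ℤ) (x : ℕ → ℝ) (o : ℝ) (j : ℕ) (z t : ℝ) :
    z = qG h B x o j t ↔ (∑ k ∈ range j, vv h B x o k - z) / ((j : ℝ) + 1) = t := by
  rw [div_eq_iff (pos' j).ne']
  unfold qG
  constructor <;> intro h1 <;> linarith [mul_comm t ((j : ℝ) + 1)]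

end SgN

open SgN in
theorem tSg : StmtSg := by
  intro b c h A B x o hb hc
  have hbn : (range b).Nonempty := nonempty_range_iff.2 (by omega)
  have hcn : (range c).Nonempty := nonempty_range_iff.2 (by omega)
  refine ⟨fun z₁ => ?_, fun s => ?_, fun z₂ => ?_, fun s => ?_⟩
  · obtain ⟨i, hi, hie⟩ := exists_mem_eq_sup' hbn
      (fun i => (z₁ - ∑ k ∈ range i, uu h A x k) / ((b : ℝ) - i))
    rw [← sg_eq b h A x z₁ hbn] at hie
    rw [mem_range] at hi
    have hz : z₁ = pF b h A x i (sg b h A x z₁) := (eq_iff b h A x i hi z₁ _).2 hie.symm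
    refine ⟨fun k hk => ?_, ⟨i, hi, hz⟩, fun t ht => ⟨i, hi, ?_⟩⟩
    · rw [le_iff b h A x k hk, sg_eq b h A x z₁ hbn]
      exact le_sup' (fun i => (z₁ - ∑ k ∈ range i, uu h A x k) / ((b : ℝ) - i)) (mem_range.2 hk)
    · calc pF b h A x i t ≤ pF b h A x i (sg b h A x z₁) := by
            unfold pF
            have := mul_le_mul_of_nonneg_left ht (pos b i hi).le
            linarith
        _ = z₁ := hz.symm
  · obtain ⟨i, hi, hie⟩ := exists_mem_eq_inf' hbn (fun i => pF b h A x i s)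
    rw [mem_range] at hi
    refine ⟨(range b).inf' hbn (fun i => pF b h A x i s), ?_⟩
    rw [sg_eq b h A x _ hbn]
    apply le_antisymm
    · apply sup'_le
      intro k hk
      rw [← le_iff b h A x k (mem_range.1 hk)]
      exact inf'_le (fun i => pF b h A x i s) hk
    · have h1 := (eq_iff b h A x i hi _ s).1 hie
      have h2 := le_sup' (fun i => ((range b).inf' hbn (fun i => pF b h A x i s) -
        ∑ k ∈ range i, uu h A x k) / ((b : ℝ) - i)) (mem_range.2 hi)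
      linarith
  · obtain ⟨i, hi, hie⟩ := exists_mem_eq_inf' hcn
      (fun j => (∑ k ∈ range j, vv h B x o k - z₂) / ((j : ℝ) + 1))
    rw [← ta_eq c h B x o z₂ hcn] at hie
    rw [mem_range] at hi
    have hz : z₂ = qG h B x o i (ta c h B x o z₂) := (eq_iff' h B x o i z₂ _).2 hie.symm
    refine ⟨fun k hk => ?_, ⟨i, hi, hz⟩, fun t ht => ⟨i, hi, ?_⟩⟩
    · rw [le_iff' h B x o k, ta_eq c h B x o z₂ hcn]
      exact inf'_le (fun j => (∑ k ∈ range j, vv h B x o k - z₂) / ((j : ℝ) + 1))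
        (mem_range.2 hk)
    · calc qG h B x o i t ≤ qG h B x o i (ta c h B x o z₂) := by
            unfold qG
            have := mul_le_mul_of_nonneg_left ht (pos' i).le
            linarith
        _ = z₂ := hz.symm
  · obtain ⟨i, hi, hie⟩ := exists_mem_eq_inf' hcn (fun j => qG h B x o j s)
    rw [mem_range] at hi
    refine ⟨(range c).inf' hcn (fun j => qG h B x o j s), ?_⟩
    rw [ta_eq c h B x o _ hcn]
    apply le_antisymm
    · have h1 := (eq_iff' h B x o i _ s).1 hie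
      have h2 := inf'_le (fun j => (∑ k ∈ range j, vv h B x o k -
        (range c).inf' hcn (fun j => qG h B x o j s)) / ((j : ℝ) + 1)) (mem_range.2 hi)
      linarith
    · apply le_inf'
      intro k hk
      rw [← le_iff' h B x o k]
      exact inf'_le (fun j => qG h B x o j s) hk

end Pool.Agent.Lib.MP_4e7804_co.Tl
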